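import Mathlib

/-!
The discrepancy of a random `s`-subset (helper48): for `R` a set of points of `Fin n`,
the average over the `s`-subsets `S` of `| |Sᶜ ∩ R| / t - |S ∩ R| / s |` (`t = n - s`) is at most
`(n/2) / √(s t (n-1))`.
-/

set_option autoImplicit false

namespace Pool.MP_801c1a_co.Sub
open Finset

variable {n : ℕ}

theorem card_split (s : ℕ) (hs : 1 ≤ s) (i j : Fin n) (hij : i ≠ j) :
    ((powersetCard s (univ : Finset (Fin n))).filter (fun S => i ∈ S ∧ j ∉ S)).card =
      (n - 2).choose (s - 1) := by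
  have h1 : (((univ : Finset (Fin n)).erase i).erase j).card = n - 2 := by
    rw [card_erase_of_mem (by simp [hij.symm]), card_erase_of_mem (mem_univ _), card_univ,
      Fintype.card_fin]
    omega
  rw [← h1, ← card_powersetCard]
  refine card_nbij' (fun S => S.erase i) (fun S => insert i S) ?_ ?_ ?_ ?_
  · intro S hS
    simp only [coe_filter, mem_powersetCard, subset_univ, true_and, Set.mem_ofPred_eq] at hS
    simp only [mem_coe, mem_powersetCard]
    refine ⟨?_, ?_⟩
    · intro k hk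
      rw [mem_erase] at hk
      simp only [mem_erase, mem_univ, and_true]
      exact ⟨fun h => hS.2.2 (h ▸ hk.2), hk.1⟩
    · rw [card_erase_of_mem hS.2.1, hS.1]
  · intro S hS
    simp only [mem_coe, mem_powersetCard] at hS
    have hi : i ∉ S := fun h => by simpa using hS.1 h
    have hj : j ∉ S := fun h => by simpa using hS.1 h
    simp only [coe_filter, mem_powersetCard, subset_univ, true_and, Set.mem_ofPred_eq]
    refine ⟨?_, mem_insert_self _ _, ?_⟩
    · rw [card_insert_of_notMem hi, hS.2]; omega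
    · rw [mem_insert]; rintro (h | h)
      · exact hij h.symm
      · exact hj h
  · intro S hS
    simp only [coe_filter, mem_powersetCard, subset_univ, true_and, Set.mem_ofPred_eq] at hS
    exact insert_erase hS.2.1
  · intro S hS
    simp only [mem_coe, mem_powersetCard] at hS
    have hi : i ∉ S := fun h => by simpa using hS.1 h
    exact erase_insert hi

theorem choose_identity (s : ℕ) (hs : 1 ≤ s) (hsn : s < n) :
    (n - 2).choose (s - 1) * (n * (n - 1)) = n.choose s * (s * (n - s)) := by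
  obtain ⟨k, rfl⟩ : ∃ k, s = k + 1 := ⟨s - 1, by omega⟩
  obtain ⟨m, rfl⟩ : ∃ m, n = m + 2 := ⟨n - 2, by omega⟩
  have h1 := Nat.add_one_mul_choose_eq (m + 1) k
  have h2 := Nat.choose_mul_succ_eq m k
  simp only [Nat.add_sub_cancel, Nat.succ_eq_add_one] at *
  have e1 : m + 2 - 1 = m + 1 := by omega
  have e2 : m + 2 - (k + 1) = m + 1 - k := by omega
  rw [e1, e2]
  calc m.choose k * ((m + 2) * (m + 1)) = (m + 2) * (m.choose k * (m + 1)) := by ring
    _ = (m + 2) * ((m + 1).choose k * (m + 1 - k)) := by rw [h2]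
    _ = ((m + 1 + 1) * (m + 1).choose k) * (m + 1 - k) := by ring
    _ = (m + 2).choose (k + 1) * ((k + 1) * (m + 1 - k)) := by rw [h1]; ring

/-- second moment of a centred linear statistic of a random `s`-subset -/
theorem second_moment (s : ℕ) (hs : 1 ≤ s) (a : Fin n → ℝ) (ha : ∑ i, a i = 0) :
    ∑ S ∈ powersetCard s (univ : Finset (Fin n)), (∑ j ∈ S, a j) ^ 2 =
      ((n - 2).choose (s - 1) : ℝ) * ∑ i, (a i) ^ 2 := by
  classical
  set P := powersetCard s (univ : Finset (Fin n)) with hP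
  -- indicator form
  have h1 : ∀ S : Finset (Fin n), (∑ j ∈ S, a j) ^ 2 =
      - ∑ i, ∑ j, (if i ∈ S ∧ j ∉ S then a i * a j else 0) := by
    intro S
    have e1 : ∑ i, ∑ j, (if i ∈ S ∧ j ∉ S then a i * a j else 0) =
        (∑ i ∈ S, a i) * (∑ j ∈ Sᶜ, a j) := by
      rw [sum_mul_sum]
      have : ∀ i, ∑ j, (if i ∈ S ∧ j ∉ S then a i * a j else 0) =
          if i ∈ S then ∑ j ∈ Sᶜ, a i * a j else 0 := by
        intro i
        by_cases hi : i ∈ S
        · simp only [hi, true_and, if_true]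
          rw [← sum_filter]
          apply sum_congr _ (fun _ _ => rfl)
          ext j; simp
        · simp [hi]
      rw [sum_congr rfl (fun i _ => this i), ← sum_filter]
      apply sum_congr _ (fun _ _ => rfl)
      ext j; simp
    have e2 : ∑ j ∈ Sᶜ, a j = - ∑ j ∈ S, a j := by
      have := sum_add_sum_compl S a
      linarith
    rw [e1, e2]; ring
  rw [sum_congr rfl (fun S _ => h1 S), sum_neg_distrib, sum_comm]
  have h2 : ∀ i, ∑ S ∈ P, ∑ j, (if i ∈ S ∧ j ∉ S then a i * a j else 0) =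
      ∑ j, (if i = j then 0 else ((n - 2).choose (s - 1) : ℝ) * (a i * a j)) := by
    intro i
    rw [sum_comm]
    refine sum_congr rfl fun j _ => ?_
    rw [← sum_filter, sum_const, nsmul_eq_mul]
    by_cases hij : i = j
    · rw [if_pos hij]
      have : (P.filter (fun S => i ∈ S ∧ j ∉ S)) = ∅ := by
        rw [filter_eq_empty_iff]
        intro S _ h
        exact h.2 (hij ▸ h.1)
      rw [this]; simp
    · rw [if_neg hij, hP, card_split s hs i j hij]
  rw [sum_congr rfl (fun i _ => h2 i)]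
  have h3 : ∀ i, ∑ j, (if i = j then 0 else ((n - 2).choose (s - 1) : ℝ) * (a i * a j)) =
      - ((n - 2).choose (s - 1) : ℝ) * (a i) ^ 2 := by
    intro i
    have e : ∀ j, (if i = j then 0 else ((n - 2).choose (s - 1) : ℝ) * (a i * a j)) =
        ((n - 2).choose (s - 1) : ℝ) * a i * a j -
          (if i = j then ((n - 2).choose (s - 1) : ℝ) * (a i * a j) else 0) := by
      intro j; split_ifs <;> ring
    rw [sum_congr rfl (fun j _ => e j), sum_sub_distrib, ← mul_sum, ha, sum_ite_eq]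
    simp only [mem_univ, if_true]
    ring
  rw [sum_congr rfl (fun i _ => h3 i), ← mul_sum]
  ring

theorem disc_bound (s : ℕ) (hs : 1 ≤ s) (hsn : s < n) (R : Finset (Fin n)) :
    ∑ S ∈ powersetCard s (univ : Finset (Fin n)),
      |((Sᶜ ∩ R).card : ℝ) / ((n - s : ℕ) : ℝ) - ((S ∩ R).card : ℝ) / (s : ℝ)| ≤
      (n.choose s : ℝ) * ((n : ℝ) / 2 / Real.sqrt ((s : ℝ) * ((n - s : ℕ) : ℝ) * (n - 1))) := by
  classical
  have hn0 : (0 : ℝ) < n := by exact_mod_cast (by omega : 0 < n)
  have hn1 : (0 : ℝ) < (n : ℝ) - 1 := by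
    have : (1 : ℝ) < n := by exact_mod_cast (by omega : 1 < n)
    linarith
  have hs0 : (0 : ℝ) < s := by exact_mod_cast (by omega : 0 < s)
  set t : ℝ := ((n - s : ℕ) : ℝ) with ht
  have ht' : t = (n : ℝ) - s := by rw [ht, Nat.cast_sub hsn.le]
  have ht0 : 0 < t := by rw [ht]; exact_mod_cast (by omega : 0 < n - s)
  set m : ℝ := (R.card : ℝ) with hm
  set a : Fin n → ℝ := fun i => (if i ∈ R then 1 else 0) - m / n with ha
  have hasum : ∑ i, a i = 0 := by
    rw [ha, sum_sub_distrib, sum_const, card_univ, Fintype.card_fin, nsmul_eq_mul,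
      sum_ite_mem, univ_inter, sum_const, nsmul_eq_mul, mul_one, ← hm]
    field_simp; ring
  have hX : ∀ T : Finset (Fin n), ∑ j ∈ T, a j = ((T ∩ R).card : ℝ) - T.card * (m / n) := by
    intro T
    rw [ha, sum_sub_distrib, sum_const, nsmul_eq_mul, sum_ite_mem, sum_const, nsmul_eq_mul,
      mul_one]
  have hsq : ∑ i, (a i) ^ 2 ≤ (n : ℝ) / 4 := by
    have e : ∀ i, (a i) ^ 2 = a i * (1 - 2 * (m / n)) + (m / n) * (1 - m / n) := by
      intro i
      simp only [ha]
      split_ifs <;> ring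
    rw [sum_congr rfl (fun i _ => e i), sum_add_distrib, ← sum_mul, hasum, zero_mul, zero_add,
      sum_const, card_univ, Fintype.card_fin, nsmul_eq_mul]
    nlinarith [sq_nonneg (m / n - 1 / 2)]
  -- pointwise
  have hpt : ∀ S ∈ powersetCard s (univ : Finset (Fin n)),
      |((Sᶜ ∩ R).card : ℝ) / t - ((S ∩ R).card : ℝ) / (s : ℝ)| =
        ((n : ℝ) / (t * s)) * |∑ j ∈ S, a j| := by
    intro S hS
    have hSc : S.card = s := (mem_powersetCard.1 hS).2
    have h1 := hX S
    have h2 := hX Sᶜ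
    have h3 := sum_add_sum_compl S a
    rw [hasum] at h3
    have hScc : ((Sᶜ).card : ℝ) = t := by
      rw [card_compl, Fintype.card_fin, hSc]
    rw [hScc] at h2
    rw [hSc] at h1
    have e1 : ((S ∩ R).card : ℝ) = ∑ j ∈ S, a j + s * (m / n) := by linarith
    have e2 : ((Sᶜ ∩ R).card : ℝ) = - ∑ j ∈ S, a j + t * (m / n) := by linarith
    rw [e1, e2]
    have e3 : (-∑ j ∈ S, a j + t * (m / n)) / t - (∑ j ∈ S, a j + s * (m / n)) / (s : ℝ) =
        -((n : ℝ) / (t * s)) * ∑ j ∈ S, a j := by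
      have : (n : ℝ) = t + s := by linarith
      field_simp
      rw [this]; ring
    rw [e3, abs_mul, abs_neg, abs_of_nonneg (by positivity)]
  rw [sum_congr rfl hpt, ← mul_sum]
  set P := powersetCard s (univ : Finset (Fin n)) with hP
  have hPc : (P.card : ℝ) = (n.choose s : ℝ) := by
    rw [hP, card_powersetCard, card_univ, Fintype.card_fin]
  have hCS : (∑ S ∈ P, |∑ j ∈ S, a j|) ^ 2 ≤ (P.card : ℝ) * ∑ S ∈ P, (∑ j ∈ S, a j) ^ 2 := by
    have := sq_sum_le_card_mul_sum_sq (s := P) (f := fun S => |∑ j ∈ S, a j|)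
    simpa [sq_abs] using this
  have hid : ((n - 2).choose (s - 1) : ℝ) * ((n : ℝ) * (n - 1)) = (n.choose s : ℝ) * (s * t) := by
    have h := choose_identity (n := n) s hs hsn
    have h' : (((n - 2).choose (s - 1) * (n * (n - 1)) : ℕ) : ℝ) =
        ((n.choose s * (s * (n - s)) : ℕ) : ℝ) := by rw [h]
    push_cast [Nat.cast_sub (by omega : 1 ≤ n)] at h'
    rw [ht]
    linarith
  have hsm := second_moment s hs a hasum
  rw [← hP] at hsm
  rw [hsm, hPc] at hCS
  have hC0 : (0 : ℝ) ≤ ((n - 2).choose (s - 1) : ℝ) := by positivity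
  have hbound : (∑ S ∈ P, |∑ j ∈ S, a j|) ^ 2 ≤
      ((n.choose s : ℝ) * (Real.sqrt (s * t / (n - 1)) / 2)) ^ 2 := by
    have h1 : ((n - 2).choose (s - 1) : ℝ) * ∑ i, (a i) ^ 2 ≤
        (n.choose s : ℝ) * (s * t / (n - 1)) / 4 := by
      calc ((n - 2).choose (s - 1) : ℝ) * ∑ i, (a i) ^ 2
          ≤ ((n - 2).choose (s - 1) : ℝ) * ((n : ℝ) / 4) := mul_le_mul_of_nonneg_left hsq hC0
        _ = (((n - 2).choose (s - 1) : ℝ) * ((n : ℝ) * (n - 1))) / (n - 1) / 4 := by
            field_simp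
        _ = _ := by rw [hid]; ring
    calc (∑ S ∈ P, |∑ j ∈ S, a j|) ^ 2
        ≤ (n.choose s : ℝ) * (((n - 2).choose (s - 1) : ℝ) * ∑ i, (a i) ^ 2) := hCS
      _ ≤ (n.choose s : ℝ) * ((n.choose s : ℝ) * (s * t / (n - 1)) / 4) :=
          mul_le_mul_of_nonneg_left h1 (by positivity)
      _ = ((n.choose s : ℝ) * (Real.sqrt (s * t / (n - 1)) / 2)) ^ 2 := by
          rw [mul_pow, div_pow, Real.sq_sqrt (by positivity)]; ring
  have hle := abs_le_of_sq_le_sq' hbound (by positivity)
  have hle2 := hle.2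
  calc (n : ℝ) / (t * s) * ∑ S ∈ P, |∑ j ∈ S, a j|
      ≤ (n : ℝ) / (t * s) * ((n.choose s : ℝ) * (Real.sqrt (s * t / (n - 1)) / 2)) :=
        mul_le_mul_of_nonneg_left hle2 (by positivity)
    _ = (n.choose s : ℝ) * ((n : ℝ) / 2 / Real.sqrt ((s : ℝ) * t * (n - 1))) := by
        have e1 : Real.sqrt (s * t / (n - 1)) = (s * t) / Real.sqrt ((s : ℝ) * t * (n - 1)) := by
          rw [eq_div_iff (by positivity), ← Real.sqrt_mul (by positivity)]
          rw [show (s : ℝ) * t / (n - 1) * (s * t * (n - 1)) = (s * t) ^ 2 by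
            field_simp]
          exact Real.sqrt_sq (by positivity)
        rw [e1]
        field_simp

end Pool.MP_801c1a_co.Sub
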