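import Pool.Agent.Lib_MP_801c1a_co.Flow
import Pool.Agent.Lib_MP_801c1a_co.Disc

/-!
Summation of the uniform flow inequality (helper48).
-/

set_option autoImplicit false

namespace Pool.MP_801c1a_co.Sub
open Finset

/-! ### `∑ 1/√(t(n-t)) ≤ π` -/

theorem arcsin_mid (a b : ℝ) (ha : -1 ≤ a) (hab : a ≤ b) (hb : b ≤ 1) :
    b - a ≤ (Real.arcsin b - Real.arcsin a) * Real.sqrt (1 - ((a + b) / 2) ^ 2) := by
  set x := Real.arcsin a with hx
  set y := Real.arcsin b with hy
  have hsx : Real.sin x = a := Real.sin_arcsin ha (by linarith)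
  have hsy : Real.sin y = b := Real.sin_arcsin (by linarith) hb
  have hxy : x ≤ y := Real.arcsin_le_arcsin hab
  have hx1 : -(Real.pi / 2) ≤ x := Real.neg_pi_div_two_le_arcsin a
  have hy1 : y ≤ Real.pi / 2 := Real.arcsin_le_pi_div_two b
  have hc0 : 0 ≤ Real.cos ((y + x) / 2) := by
    apply Real.cos_nonneg_of_neg_pi_div_two_le_of_le <;> linarith
  have e1 : b - a = 2 * Real.sin ((y - x) / 2) * Real.cos ((y + x) / 2) := by
    rw [← hsx, ← hsy, Real.sin_sub_sin]
  have e2 : b - a ≤ (y - x) * Real.cos ((y + x) / 2) := by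
    rw [e1]
    have := Real.sin_le (x := (y - x) / 2) (by linarith)
    have h2 : 2 * Real.sin ((y - x) / 2) ≤ y - x := by linarith
    exact mul_le_mul_of_nonneg_right h2 hc0
  have e3 : (a + b) / 2 = Real.sin ((y + x) / 2) * Real.cos ((y - x) / 2) := by
    rw [← hsx, ← hsy]
    have h1 : x = (y + x) / 2 - (y - x) / 2 := by ring
    have h2 : y = (y + x) / 2 + (y - x) / 2 := by ring
    rw [show Real.sin x = Real.sin ((y + x) / 2 - (y - x) / 2) by rw [← h1],
      show Real.sin y = Real.sin ((y + x) / 2 + (y - x) / 2) by rw [← h2], Real.sin_sub,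
      Real.sin_add]
    ring
  have e4 : Real.cos ((y + x) / 2) ≤ Real.sqrt (1 - ((a + b) / 2) ^ 2) := by
    apply Real.le_sqrt_of_sq_le
    rw [e3, mul_pow]
    have h1 := Real.sin_sq_add_cos_sq ((y + x) / 2)
    have h2 : Real.cos ((y - x) / 2) ^ 2 ≤ 1 := Real.cos_sq_le_one _
    nlinarith [sq_nonneg (Real.sin ((y + x) / 2))]
  calc b - a ≤ (y - x) * Real.cos ((y + x) / 2) := e2
    _ ≤ (y - x) * Real.sqrt (1 - ((a + b) / 2) ^ 2) :=
      mul_le_mul_of_nonneg_left e4 (by linarith)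

theorem sum_inv_sqrt (n : ℕ) (hn : 1 ≤ n) :
    ∑ s ∈ Ico 1 n, 1 / Real.sqrt ((s : ℝ) * ((n - s : ℕ) : ℝ)) ≤ Real.pi := by
  have hn0 : (0 : ℝ) < n := by exact_mod_cast hn
  set f : ℕ → ℝ := fun s => Real.arcsin ((2 * (s : ℝ) - 1 - n) / n) with hf
  have h1 : ∀ s ∈ Ico 1 n, 1 / Real.sqrt ((s : ℝ) * ((n - s : ℕ) : ℝ)) ≤ f (s + 1) - f s := by
    intro s hs
    rw [mem_Ico] at hs
    have hs1 : (1 : ℝ) ≤ s := by exact_mod_cast hs.1
    have hsn : (s : ℝ) + 1 ≤ n := by exact_mod_cast hs.2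
    rw [Nat.cast_sub hs.2.le]
    have h2 := arcsin_mid ((2 * (s : ℝ) - 1 - n) / n) ((2 * ((s + 1 : ℕ) : ℝ) - 1 - n) / n)
      (by rw [le_div_iff₀ hn0]; linarith)
      (by push_cast; gcongr; linarith)
      (by rw [div_le_one hn0]; push_cast; linarith)
    have e1 : (2 * ((s + 1 : ℕ) : ℝ) - 1 - n) / n - (2 * (s : ℝ) - 1 - n) / n = 2 / n := by
      push_cast; field_simp; ring
    have e2 : 1 - (((2 * (s : ℝ) - 1 - n) / n + (2 * ((s + 1 : ℕ) : ℝ) - 1 - n) / n) / 2) ^ 2 =
        (s * (n - s)) * (2 / n) ^ 2 := by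
      push_cast; field_simp; ring
    rw [e1, e2, Real.sqrt_mul (by nlinarith), Real.sqrt_sq (by positivity)] at h2
    have hpos : 0 < Real.sqrt ((s : ℝ) * (n - s)) := Real.sqrt_pos.2 (by nlinarith)
    rw [div_le_iff₀ hpos]
    have h3 : (2 : ℝ) / n > 0 := by positivity
    have h4 : 1 * ((2 : ℝ) / n) ≤
        ((f (s + 1) - f s) * Real.sqrt ((s : ℝ) * (n - s))) * (2 / n) := by
      rw [one_mul]
      calc (2 : ℝ) / n ≤ _ := h2
        _ = _ := by simp only [hf]; ring
    exact le_of_mul_le_mul_right h4 h3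
  refine (sum_le_sum h1).trans ?_
  rw [sum_Ico_sub f hn]
  have h5 : f n ≤ Real.pi / 2 := Real.arcsin_le_pi_div_two _
  have h6 : -(Real.pi / 2) ≤ f 1 := Real.neg_pi_div_two_le_arcsin _
  linarith

/-! ### The shift of the sums -/

variable {n : ℕ}

/-- the flip as an equivalence -/
def flipE (j : Fin n) : V n ≃ V n where
  toFun x := flip x j
  invFun x := flip x j
  left_inv x := by
    funext i; by_cases h : i = j
    · subst h; simp [flip]
    · simp [flip, h]
  right_inv x := by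
    funext i; by_cases h : i = j
    · subst h; simp [flip]
    · simp [flip, h]

theorem shift (F : V n → Finset (Fin n) → Fin n → ℝ) (s : ℕ) :
    ∑ x : V n, ∑ S ∈ powersetCard (s + 1) (univ : Finset (Fin n)), ∑ j ∈ S,
        F (flip x j) (S.erase j) j =
      ∑ x : V n, ∑ S ∈ powersetCard s (univ : Finset (Fin n)), ∑ j ∈ Sᶜ, F x S j := by
  classical
  have h1 : ∀ x : V n, ∑ S ∈ powersetCard (s + 1) (univ : Finset (Fin n)), ∑ j ∈ S,
        F (flip x j) (S.erase j) j =
      ∑ j, ∑ S ∈ (powersetCard (s + 1) (univ : Finset (Fin n))).filter (fun S => j ∈ S),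
        F (flip x j) (S.erase j) j := by
    intro x
    rw [sum_comm' (s' := fun j => (powersetCard (s + 1) (univ : Finset (Fin n))).filter
      (fun S => j ∈ S)) (t' := univ)]
    intro S j
    simp
  have h2 : ∀ x : V n, ∑ S ∈ powersetCard s (univ : Finset (Fin n)), ∑ j ∈ Sᶜ, F x S j =
      ∑ j, ∑ S ∈ (powersetCard s (univ : Finset (Fin n))).filter (fun S => j ∉ S), F x S j := by
    intro x
    rw [sum_comm' (s' := fun j => (powersetCard s (univ : Finset (Fin n))).filter
      (fun S => j ∉ S)) (t' := univ)]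
    intro S j
    simp
  rw [sum_congr rfl (fun x _ => h1 x), sum_congr rfl (fun x _ => h2 x), sum_comm,
    sum_comm (s := (univ : Finset (V n))) (t := (univ : Finset (Fin n)))]
  refine sum_congr rfl fun j _ => ?_
  have h3 : ∀ x : V n, ∑ S ∈ (powersetCard (s + 1) (univ : Finset (Fin n))).filter
        (fun S => j ∈ S), F (flip x j) (S.erase j) j =
      ∑ S ∈ (powersetCard s (univ : Finset (Fin n))).filter (fun S => j ∉ S),
        F (flip x j) S j := by
    intro x
    refine sum_nbij' (fun S => S.erase j) (fun S => insert j S) ?_ ?_ ?_ ?_ ?_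
    · intro S hS
      simp only [mem_filter, mem_powersetCard, subset_univ, true_and] at hS ⊢
      exact ⟨by rw [card_erase_of_mem hS.2, hS.1]; rfl, notMem_erase _ _⟩
    · intro S hS
      simp only [mem_filter, mem_powersetCard, subset_univ, true_and] at hS ⊢
      exact ⟨by rw [card_insert_of_notMem hS.2, hS.1], mem_insert_self _ _⟩
    · intro S hS
      simp only [mem_filter, mem_powersetCard, subset_univ, true_and] at hS
      exact insert_erase hS.2
    · intro S hS
      simp only [mem_filter, mem_powersetCard, subset_univ, true_and] at hS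
      exact erase_insert hS.2
    · intro S _; rfl
  rw [sum_congr rfl (fun x _ => h3 x)]
  exact Equiv.sum_comp (flipE j) (fun x => ∑ S ∈ (powersetCard s
    (univ : Finset (Fin n))).filter (fun S => j ∉ S), F x S j)

/-- total cost-to-go at level `s` (number of remaining directions) -/
noncomputable def W (g : V n → Fin n → Bool) (s : ℕ) : ℝ :=
  ∑ x : V n, ∑ S ∈ powersetCard s (univ : Finset (Fin n)), ∑ i ∈ Sᶜ, (G g x S (g x i) : ℝ)

theorem W_zero (g : V n → Fin n → Bool) : W g 0 = 0 := by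
  unfold W
  refine sum_eq_zero fun x _ => sum_eq_zero fun S hS => sum_eq_zero fun i _ => ?_
  rw [powersetCard_zero, mem_singleton] at hS
  rw [hS, G_empty]; simp

theorem W_step (g : V n → Fin n → Bool) (hg : ∀ x j, g (flip x j) j = g x j) (s : ℕ)
    (hsn : s + 1 < n) :
    W g (s + 1) / ((n - (s + 1) : ℕ) : ℝ) ≤ W g s / ((s + 1 : ℕ) : ℝ) +
      2 ^ n * ((n.choose (s + 1) : ℝ) *
        ((n : ℝ) / 2 / Real.sqrt (((s + 1 : ℕ) : ℝ) * ((n - (s + 1) : ℕ) : ℝ) * (n - 1)))) := by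
  have ht0 : (0 : ℝ) < ((n - (s + 1) : ℕ) : ℝ) := by exact_mod_cast (by omega : 0 < n - (s + 1))
  have hs0 : (0 : ℝ) < ((s + 1 : ℕ) : ℝ) := by positivity
  have hW : W g s = ∑ x : V n, ∑ S ∈ powersetCard (s + 1) (univ : Finset (Fin n)), ∑ j ∈ S,
      (G g (flip x j) (S.erase j) (g x j) : ℝ) := by
    unfold W
    rw [← shift (fun x S j => (G g x S (g x j) : ℝ)) s]
    simp only [hg]
  rw [hW]
  unfold W
  rw [sum_div, sum_div]
  have hcard : (2 : ℝ) ^ n = ∑ _x : V n, (1 : ℝ) := by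
    rw [sum_const, card_univ, nsmul_eq_mul, mul_one]
    simp
  rw [hcard, sum_mul, ← sum_add_distrib]
  refine sum_le_sum fun x _ => ?_
  rw [one_mul]
  have h1 := disc_bound (n := n) (s + 1) (by omega) hsn (R g x)
  refine le_trans ?_ (add_le_add_right h1 _)
  rw [sum_div, sum_div, ← sum_add_distrib]
  refine sum_le_sum fun S hS => ?_
  have hSc : S.card = s + 1 := (mem_powersetCard.1 hS).2
  have hScc : (Sᶜ).card = n - (s + 1) := by rw [card_compl, Fintype.card_fin, hSc]
  exact local_ineq g x S _ _ (by rw [hScc]) (by rw [hSc]) ht0 hs0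

theorem choose_shift (s : ℕ) :
    (n.choose (s + 1) : ℝ) * ((s + 1 : ℕ) : ℝ) = (n.choose s : ℝ) * ((n - s : ℕ) : ℝ) := by
  have := Nat.choose_succ_right_eq n s
  exact_mod_cast this

/-- normalised level average -/
theorem level_bound (g : V n → Fin n → Bool) (hg : ∀ x j, g (flip x j) j = g x j) (s : ℕ)
    (hsn : s < n) :
    W g s / (2 ^ n * (n.choose s : ℝ) * ((n - s : ℕ) : ℝ)) ≤
      ∑ r ∈ Ico 1 (s + 1), (n : ℝ) / 2 /
        Real.sqrt ((r : ℝ) * ((n - r : ℕ) : ℝ) * (n - 1)) := by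
  induction s with
  | zero => rw [W_zero]; simp
  | succ s ih =>
    have ih' := ih (by omega)
    rw [sum_Ico_succ_top (by omega)]
    have ht0 : (0 : ℝ) < ((n - (s + 1) : ℕ) : ℝ) := by
      exact_mod_cast (by omega : 0 < n - (s + 1))
    have hC : (0 : ℝ) < (n.choose (s + 1) : ℝ) := by
      exact_mod_cast Nat.choose_pos (by omega)
    have hC' : (0 : ℝ) < (n.choose s : ℝ) := by
      exact_mod_cast Nat.choose_pos (by omega)
    have hns : (0 : ℝ) < ((n - s : ℕ) : ℝ) := by exact_mod_cast (by omega : 0 < n - s)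
    have h1 := W_step g hg s hsn
    have h2 := choose_shift (n := n) s
    have hp : (0 : ℝ) < 2 ^ n := by positivity
    have e1 : W g (s + 1) / (2 ^ n * (n.choose (s + 1) : ℝ) * ((n - (s + 1) : ℕ) : ℝ)) =
        (W g (s + 1) / ((n - (s + 1) : ℕ) : ℝ)) / (2 ^ n * (n.choose (s + 1) : ℝ)) := by
      field_simp
    have e2 : W g s / (2 ^ n * (n.choose s : ℝ) * ((n - s : ℕ) : ℝ)) =
        (W g s / ((s + 1 : ℕ) : ℝ)) / (2 ^ n * (n.choose (s + 1) : ℝ)) := by
      rw [div_div, mul_assoc, ← h2]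
      congr 1; ring
    rw [e1]
    rw [e2] at ih'
    calc _ ≤ (W g s / ((s + 1 : ℕ) : ℝ) + 2 ^ n * ((n.choose (s + 1) : ℝ) *
        ((n : ℝ) / 2 / Real.sqrt (((s + 1 : ℕ) : ℝ) * ((n - (s + 1) : ℕ) : ℝ) * (n - 1))))) /
          (2 ^ n * (n.choose (s + 1) : ℝ)) := div_le_div_of_nonneg_right h1 (by positivity)
      _ = (W g s / ((s + 1 : ℕ) : ℝ)) / (2 ^ n * (n.choose (s + 1) : ℝ)) +
          (n : ℝ) / 2 / Real.sqrt (((s + 1 : ℕ) : ℝ) * ((n - (s + 1) : ℕ) : ℝ) * (n - 1)) := by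
          rw [add_div]; congr 1
          rw [← mul_assoc, mul_div_assoc, mul_comm]
          field_simp
      _ ≤ _ := add_le_add_left ih' _

theorem avg_cost_le (g : V n → Fin n → Bool) (hg : ∀ x j, g (flip x j) j = g x j)
    (hn : 2 ≤ n) :
    (∑ x : V n, (cost g x (fun _ => true) : ℝ)) / 2 ^ n ≤
      Real.pi / 2 * n / Real.sqrt (n - 1) := by
  classical
  have hn0 : (0 : ℝ) < n := by exact_mod_cast (by omega : 0 < n)
  have hn1 : (0 : ℝ) < (n : ℝ) - 1 := by
    have : (1 : ℝ) < n := by exact_mod_cast (by omega : 1 < n)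
    linarith
  have h1 := level_bound g hg (n - 1) (by omega)
  have e1 : n.choose (n - 1) = n := by
    obtain ⟨m, rfl⟩ : ∃ m, n = m + 1 := ⟨n - 1, by omega⟩
    simp
  have e2 : n - (n - 1) = 1 := by omega
  have e3 : n - 1 + 1 = n := by omega
  rw [e1, e2, e3] at h1
  -- W g (n-1) dominates n times the total cost
  have h2 : (n : ℝ) * ∑ x : V n, (cost g x (fun _ => true) : ℝ) ≤ W g (n - 1) := by
    have hW : W g (n - 1) = ∑ x : V n, ∑ S ∈ powersetCard (n - 1 + 1) (univ : Finset (Fin n)),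
        ∑ j ∈ S, (G g (flip x j) (S.erase j) (g x j) : ℝ) := by
      unfold W
      rw [← shift (fun x S j => (G g x S (g x j) : ℝ)) (n - 1)]
      simp only [hg]
    rw [hW, e3, mul_sum]
    refine sum_le_sum fun x _ => ?_
    have e4 : powersetCard n (univ : Finset (Fin n)) = {univ} := by
      have := powersetCard_self (univ : Finset (Fin n))
      rwa [card_univ, Fintype.card_fin] at this
    rw [e4, sum_singleton]
    calc (n : ℝ) * (cost g x (fun _ => true) : ℝ)
        = ∑ _j : Fin n, (cost g x (fun _ => true) : ℝ) := by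
          rw [sum_const, card_univ, Fintype.card_fin, nsmul_eq_mul]
      _ ≤ _ := sum_le_sum fun j _ => by exact_mod_cast cost_le_G g x j
  have h3 : (∑ x : V n, (cost g x (fun _ => true) : ℝ)) / 2 ^ n ≤
      W g (n - 1) / (2 ^ n * (n : ℝ) * ((1 : ℕ) : ℝ)) := by
    rw [div_le_div_iff₀ (by positivity) (by positivity)]
    have : (0 : ℝ) < 2 ^ n := by positivity
    push_cast
    nlinarith
  refine h3.trans (h1.trans ?_)
  have h4 : ∀ r ∈ Ico 1 n, (n : ℝ) / 2 / Real.sqrt ((r : ℝ) * ((n - r : ℕ) : ℝ) * (n - 1)) =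
      (n : ℝ) / 2 / Real.sqrt (n - 1) * (1 / Real.sqrt ((r : ℝ) * ((n - r : ℕ) : ℝ))) := by
    intro r _
    rw [Real.sqrt_mul (by positivity)]
    rw [div_mul_div_comm, mul_one, div_div, div_div]
    congr 1
    ring
  rw [sum_congr rfl h4, ← mul_sum]
  calc _ ≤ (n : ℝ) / 2 / Real.sqrt (n - 1) * Real.pi :=
        mul_le_mul_of_nonneg_left (sum_inv_sqrt n (by omega)) (by positivity)
    _ = _ := by ring

end Pool.MP_801c1a_co.Sub
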