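import Pool.Agent.Lib_MP_801c1a_co.Defs

/-! Piece Prod: sums over product weights. -/

set_option autoImplicit false

namespace Pool.MP_801c1a_co.Sub
open Finset

theorem sum_push {n : ℕ} {A B : Type} [Fintype A] [Fintype B] [DecidableEq A] [DecidableEq B]
    (w : Fin n → A → ℝ) (f : Fin n → A → B) (F : (Fin n → B) → ℝ) :
    ∑ a : Fin n → A, (∏ m, w m (a m)) * F (fun m => f m (a m))
      = ∑ b : Fin n → B, (∏ m, ∑ a ∈ univ.filter (fun a => f m a = b m), w m a) * F b := by
  classical
  have h1 : ∀ b : Fin n → B, (∏ m, ∑ a ∈ univ.filter (fun a => f m a = b m), w m a) * F b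
      = ∑ a ∈ univ.filter (fun a : Fin n → A => (fun m => f m (a m)) = b),
          (∏ m, w m (a m)) * F (fun m => f m (a m)) := by
    intro b
    rw [Finset.prod_univ_sum, Finset.sum_mul]
    have h2 : Fintype.piFinset (fun m => univ.filter (fun a => f m a = b m))
        = univ.filter (fun a : Fin n → A => (fun m => f m (a m)) = b) := by
      ext a
      simp only [Fintype.mem_piFinset, mem_filter, mem_univ, true_and]
      exact ⟨fun h => funext h, fun h m => congrFun h m⟩
    rw [h2]
    refine Finset.sum_congr rfl fun a ha => ?_
    rw [(mem_filter.1 ha).2]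
  rw [Finset.sum_congr rfl (fun b _ => h1 b)]
  exact (Finset.sum_fiberwise _ _ _).symm

theorem sum_prod_eq {n : ℕ} {A : Type} [Fintype A] [DecidableEq A] (w : Fin n → A → ℝ) :
    ∑ a : Fin n → A, ∏ m, w m (a m) = ∏ m, ∑ a, w m a := by
  rw [Finset.prod_univ_sum, Fintype.piFinset_univ]

theorem sum_bern (p : ℝ) : ∑ b : Bool, bern p b = 1 := by
  simp [bern]

theorem sum_prod_bern {n : ℕ} (p : ℝ) : ∑ S : V n, ∏ m, bern p (S m) = 1 := by
  have h := sum_prod_eq (n := n) (fun _ b => bern p b)
  simp only [sum_bern, Finset.prod_const_one] at h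
  exact h

theorem sum_mu_ne {R : ℕ} (hR : 0 < R) (p : ℝ) :
    ∑ b ∈ univ.filter (fun b : Fin (R + 1) => b ≠ Fin.last R), mu p R b = p := by
  have h1 : ∀ b ∈ univ.filter (fun b : Fin (R + 1) => b ≠ Fin.last R), mu p R b = p / R := by
    intro b hb
    rw [mem_filter] at hb
    simp [mu, hb.2]
  rw [Finset.sum_congr rfl h1, Finset.sum_const, Finset.filter_ne', Finset.card_erase_of_mem
    (mem_univ _), Finset.card_univ, Fintype.card_fin, Nat.add_sub_cancel, nsmul_eq_mul]
  field_simp

theorem sum_mu_eq {R : ℕ} (p : ℝ) :
    ∑ b ∈ univ.filter (fun b : Fin (R + 1) => b = Fin.last R), mu p R b = 1 - p := by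
  rw [Finset.filter_eq']
  simp [mu]

theorem sum_mu {R : ℕ} (hR : 0 < R) (p : ℝ) : ∑ b : Fin (R + 1), mu p R b = 1 := by
  rw [← Finset.sum_filter_add_sum_filter_not univ (fun b : Fin (R + 1) => b = Fin.last R),
    sum_mu_eq, sum_mu_ne hR]
  ring

theorem sum_prod_mu {n R : ℕ} (hR : 0 < R) (p : ℝ) :
    ∑ lam : Fin n → Fin (R + 1), ∏ m, mu p R (lam m) = 1 := by
  have h := sum_prod_eq (n := n) (fun _ b => mu p R b)
  simp only [sum_mu hR, Finset.prod_const_one] at h
  exact h

/-- the support of a random labelling is a Bernoulli set -/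
theorem sum_supp {n R : ℕ} (hR : 0 < R) (p : ℝ) (F : V n → ℝ) :
    ∑ lam : Fin n → Fin (R + 1), (∏ m, mu p R (lam m)) * F (supp lam)
      = ∑ S : V n, (∏ m, bern p (S m)) * F S := by
  have h := sum_push (n := n) (fun _ b => mu p R b)
    (fun _ (b : Fin (R + 1)) => decide (b ≠ Fin.last R)) F
  have h2 : ∀ b : Bool, ∑ a ∈ univ.filter (fun a : Fin (R + 1) => decide (a ≠ Fin.last R) = b),
      mu p R a = bern p b := by
    intro b
    cases b
    · simp only [decide_eq_false_iff_not, not_not]
      rw [sum_mu_eq]
      rfl
    · simp only [decide_eq_true_eq]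
      rw [sum_mu_ne hR]
      rfl
  simp only [h2] at h
  exact h

theorem sum_pow_supp {n R : ℕ} (hR : 0 < R) (p q : ℝ) (hq : q < 1) :
    ∑ lam : Fin n → Fin (R + 1), (∏ m, mu p R (lam m)) *
        ((1 - q)⁻¹) ^ (univ.filter (fun m => supp lam m = true)).card
      = (1 - p + p * (1 - q)⁻¹) ^ n := by
  rw [sum_supp hR p (fun S => ((1 - q)⁻¹) ^ (univ.filter (fun m => S m = true)).card)]
  have h1 : ∀ S : V n, (∏ m, bern p (S m)) *
      ((1 - q)⁻¹) ^ (univ.filter (fun m => S m = true)).card
      = ∏ m, (fun b : Bool => bern p b * (if b = true then (1 - q)⁻¹ else 1)) (S m) := by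
    intro S
    rw [Finset.prod_mul_distrib]
    congr 1
    rw [Finset.prod_ite]
    simp
  simp only [h1]
  rw [sum_prod_eq (n := n) (fun _ b => bern p b * (if b = true then (1 - q)⁻¹ else 1))]
  simp only [Fintype.sum_bool, bern]
  rw [Finset.prod_const, Finset.card_univ, Fintype.card_fin]
  congr 1
  simp
  ring

/-- sum over the cube as a sum over pairs in direction `l` -/
theorem two_mul_sum {n : ℕ} (l : Fin n) (G : V n → ℝ) :
    2 * ∑ W : V n, G W
      = ∑ W : V n, (G (Function.update W l true) + G (Function.update W l false)) := by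
  classical
  have hinv : ∀ W : V n, flip (flip W l) l = W := by
    intro W
    funext m
    unfold flip
    by_cases hm : m = l
    · subst hm
      simp
    · simp [hm]
  let e : V n ≃ V n := ⟨fun W => flip W l, fun W => flip W l, hinv, hinv⟩
  have h1 : ∑ W : V n, G (flip W l) = ∑ W : V n, G W := Equiv.sum_comp e G
  have h2 : ∀ W : V n, G (Function.update W l true) + G (Function.update W l false)
      = G W + G (flip W l) := by
    intro W
    unfold flip
    cases hW : W l with
    | true =>
      have : Function.update W l true = W := by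
        rw [← hW]
        exact Function.update_eq_self l W
      rw [this]
      simp
    | false =>
      have : Function.update W l false = W := by
        rw [← hW]
        exact Function.update_eq_self l W
      rw [this]
      simp [add_comm]
  simp only [h2]
  rw [Finset.sum_add_distrib, h1]
  ring

theorem sum_prod_erase {n : ℕ} (l : Fin n) (v : Fin n → Bool → ℝ) :
    ∑ W : V n, ∏ m ∈ univ.erase l, v m (W m) = 2 * ∏ m ∈ univ.erase l, ∑ b, v m b := by
  classical
  have h1 : ∀ W : V n, ∏ m ∈ univ.erase l, v m (W m)
      = ∏ m, (Function.update v l (fun _ => (1 : ℝ))) m (W m) := by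
    intro W
    rw [← Finset.mul_prod_erase univ _ (mem_univ l)]
    simp only [Function.update_self, one_mul]
    refine Finset.prod_congr rfl fun m hm => ?_
    rw [Function.update_of_ne (Finset.ne_of_mem_erase hm)]
  simp only [h1]
  rw [sum_prod_eq (n := n) (Function.update v l (fun _ => (1 : ℝ))),
    ← Finset.mul_prod_erase univ _ (mem_univ l)]
  simp only [Function.update_self]
  congr 1
  · simp
  · refine Finset.prod_congr rfl fun m hm => ?_
    rw [Function.update_of_ne (Finset.ne_of_mem_erase hm)]

theorem prod_update_val {n : ℕ} (l : Fin n) (v : Fin n → Bool → ℝ) (W : V n) (b : Bool) :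
    ∏ m, v m (Function.update W l b m) = v l b * ∏ m ∈ univ.erase l, v m (W m) := by
  classical
  rw [← Finset.mul_prod_erase univ _ (mem_univ l)]
  simp only [Function.update_self]
  congr 1
  refine Finset.prod_congr rfl fun m hm => ?_
  rw [Function.update_of_ne (Finset.ne_of_mem_erase hm)]

/-- replace the weights of one coordinate -/
theorem replace_one {n : ℕ} (l : Fin n) (v v' : Fin n → Bool → ℝ) (hv : ∀ m b, 0 ≤ v m b)
    (hvv : ∀ m, m ≠ l → v' m = v m) (e : ℝ) (F : V n → ℝ)
    (h : ∀ W, v l true * F (Function.update W l true) + v l false * F (Function.update W l false)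
      ≤ v' l true * F (Function.update W l true) + v' l false * F (Function.update W l false)
        + e) :
    ∑ W : V n, (∏ m, v m (W m)) * F W
      ≤ (∑ W : V n, (∏ m, v' m (W m)) * F W) + e * ∏ m ∈ univ.erase l, ∑ b, v m b := by
  classical
  have h1 := two_mul_sum l (fun W => (∏ m, v m (W m)) * F W)
  have h2 := two_mul_sum l (fun W => (∏ m, v' m (W m)) * F W)
  simp only [prod_update_val] at h1 h2
  have h3 : ∀ W : V n, ∏ m ∈ univ.erase l, v' m (W m) = ∏ m ∈ univ.erase l, v m (W m) := by
    intro W
    refine Finset.prod_congr rfl fun m hm => ?_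
    rw [hvv m (Finset.ne_of_mem_erase hm)]
  simp only [h3] at h2
  have h4 : ∑ W : V n, (v l true * (∏ m ∈ univ.erase l, v m (W m)) *
        F (Function.update W l true)
        + v l false * (∏ m ∈ univ.erase l, v m (W m)) * F (Function.update W l false))
      ≤ ∑ W : V n, ((v' l true * (∏ m ∈ univ.erase l, v m (W m)) *
        F (Function.update W l true)
        + v' l false * (∏ m ∈ univ.erase l, v m (W m)) * F (Function.update W l false))
        + e * ∏ m ∈ univ.erase l, v m (W m)) := by
    refine Finset.sum_le_sum fun W _ => ?_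
    have h5 : 0 ≤ ∏ m ∈ univ.erase l, v m (W m) := Finset.prod_nonneg fun m _ => hv m _
    have h6 := mul_le_mul_of_nonneg_right (h W) h5
    linarith
  have h5 : ∑ W : V n, ((v' l true * (∏ m ∈ univ.erase l, v m (W m)) *
        F (Function.update W l true)
        + v' l false * (∏ m ∈ univ.erase l, v m (W m)) * F (Function.update W l false))
        + e * ∏ m ∈ univ.erase l, v m (W m))
      = ∑ W : V n, (v' l true * (∏ m ∈ univ.erase l, v m (W m)) *
        F (Function.update W l true)
        + v' l false * (∏ m ∈ univ.erase l, v m (W m)) * F (Function.update W l false))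
        + e * (2 * ∏ m ∈ univ.erase l, ∑ b, v m b) := by
    rw [Finset.sum_add_distrib, ← Finset.mul_sum, sum_prod_erase]
  rw [h5] at h4
  linarith

/-- replacement of general two-point weights by Bernoulli weights -/
theorem replacement (n : ℕ) (u : Fin n → Bool → ℝ) (K : Fin n → ℝ) (q δ : ℝ)
    (hu : ∀ m b, 0 ≤ u m b) (hK : ∀ m, 1 ≤ K m) (hq0 : 0 ≤ q) (hq1 : q ≤ 1) (hδ : 0 ≤ δ)
    (h : ∀ m, ∀ H0 H1 : ℝ, 0 ≤ H0 → 0 ≤ H1 → H1 ≤ H0 + 1 →
      u m true * H1 + u m false * H0
        ≤ (u m true + u m false) * K m * (q * H1 + (1 - q) * H0 + δ))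
    (F : V n → ℝ) (hF0 : ∀ W, 0 ≤ F W)
    (hF : ∀ W l, F (Function.update W l true) ≤ F (Function.update W l false) + 1) :
    ∑ W : V n, (∏ m, u m (W m)) * F W
      ≤ (∏ m, (u m true + u m false)) * (∏ m, K m) *
          ((∑ W : V n, (∏ m, bern q (W m)) * F W) + n * δ) := by
  classical
  have hb : ∀ b, 0 ≤ bern q b := by
    intro b
    cases b
    · simp only [bern]
      linarith
    · simpa only [bern] using hq0
  have hU : ∀ m, 0 ≤ (u m true + u m false) * K m := fun m =>
    mul_nonneg (add_nonneg (hu m _) (hu m _)) (by linarith [hK m])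
  have key : ∀ k : ℕ, k ≤ n →
      ∑ W : V n, (∏ m, u m (W m)) * F W
        ≤ (∑ W : V n, (∏ m : Fin n, (if m.val < k then
            (u m true + u m false) * K m * bern q (W m) else u m (W m))) * F W)
          + k * (δ * ∏ m, ((u m true + u m false) * K m)) := by
    intro k
    induction k with
    | zero =>
      intro _
      simp
    | succ k ih =>
      intro hk
      have hkn : k < n := hk
      refine (ih (by omega)).trans ?_
      set l : Fin n := ⟨k, hkn⟩ with hl
      have hone := replace_one l
        (fun m b => if m.val < k then (u m true + u m false) * K m * bern q b else u m b)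
        (fun m b => if m.val < k + 1 then (u m true + u m false) * K m * bern q b else u m b)
        (by
          intro m b
          split_ifs
          · exact mul_nonneg (hU m) (hb b)
          · exact hu m b)
        (by
          intro m hm
          funext b
          have hne : m.val ≠ k := fun h => hm (Fin.ext h)
          by_cases h1 : m.val < k
          · simp [h1, Nat.lt_succ_of_lt h1]
          · have h2 : ¬ m.val < k + 1 := by omega
            simp [h1, h2])
        ((u l true + u l false) * K l * δ) F
        (by
          intro W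
          have h1 : ¬ l.val < k := by simp [hl]
          have h2 : l.val < k + 1 := by simp [hl]
          simp only [if_neg h1, if_pos h2, bern]
          have := h l (F (Function.update W l false)) (F (Function.update W l true))
            (hF0 _) (hF0 _) (hF W l)
          linarith)
      refine (add_le_add_left hone _).trans ?_
      have herr : (u l true + u l false) * K l * δ *
          ∏ m ∈ univ.erase l, ∑ b : Bool, (if m.val < k then
            (u m true + u m false) * K m * bern q b else u m b)
          ≤ δ * ∏ m, ((u m true + u m false) * K m) := by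
        rw [← Finset.mul_prod_erase univ (fun m => (u m true + u m false) * K m) (mem_univ l)]
        have h3 : ∏ m ∈ univ.erase l, ∑ b : Bool, (if m.val < k then
            (u m true + u m false) * K m * bern q b else u m b)
            ≤ ∏ m ∈ univ.erase l, ((u m true + u m false) * K m) := by
          refine Finset.prod_le_prod ?_ ?_
          · intro m _
            refine Finset.sum_nonneg fun b _ => ?_
            split_ifs
            · exact mul_nonneg (hU m) (hb b)
            · exact hu m b
          · intro m _
            by_cases h1 : m.val < k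
            · simp only [if_pos h1]
              rw [← Finset.mul_sum, sum_bern, mul_one]
            · simp only [if_neg h1, Fintype.sum_bool]
              have := add_nonneg (hu m true) (hu m false)
              nlinarith [hK m]
        have h4 : 0 ≤ (u l true + u l false) * K l * δ := mul_nonneg (hU l) hδ
        calc _ ≤ (u l true + u l false) * K l * δ *
              ∏ m ∈ univ.erase l, ((u m true + u m false) * K m) :=
              mul_le_mul_of_nonneg_left h3 h4
          _ = _ := by ring
      push_cast
      linarith
  have hfin := key n le_rfl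
  refine hfin.trans (le_of_eq ?_)
  have h1 : ∀ W : V n, (∏ m : Fin n, (if m.val < n then
      (u m true + u m false) * K m * bern q (W m) else u m (W m)))
      = (∏ m, ((u m true + u m false) * K m)) * ∏ m, bern q (W m) := by
    intro W
    rw [← Finset.prod_mul_distrib]
    refine Finset.prod_congr rfl fun m _ => ?_
    rw [if_pos m.2]
  simp only [h1]
  rw [← Finset.prod_mul_distrib]
  rw [mul_add, Finset.mul_sum]
  congr 1
  · refine Finset.sum_congr rfl fun W _ => ?_
    ring
  · ring

end Pool.MP_801c1a_co.Sub
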