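import Pool.Agent.Lib_MP_801c1a_co.Defs
import Pool.Agent.Lib_MP_801c1a_co.Prod

set_option autoImplicit false

namespace Pool.MP_801c1a_co.Sub
open Finset

/-! ### Elementary facts on flips and times -/

theorem flip_flip {n : ℕ} (z : V n) (m : Fin n) : flip (flip z m) m = z := by
  unfold flip
  funext k
  by_cases hk : k = m
  · subst hk; simp
  · simp [Function.update_of_ne hk]

/-- flipping a coordinate as a permutation of the vertices -/
def flipEquiv {n : ℕ} (m : Fin n) : Equiv.Perm (V n) :=
  ⟨fun z => flip z m, fun z => flip z m, fun z => flip_flip z m, fun z => flip_flip z m⟩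

theorem sum_flip {n : ℕ} (m : Fin n) (F : V n → ℝ) : ∑ z, F (flip z m) = ∑ z, F z :=
  Equiv.sum_comp (flipEquiv m) F

theorem dir_val {n : ℕ} [NeZero n] (t : ℕ) : (dir n t).val = t % n := by
  simp [dir]

theorem dir_eq_iff {n : ℕ} [NeZero n] (t : ℕ) (l : Fin n) : dir n t = l ↔ t % n = l.val := by
  rw [Fin.ext_iff, dir_val]

theorem npos {n : ℕ} [NeZero n] : 0 < n := Nat.pos_of_ne_zero (NeZero.ne n)

/-! ### The averaging operator -/

/-- one fair coin decides whether the step at time `t` is made -/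
noncomputable def Pop {n R : ℕ} [NeZero n] (g : V n → Fin n → Bool) (tau : Fin n → Fin (R + 1))
    (t : ℕ) (F : V n → ℝ) (z : V n) : ℝ :=
  if (tau (dir n t)).val = t / n ∧ g z (dir n t) = col (t / n)
    then (F z + F (flip z (dir n t))) / 2 else F z

theorem Pop_selfadj {n R : ℕ} [NeZero n] (g : V n → Fin n → Bool)
    (hg : ∀ z m, g (flip z m) m = g z m) (tau : Fin n → Fin (R + 1)) (t : ℕ) (A B : V n → ℝ) :
    ∑ z, A z * Pop g tau t B z = ∑ z, Pop g tau t A z * B z := by
  have key := sum_flip (dir n t) (fun z =>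
    if (tau (dir n t)).val = t / n ∧ g z (dir n t) = col (t / n)
      then A z * B (flip z (dir n t)) else 0)
  simp only [hg, flip_flip] at key
  rw [← sub_eq_zero, ← Finset.sum_sub_distrib]
  rw [← sub_eq_zero, ← Finset.sum_sub_distrib] at key
  have : ∀ z, A z * Pop g tau t B z - Pop g tau t A z * B z =
      -(1 / 2) * ((if (tau (dir n t)).val = t / n ∧ g z (dir n t) = col (t / n)
        then A (flip z (dir n t)) * B z else 0) -
       (if (tau (dir n t)).val = t / n ∧ g z (dir n t) = col (t / n)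
        then A z * B (flip z (dir n t)) else 0)) := by
    intro z
    unfold Pop
    split_ifs <;> ring
  rw [Finset.sum_congr rfl (fun z _ => this z), ← Finset.mul_sum, key, mul_zero]

theorem cosh_sq_bound (a b s : ℝ) (h : (a - b) ^ 2 ≤ s ^ 2) :
    (Real.exp a ^ 2 + Real.exp b ^ 2) * (Real.exp (-a) ^ 2 + Real.exp (-b) ^ 2)
      ≤ 4 * Real.exp (s ^ 2) := by
  have h1 : (Real.exp a ^ 2 + Real.exp b ^ 2) * (Real.exp (-a) ^ 2 + Real.exp (-b) ^ 2)
      = 4 * Real.cosh (a - b) ^ 2 := by
    rw [Real.cosh_eq]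
    have e1 : Real.exp a * Real.exp (-a) = 1 := by rw [← Real.exp_add]; simp
    have e2 : Real.exp b * Real.exp (-b) = 1 := by rw [← Real.exp_add]; simp
    have e3 : Real.exp (a - b) = Real.exp a * Real.exp (-b) := by
      rw [← Real.exp_add, sub_eq_add_neg]
    have e4 : Real.exp (-(a - b)) = Real.exp b * Real.exp (-a) := by
      rw [← Real.exp_add]; congr 1; ring
    rw [e3, e4]
    have : (Real.exp a ^ 2 + Real.exp b ^ 2) * (Real.exp (-a) ^ 2 + Real.exp (-b) ^ 2) =
      (Real.exp a * Real.exp (-a)) ^ 2 + (Real.exp b * Real.exp (-b)) ^ 2 +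
      (Real.exp a * Real.exp (-b)) ^ 2 + (Real.exp b * Real.exp (-a)) ^ 2 := by ring
    rw [this, e1, e2]
    have h5 : Real.exp a * Real.exp (-b) * (Real.exp b * Real.exp (-a)) = 1 := by
      have : Real.exp a * Real.exp (-b) * (Real.exp b * Real.exp (-a)) =
        (Real.exp a * Real.exp (-a)) * (Real.exp b * Real.exp (-b)) := by ring
      rw [this, e1, e2]; norm_num
    nlinarith [h5]
  rw [h1]
  have h2 : Real.cosh (a - b) ≤ Real.exp ((a - b) ^ 2 / 2) := Real.cosh_le_exp_half_sq _
  have h3 : 0 < Real.cosh (a - b) := Real.cosh_pos _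
  have h4 : Real.cosh (a - b) ^ 2 ≤ Real.exp ((a - b) ^ 2 / 2) ^ 2 :=
    pow_le_pow_left₀ h3.le h2 2
  have h5 : Real.exp ((a - b) ^ 2 / 2) ^ 2 = Real.exp ((a - b) ^ 2) := by
    rw [← Real.exp_nat_mul]; congr 1; push_cast; ring
  have h6 : Real.exp ((a - b) ^ 2) ≤ Real.exp (s ^ 2) := Real.exp_le_exp.mpr h
  linarith [h5 ▸ h4]

/-- the two-point inequality -/
theorem two_point (a b s x y : ℝ) (h : (a - b) ^ 2 ≤ s ^ 2) :
    (Real.exp a * ((x + y) / 2)) ^ 2 + (Real.exp b * ((x + y) / 2)) ^ 2
      ≤ Real.exp (s ^ 2) * ((Real.exp a * x) ^ 2 + (Real.exp b * y) ^ 2) := by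
  have hc := cosh_sq_bound a b s h
  have cs : (x + y) ^ 2 ≤ (Real.exp (-a) ^ 2 + Real.exp (-b) ^ 2) *
      ((Real.exp a * x) ^ 2 + (Real.exp b * y) ^ 2) := by
    have e1 : Real.exp (-a) * (Real.exp a * x) = x := by
      rw [← mul_assoc, ← Real.exp_add]; simp
    have e2 : Real.exp (-b) * (Real.exp b * y) = y := by
      rw [← mul_assoc, ← Real.exp_add]; simp
    nlinarith [sq_nonneg (Real.exp (-a) * (Real.exp b * y) - Real.exp (-b) * (Real.exp a * x)),
      e1, e2, congrArg₂ (· * ·) e1 e2, congrArg (· ^ 2) e1, congrArg (· ^ 2) e2]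
  have hS : 0 ≤ (Real.exp a * x) ^ 2 + (Real.exp b * y) ^ 2 := by positivity
  have hE : 0 ≤ Real.exp a ^ 2 + Real.exp b ^ 2 := by positivity
  calc (Real.exp a * ((x + y) / 2)) ^ 2 + (Real.exp b * ((x + y) / 2)) ^ 2
      = (Real.exp a ^ 2 + Real.exp b ^ 2) * (x + y) ^ 2 / 4 := by ring
    _ ≤ (Real.exp a ^ 2 + Real.exp b ^ 2) * ((Real.exp (-a) ^ 2 + Real.exp (-b) ^ 2) *
      ((Real.exp a * x) ^ 2 + (Real.exp b * y) ^ 2)) / 4 := by
        have := mul_le_mul_of_nonneg_left cs hE
        linarith
    _ = ((Real.exp a ^ 2 + Real.exp b ^ 2) * (Real.exp (-a) ^ 2 + Real.exp (-b) ^ 2)) *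
      ((Real.exp a * x) ^ 2 + (Real.exp b * y) ^ 2) / 4 := by ring
    _ ≤ (4 * Real.exp (s ^ 2)) * ((Real.exp a * x) ^ 2 + (Real.exp b * y) ^ 2) / 4 := by
        have := mul_le_mul_of_nonneg_right hc hS
        linarith
    _ = _ := by ring

/-- norm bound of the averaging operator with a potential -/
theorem Pop_norm {n R : ℕ} [NeZero n] (g : V n → Fin n → Bool)
    (hg : ∀ z m, g (flip z m) m = g z m) (tau : Fin n → Fin (R + 1)) (t : ℕ) (A psi : V n → ℝ)
    (s : ℝ) (hpsi : ∀ z z', (psi z - psi z') ^ 2 ≤ s ^ 2) :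
    ∑ z, (Real.exp (psi z) * Pop g tau t A z) ^ 2
      ≤ Real.exp (s ^ 2) * ∑ z, (Real.exp (psi z) * A z) ^ 2 := by
  have e1 := sum_flip (dir n t) (fun z => (Real.exp (psi z) * Pop g tau t A z) ^ 2)
  have e2 := sum_flip (dir n t) (fun z => (Real.exp (psi z) * A z) ^ 2)
  have hmain : ∀ z, (Real.exp (psi z) * Pop g tau t A z) ^ 2 +
      (Real.exp (psi (flip z (dir n t))) * Pop g tau t A (flip z (dir n t))) ^ 2 ≤
      Real.exp (s ^ 2) * ((Real.exp (psi z) * A z) ^ 2 +
        (Real.exp (psi (flip z (dir n t))) * A (flip z (dir n t))) ^ 2) := by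
    intro z
    unfold Pop
    rw [hg, flip_flip]
    by_cases hM : (tau (dir n t)).val = t / n ∧ g z (dir n t) = col (t / n)
    · rw [if_pos hM, if_pos hM]
      have := two_point (psi z) (psi (flip z (dir n t))) s (A z) (A (flip z (dir n t)))
        (hpsi _ _)
      rw [add_comm (A (flip z (dir n t))) (A z)]
      exact this
    · rw [if_neg hM, if_neg hM]
      have h0 : 0 ≤ (Real.exp (psi z) * A z) ^ 2 +
        (Real.exp (psi (flip z (dir n t))) * A (flip z (dir n t))) ^ 2 := by positivity
      have h1 : 1 ≤ Real.exp (s ^ 2) := Real.one_le_exp (sq_nonneg s)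
      nlinarith [mul_le_mul_of_nonneg_right h1 h0]
  have hsum := Finset.sum_le_sum (fun z (_ : z ∈ (univ : Finset (V n))) => hmain z)
  rw [Finset.sum_add_distrib, ← Finset.mul_sum, Finset.sum_add_distrib] at hsum
  simp only [e1, e2] at hsum
  have e1' : ∑ x : V n, (Real.exp (psi (flip x (dir n t))) * Pop g tau t A (flip x (dir n t))) ^ 2
    = ∑ z, (Real.exp (psi z) * Pop g tau t A z) ^ 2 := e1
  have e2' : ∑ x : V n, (Real.exp (psi (flip x (dir n t))) * A (flip x (dir n t))) ^ 2
    = ∑ z, (Real.exp (psi z) * A z) ^ 2 := e2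
  linarith

/-! ### The coins -/

/-- keep the label `tau m` if the coin of `m` is `true` -/
def thin {n R : ℕ} (tau : Fin n → Fin (R + 1)) (xi : V n) : Fin n → Fin (R + 1) :=
  fun m => if xi m = true then tau m else Fin.last R

theorem phase_lt {n R : ℕ} [NeZero n] {t : ℕ} (ht : t < R * n) : t / n < R := by
  rw [Nat.div_lt_iff_lt_mul npos]; exact ht

theorem pos_congr {n R : ℕ} [NeZero n] (g : V n → Fin n → Bool) (lam lam' : Fin n → Fin (R + 1))
    (x : V n) (t : ℕ)
    (h : ∀ s < t, ((lam (dir n s)).val = s / n ↔ (lam' (dir n s)).val = s / n)) :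
    pos g lam x t = pos g lam' x t := by
  induction t with
  | zero => rfl
  | succ t ih =>
    have h1 := ih (fun s hs => h s (by omega))
    have h2 := h t (by omega)
    simp only [pos, step]
    rw [h1]
    by_cases h3 : (lam (dir n t)).val = t / n
    · have h4 := h2.mp h3
      simp [h3, h4]
    · have h4 : ¬ (lam' (dir n t)).val = t / n := fun h => h3 (h2.mpr h)
      simp [h3, h4]

/-- the coin of the direction that arrives at time `t` has no influence before -/
theorem pos_thin_update {n R : ℕ} [NeZero n] (g : V n → Fin n → Bool) (tau : Fin n → Fin (R + 1))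
    (xi : V n) (b : Bool) (x : V n) (t s : ℕ) (htR : t < R * n)
    (harr : (tau (dir n t)).val = t / n) (hs : s ≤ t) :
    pos g (thin tau (Function.update xi (dir n t) b)) x s = pos g (thin tau xi) x s := by
  apply pos_congr
  intro r hr
  have hrt : r < t := by omega
  by_cases hd : dir n r = dir n t
  · have hmod : r % n = t % n := by
      have := congrArg Fin.val hd
      rwa [dir_val, dir_val] at this
    have hdiv : r / n ≠ t / n := by
      intro h
      have h1 := Nat.div_add_mod r n
      have h2 := Nat.div_add_mod t n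
      rw [h, hmod] at h1
      omega
    have hR : t / n < R := phase_lt htR
    have hrR : r / n < R := phase_lt (by omega)
    unfold thin
    rw [hd]
    constructor
    · intro h
      exfalso
      split_ifs at h
      · rw [harr] at h; exact hdiv h.symm
      · rw [Fin.val_last] at h; omega
    · intro h
      exfalso
      split_ifs at h
      · rw [harr] at h; exact hdiv h.symm
      · rw [Fin.val_last] at h; omega
  · unfold thin
    rw [Function.update_of_ne hd]

/-- averaging a coin that has no influence on `Phi` -/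
theorem sum_coin {n : ℕ} (m : Fin n) (Phi : V n → Bool → ℝ)
    (h : ∀ xi b b', Phi (Function.update xi m b) b' = Phi xi b') :
    ∑ xi : V n, Phi xi (xi m) = ∑ xi : V n, (Phi xi true + Phi xi false) / 2 := by
  have h1 := sum_flip m (fun xi => Phi xi (xi m))
  have h2 : ∀ xi : V n, Phi (flip xi m) ((flip xi m) m) = Phi xi (!xi m) := by
    intro xi
    unfold flip
    rw [h]
    simp
  simp only [h2] at h1
  have h3 : ∑ xi : V n, (Phi xi true + Phi xi false) / 2 =
      (∑ xi : V n, Phi xi (xi m) + ∑ xi : V n, Phi xi (!xi m)) / 2 := by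
    rw [← Finset.sum_add_distrib, Finset.sum_div]
    apply Finset.sum_congr rfl
    intro xi _
    cases xi m
    · simp [add_comm]
    · simp
  rw [h3, h1]
  ring

/-- observation weights of direction `l` -/
noncomputable def obs {n : ℕ} [NeZero n] (h : V n → ℝ) (l : Fin n) (θ : ℝ) (t : ℕ) (z : V n) : ℝ :=
  if dir n t = l then Real.exp (θ * ((-1) ^ (t / n) * h z)) else 1

/-- forward densities -/
noncomputable def rho {n R : ℕ} [NeZero n] (g : V n → Fin n → Bool) (tau : Fin n → Fin (R + 1))
    (h : V n → ℝ) (l : Fin n) (θ : ℝ) : ℕ → V n → ℝ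
  | 0 => fun _ => 1
  | t + 1 => Pop g tau t (fun z => obs h l θ t z * rho g tau h l θ t z)

theorem forward {n R : ℕ} [NeZero n] (g : V n → Fin n → Bool)
    (hg : ∀ z m, g (flip z m) m = g z m) (tau : Fin n → Fin (R + 1))
    (h : V n → ℝ) (l : Fin n) (θ : ℝ) (t : ℕ) (ht : t ≤ R * n) (F : V n → ℝ) :
    ∑ xi : V n, ∑ x : V n, (∏ s ∈ range t, obs h l θ s (pos g (thin tau xi) x s)) *
        F (pos g (thin tau xi) x t)
      = 2 ^ n * ∑ z, rho g tau h l θ t z * F z := by
  induction t generalizing F with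
  | zero =>
    simp [pos, rho, Finset.card_univ]
  | succ t ih =>
    have htR : t < R * n := by omega
    have hstep : ∑ xi : V n, ∑ x : V n,
        (∏ s ∈ range (t + 1), obs h l θ s (pos g (thin tau xi) x s)) *
        F (pos g (thin tau xi) x (t + 1))
      = ∑ xi : V n, ∑ x : V n, (∏ s ∈ range t, obs h l θ s (pos g (thin tau xi) x s)) *
        (obs h l θ t (pos g (thin tau xi) x t) * Pop g tau t F (pos g (thin tau xi) x t)) := by
      by_cases harr : (tau (dir n t)).val = t / n
      · -- the coin of `dir n t` is used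
        have hc := sum_coin (dir n t) (fun xi b => ∑ x : V n,
          (∏ s ∈ range (t + 1), obs h l θ s (pos g (thin tau xi) x s)) *
            F (if b = true ∧ g (pos g (thin tau xi) x t) (dir n t) = col (t / n)
              then flip (pos g (thin tau xi) x t) (dir n t) else pos g (thin tau xi) x t))
          (by
            intro xi b b'
            apply Finset.sum_congr rfl
            intro x _
            rw [pos_thin_update g tau xi b x t t htR harr le_rfl]
            congr 1
            apply Finset.prod_congr rfl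
            intro s hs
            rw [pos_thin_update g tau xi b x t s htR harr (by
              have := Finset.mem_range.mp hs; omega)])
        have hl : ∀ xi : V n, ∀ x : V n, pos g (thin tau xi) x (t + 1) =
            (if xi (dir n t) = true ∧ g (pos g (thin tau xi) x t) (dir n t) = col (t / n)
              then flip (pos g (thin tau xi) x t) (dir n t) else pos g (thin tau xi) x t) := by
          intro xi x
          have hR : t / n < R := phase_lt htR
          simp only [pos, step]
          by_cases hxi : xi (dir n t) = true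
          · have : (thin tau xi (dir n t)).val = t / n := by
              unfold thin; rw [if_pos hxi]; exact harr
            simp [this, hxi]
          · have : ¬ (thin tau xi (dir n t)).val = t / n := by
              unfold thin; rw [if_neg hxi, Fin.val_last]; omega
            simp [this, hxi]
        rw [Finset.sum_congr rfl (fun xi _ => Finset.sum_congr rfl (fun x _ => by rw [hl xi x]))]
        rw [hc]
        apply Finset.sum_congr rfl
        intro xi _
        rw [← Finset.sum_add_distrib, Finset.sum_div]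
        apply Finset.sum_congr rfl
        intro x _
        rw [Finset.prod_range_succ]
        unfold Pop
        by_cases hm : g (pos g (thin tau xi) x t) (dir n t) = col (t / n)
        · simp only [hm, harr, and_self, if_true, and_true, if_false, Bool.false_eq_true]
          ring
        · simp only [hm, harr, and_false, if_false]
          ring
      · have hl : ∀ xi : V n, ∀ x : V n, pos g (thin tau xi) x (t + 1) =
            pos g (thin tau xi) x t := by
          intro xi x
          have hR : t / n < R := phase_lt htR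
          simp only [pos, step]
          have : ¬ (thin tau xi (dir n t)).val = t / n := by
            unfold thin
            split_ifs
            · exact harr
            · rw [Fin.val_last]; omega
          simp [this]
        apply Finset.sum_congr rfl
        intro xi _
        apply Finset.sum_congr rfl
        intro x _
        rw [hl xi x, Finset.prod_range_succ]
        unfold Pop
        simp only [harr, false_and, if_false]
        ring
    rw [hstep, ih (by omega) (fun z => obs h l θ t z * Pop g tau t F z)]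
    congr 1
    have : ∀ z, rho g tau h l θ t z * (obs h l θ t z * Pop g tau t F z) =
      (obs h l θ t z * rho g tau h l θ t z) * Pop g tau t F z := by intro z; ring
    rw [Finset.sum_congr rfl (fun z _ => this z)]
    rw [Pop_selfadj g hg tau t (fun z => obs h l θ t z * rho g tau h l θ t z) F]
    rfl

/-! ### The potential -/

/-- number of observations before time `t` -/
def cnt {n : ℕ} (l : Fin n) (t : ℕ) : ℕ := (t + (n - 1 - l.val)) / n

theorem cnt_obs {n : ℕ} [NeZero n] (l : Fin n) (t : ℕ) (h : dir n t = l) :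
    cnt l t = t / n ∧ cnt l (t + 1) = t / n + 1 := by
  have hn : 0 < n := npos
  have hl := l.isLt
  rw [dir_eq_iff] at h
  have h1 := Nat.div_add_mod t n
  have e1 : t + (n - 1 - l.val) = n * (t / n) + (n - 1) := by omega
  have e2 : t + 1 + (n - 1 - l.val) = n * (t / n + 1) := by
    rw [Nat.mul_add, Nat.mul_one]; omega
  constructor
  · unfold cnt
    rw [e1, Nat.mul_add_div hn, Nat.div_eq_of_lt (show n - 1 < n by omega)]; simp
  · unfold cnt
    rw [e2, Nat.mul_div_cancel_left _ hn]

theorem cnt_skip {n : ℕ} [NeZero n] (l : Fin n) (t : ℕ) (h : dir n t ≠ l) :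
    cnt l (t + 1) = cnt l t := by
  have hn : 0 < n := npos
  have hl := l.isLt
  rw [Ne, dir_eq_iff] at h
  have h1 := Nat.div_add_mod t n
  have h2 := Nat.mod_lt t hn
  unfold cnt
  rcases lt_or_gt_of_ne h with h3 | h3
  · have e1 : t + (n - 1 - l.val) = n * (t / n) + (t % n + (n - 1 - l.val)) := by omega
    have e2 : t + 1 + (n - 1 - l.val) = n * (t / n) + (t % n + 1 + (n - 1 - l.val)) := by omega
    rw [e1, e2, Nat.mul_add_div hn, Nat.mul_add_div hn,
      Nat.div_eq_of_lt (show t % n + (n - 1 - l.val) < n by omega),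
      Nat.div_eq_of_lt (show t % n + 1 + (n - 1 - l.val) < n by omega)]
  · have e1 : t + (n - 1 - l.val) = n * (t / n + 1) + (t % n - l.val - 1) := by
      rw [Nat.mul_add, Nat.mul_one]; omega
    have e2 : t + 1 + (n - 1 - l.val) = n * (t / n + 1) + (t % n - l.val) := by
      rw [Nat.mul_add, Nat.mul_one]; omega
    rw [e1, e2, Nat.mul_add_div hn, Nat.mul_add_div hn,
      Nat.div_eq_of_lt (show t % n - l.val - 1 < n by omega),
      Nat.div_eq_of_lt (show t % n - l.val < n by omega)]

/-- the potential at time `t` -/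
noncomputable def psi {n : ℕ} (h : V n → ℝ) (l : Fin n) (θ : ℝ) (t : ℕ) (z : V n) : ℝ :=
  if cnt l t % 2 = 1 then -(θ * h z) else 0

theorem psi_obs {n : ℕ} [NeZero n] (h : V n → ℝ) (l : Fin n) (θ : ℝ) (t : ℕ) (z : V n) :
    Real.exp (psi h l θ (t + 1) z) * obs h l θ t z = Real.exp (psi h l θ t z) := by
  unfold psi obs
  by_cases hd : dir n t = l
  · obtain ⟨h1, h2⟩ := cnt_obs l t hd
    rw [h1, h2, if_pos hd]
    rcases Nat.mod_two_eq_zero_or_one (t / n) with h3 | h3
    · have h4 : (t / n + 1) % 2 = 1 := by omega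
      have h5 : Even (t / n) := Nat.even_iff.mpr h3
      rw [if_pos h4, if_neg (by omega), h5.neg_one_pow, ← Real.exp_add]
      congr 1; ring
    · have h4 : ¬ (t / n + 1) % 2 = 1 := by omega
      have h5 : Odd (t / n) := Nat.odd_iff.mpr h3
      rw [if_neg h4, if_pos h3, h5.neg_one_pow, ← Real.exp_add]
      congr 1; ring
  · rw [cnt_skip l t hd, if_neg hd, mul_one]

theorem psi_diff {n : ℕ} (h : V n → ℝ) (hh : ∀ z z', (h z - h z') ^ 2 ≤ 1) (l : Fin n) (θ : ℝ)
    (t : ℕ) (z z' : V n) : (psi h l θ t z - psi h l θ t z') ^ 2 ≤ θ ^ 2 := by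
  unfold psi
  split_ifs
  · have := mul_le_mul_of_nonneg_left (hh z z') (sq_nonneg θ)
    calc (-(θ * h z) - -(θ * h z')) ^ 2 = θ ^ 2 * (h z - h z') ^ 2 := by ring
      _ ≤ θ ^ 2 * 1 := this
      _ = θ ^ 2 := mul_one _
  · simp [sq_nonneg]

/-- number of arrivals before time `t` -/
def arrs {n R : ℕ} [NeZero n] (tau : Fin n → Fin (R + 1)) (t : ℕ) : ℕ :=
  ((range t).filter (fun s => (tau (dir n s)).val = s / n)).card

theorem arrs_le {n R : ℕ} [NeZero n] (tau : Fin n → Fin (R + 1)) :
    arrs tau (R * n) ≤ (univ.filter (fun m => tau m ≠ Fin.last R)).card := by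
  unfold arrs
  apply Finset.card_le_card_of_injOn (fun s => dir n s)
  · intro s hs
    simp only [coe_filter, mem_range, Set.mem_ofPred_eq] at hs
    simp only [coe_filter, mem_univ, true_and, Set.mem_ofPred_eq]
    intro h
    have h1 := hs.2
    rw [h, Fin.val_last] at h1
    have := phase_lt hs.1
    omega
  · intro s hs s' hs' hss
    simp only [coe_filter, mem_range, Set.mem_ofPred_eq] at hs hs'
    simp only at hss
    have h1 : s / n = s' / n := by rw [← hs.2, ← hs'.2, hss]
    have h2 : s % n = s' % n := by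
      have := congrArg Fin.val hss
      rwa [dir_val, dir_val] at this
    rw [← Nat.div_add_mod s n, ← Nat.div_add_mod s' n, h1, h2]

theorem norm_rho {n R : ℕ} [NeZero n] (g : V n → Fin n → Bool)
    (hg : ∀ z m, g (flip z m) m = g z m) (tau : Fin n → Fin (R + 1))
    (h : V n → ℝ) (hh : ∀ z z', (h z - h z') ^ 2 ≤ 1) (l : Fin n) (θ : ℝ) (t : ℕ) :
    ∑ z, (Real.exp (psi h l θ t z) * rho g tau h l θ t z) ^ 2
      ≤ 2 ^ n * Real.exp (θ ^ 2 * arrs tau t) := by
  induction t with
  | zero =>
    have hl := l.isLt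
    have h0 : cnt l 0 = 0 := by
      unfold cnt
      rw [zero_add]
      exact Nat.div_eq_of_lt (by omega)
    have : ∀ z : V n, psi h l θ 0 z = 0 := by
      intro z; unfold psi; rw [h0]; simp
    simp [this, rho, arrs, Finset.card_univ]
  | succ t ih =>
    have hE : ∑ z, (Real.exp (psi h l θ (t + 1) z) * (obs h l θ t z * rho g tau h l θ t z)) ^ 2
        = ∑ z, (Real.exp (psi h l θ t z) * rho g tau h l θ t z) ^ 2 := by
      apply Finset.sum_congr rfl
      intro z _
      rw [← mul_assoc, psi_obs]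
    by_cases harr : (tau (dir n t)).val = t / n
    · have h1 := Pop_norm g hg tau t (fun z => obs h l θ t z * rho g tau h l θ t z)
        (psi h l θ (t + 1)) θ (psi_diff h hh l θ (t + 1))
      have h2 : arrs tau (t + 1) = arrs tau t + 1 := by
        unfold arrs
        rw [Finset.range_add_one, Finset.filter_insert, if_pos harr, Finset.card_insert_of_notMem]
        simp
      rw [hE] at h1
      calc _ ≤ Real.exp (θ ^ 2) * ∑ z, (Real.exp (psi h l θ t z) * rho g tau h l θ t z) ^ 2 := h1
        _ ≤ Real.exp (θ ^ 2) * (2 ^ n * Real.exp (θ ^ 2 * arrs tau t)) :=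
            mul_le_mul_of_nonneg_left ih (Real.exp_pos _).le
        _ = 2 ^ n * Real.exp (θ ^ 2 * arrs tau (t + 1)) := by
            rw [h2]; push_cast
            rw [mul_add, mul_one, Real.exp_add]; ring
    · have h2 : arrs tau (t + 1) = arrs tau t := by
        unfold arrs
        rw [Finset.range_add_one, Finset.filter_insert, if_neg harr]
      have h3 : ∀ z, rho g tau h l θ (t + 1) z = obs h l θ t z * rho g tau h l θ t z := by
        intro z
        simp only [rho, Pop, harr, false_and, if_false]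
      simp only [h3]
      rw [hE, h2]
      exact ih

/-- exponential moment for fixed arrival phases -/
theorem exp_moment {n R : ℕ} [NeZero n] (hR2 : Even R) (g : V n → Fin n → Bool)
    (hg : ∀ z m, g (flip z m) m = g z m) (tau : Fin n → Fin (R + 1))
    (h : V n → ℝ) (hh : ∀ z z', (h z - h z') ^ 2 ≤ 1) (l : Fin n) (θ : ℝ) :
    ∑ xi : V n, ∑ x : V n, (∏ s ∈ range (R * n), obs h l θ s (pos g (thin tau xi) x s))
      ≤ 2 ^ n * (2 ^ n * Real.exp
          (θ ^ 2 * (univ.filter (fun m => tau m ≠ Fin.last R)).card / 2)) := by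
  have hf := forward g hg tau h l θ (R * n) le_rfl (fun _ => 1)
  simp only [mul_one] at hf
  rw [hf]
  apply mul_le_mul_of_nonneg_left _ (by positivity)
  have hl := l.isLt
  have hn : 0 < n := npos
  have hcnt : cnt l (R * n) = R := by
    unfold cnt
    rw [mul_comm R n, Nat.mul_add_div hn, Nat.div_eq_of_lt (by omega)]; simp
  have hpsi : ∀ z : V n, psi h l θ (R * n) z = 0 := by
    intro z
    unfold psi
    rw [hcnt, if_neg]
    rw [Nat.even_iff] at hR2; omega
  have hN := norm_rho g hg tau h hh l θ (R * n)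
  simp only [hpsi, Real.exp_zero, one_mul] at hN
  set A : ℝ := ((univ.filter (fun m => tau m ≠ Fin.last R)).card : ℝ) with hA
  have hle : (arrs tau (R * n) : ℝ) ≤ A := by
    rw [hA]; exact_mod_cast arrs_le tau
  have hN2 : ∑ z, rho g tau h l θ (R * n) z ^ 2 ≤ 2 ^ n * Real.exp (θ ^ 2 * A) := by
    refine hN.trans (mul_le_mul_of_nonneg_left (Real.exp_le_exp.mpr ?_) (by positivity))
    exact mul_le_mul_of_nonneg_left hle (sq_nonneg θ)
  -- AM-GM
  have hE1 : Real.exp (θ ^ 2 * A / 2) * Real.exp (-(θ ^ 2 * A / 2)) = 1 := by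
    rw [← Real.exp_add]; simp
  have hE2 : Real.exp (θ ^ 2 * A) * Real.exp (-(θ ^ 2 * A / 2)) = Real.exp (θ ^ 2 * A / 2) := by
    rw [← Real.exp_add]; congr 1; ring
  have hpt : ∀ z, rho g tau h l θ (R * n) z ≤
      (rho g tau h l θ (R * n) z ^ 2 * Real.exp (-(θ ^ 2 * A / 2)) +
        Real.exp (θ ^ 2 * A / 2)) / 2 := by
    intro z
    set r := rho g tau h l θ (R * n) z
    have hp1 : 0 < Real.exp (-(θ ^ 2 * A / 2)) := Real.exp_pos _
    have hsq := mul_nonneg hp1.le (sq_nonneg (r - Real.exp (θ ^ 2 * A / 2)))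
    have : Real.exp (-(θ ^ 2 * A / 2)) * (r - Real.exp (θ ^ 2 * A / 2)) ^ 2 =
      r ^ 2 * Real.exp (-(θ ^ 2 * A / 2))
        - 2 * r * (Real.exp (θ ^ 2 * A / 2) * Real.exp (-(θ ^ 2 * A / 2)))
        + Real.exp (θ ^ 2 * A / 2) * (Real.exp (θ ^ 2 * A / 2) * Real.exp (-(θ ^ 2 * A / 2))) := by
      ring
    rw [this, hE1] at hsq
    linarith
  calc ∑ z, rho g tau h l θ (R * n) z
      ≤ ∑ z, (rho g tau h l θ (R * n) z ^ 2 * Real.exp (-(θ ^ 2 * A / 2)) +
        Real.exp (θ ^ 2 * A / 2)) / 2 := Finset.sum_le_sum (fun z _ => hpt z)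
    _ = ((∑ z, rho g tau h l θ (R * n) z ^ 2) * Real.exp (-(θ ^ 2 * A / 2)) +
        2 ^ n * Real.exp (θ ^ 2 * A / 2)) / 2 := by
        rw [← Finset.sum_div, Finset.sum_add_distrib, ← Finset.sum_mul]
        simp [Finset.card_univ]
    _ ≤ ((2 ^ n * Real.exp (θ ^ 2 * A)) * Real.exp (-(θ ^ 2 * A / 2)) +
        2 ^ n * Real.exp (θ ^ 2 * A / 2)) / 2 := by
        have := mul_le_mul_of_nonneg_right hN2 (Real.exp_pos (-(θ ^ 2 * A / 2))).le
        linarith
    _ = 2 ^ n * Real.exp (θ ^ 2 * A / 2) := by
        rw [mul_assoc, hE2]; ring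

/-! ### Relation with the mismatch count -/

theorem prod_range_mul_obs {n : ℕ} [NeZero n] (h : V n → ℝ) (l : Fin n) (θ : ℝ) (q : ℕ → V n)
    (R : ℕ) : ∏ s ∈ range (R * n), obs h l θ s (q s)
      = Real.exp (θ * ∑ i ∈ range R, (-1) ^ i * h (q (i * n + l.val))) := by
  have hn : 0 < n := npos
  induction R with
  | zero => simp
  | succ R ih =>
    rw [Nat.succ_mul, Finset.prod_range_add, ih, Finset.sum_range_succ, mul_add, Real.exp_add]
    congr 1
    rw [Finset.prod_eq_single l.val]
    · unfold obs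
      have hd : dir n (R * n + l.val) = l := by
        rw [dir_eq_iff, mul_comm R n, Nat.mul_add_mod, Nat.mod_eq_of_lt l.isLt]
      have hq : (R * n + l.val) / n = R := by
        rw [mul_comm R n, Nat.mul_add_div hn, Nat.div_eq_of_lt l.isLt]; simp
      rw [if_pos hd, hq]
    · intro s hs hsl
      unfold obs
      rw [if_neg]
      rw [dir_eq_iff, mul_comm R n, Nat.mul_add_mod, Nat.mod_eq_of_lt (Finset.mem_range.mp hs)]
      exact hsl
    · intro h1
      exact absurd (Finset.mem_range.mpr l.isLt) h1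

theorem mis_eq {n R : ℕ} [NeZero n] (hR2 : Even R) (g : V n → Fin n → Bool)
    (lam : Fin n → Fin (R + 1)) (x : V n) (l : Fin n) :
    (mis g lam x l : ℝ) - R / 2
      = ∑ i ∈ range R, (-1) ^ i * (if g (pos g lam x (i * n + l.val)) l = true then (1 : ℝ) else 0)
      := by
  have h1 : (mis g lam x l : ℝ) = ∑ i ∈ range R,
      (if g (pos g lam x (i * n + l.val)) l ≠ col i then (1 : ℝ) else 0) := by
    unfold mis
    rw [Finset.card_filter]; push_cast; rfl
  have h2 : ∀ i ∈ range R, (if g (pos g lam x (i * n + l.val)) l ≠ col i then (1 : ℝ) else 0)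
      = (-1) ^ i * (if g (pos g lam x (i * n + l.val)) l = true then (1 : ℝ) else 0)
        + (1 - (-1) ^ i) / 2 := by
    intro i _
    unfold col
    rcases Nat.even_or_odd i with hi | hi
    · have h3 : i % 2 = 0 := Nat.even_iff.mp hi
      rw [hi.neg_one_pow, h3]
      cases g (pos g lam x (i * n + l.val)) l <;> simp
    · have h3 : i % 2 = 1 := Nat.odd_iff.mp hi
      rw [hi.neg_one_pow, h3]
      cases g (pos g lam x (i * n + l.val)) l <;> norm_num
  rw [h1, Finset.sum_congr rfl h2, Finset.sum_add_distrib, ← Finset.sum_div,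
    Finset.sum_sub_distrib, neg_one_geom_sum, if_pos hR2]
  simp

/-- thinning of the labels -/
theorem sum_thin {n R : ℕ} (hR : 0 < R) (p : ℝ) (F : (Fin n → Fin (R + 1)) → ℝ) :
    ∑ lam : Fin n → Fin (R + 1), (∏ m, mu p R (lam m)) * F lam
      = (∑ tau : Fin n → Fin (R + 1), (∏ m, mu (2 * p) R (tau m)) *
          ∑ xi : V n, F (thin tau xi)) / 2 ^ n := by
  have h := sum_push (n := n) (A := Fin (R + 1) × Bool) (B := Fin (R + 1))
    (fun _ a => mu (2 * p) R a.1 / 2) (fun _ a => if a.2 = true then a.1 else Fin.last R) F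
  have hw : ∀ b : Fin (R + 1), ∑ a ∈ univ.filter
      (fun a : Fin (R + 1) × Bool => (if a.2 = true then a.1 else Fin.last R) = b),
      mu (2 * p) R a.1 / 2 = mu p R b := by
    intro b
    rw [Finset.sum_filter, Fintype.sum_prod_type]
    simp only [Fintype.sum_bool, if_true, Bool.false_eq_true, if_false]
    rw [Finset.sum_add_distrib]
    simp only [Finset.sum_ite_eq', Finset.mem_univ, if_true]
    by_cases hb : b = Fin.last R
    · subst hb
      simp only [if_true]
      rw [← Finset.sum_div, sum_mu hR]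
      simp [mu]; ring
    · have : ¬ Fin.last R = b := fun h => hb h.symm
      simp only [this, if_false, Finset.sum_const_zero, add_zero]
      simp [mu, hb]; ring
  rw [show (∑ lam : Fin n → Fin (R + 1), (∏ m, mu p R (lam m)) * F lam) =
    ∑ b : Fin n → Fin (R + 1), (∏ m, ∑ a ∈ univ.filter
      (fun a : Fin (R + 1) × Bool => (if a.2 = true then a.1 else Fin.last R) = b m),
      mu (2 * p) R a.1 / 2) * F b from by
    apply Finset.sum_congr rfl
    intro b _
    congr 1
    apply Finset.prod_congr rfl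
    intro m _
    exact (hw (b m)).symm]
  rw [← h]
  rw [← Equiv.sum_comp (Equiv.arrowProdEquivProdArrow (Fin n) (fun _ => Fin (R + 1))
    (fun _ => Bool)).symm, Fintype.sum_prod_type, Finset.sum_div]
  apply Finset.sum_congr rfl
  intro tau _
  rw [Finset.mul_sum, Finset.sum_div]
  apply Finset.sum_congr rfl
  intro xi _
  simp only [Equiv.arrowProdEquivProdArrow, Equiv.coe_fn_symm_mk]
  rw [Finset.prod_div_distrib]
  simp only [Finset.prod_const, Finset.card_univ, Fintype.card_fin]
  unfold thin
  ring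

theorem exp_half_sq_bound (θ : ℝ) (h : θ ^ 2 ≤ 1) : Real.exp (θ ^ 2 / 2) - 1 ≤ θ ^ 2 := by
  have h0 : 0 ≤ θ ^ 2 := sq_nonneg θ
  have h1 : |θ ^ 2 / 2| ≤ 1 := by
    rw [abs_of_nonneg (by positivity)]; linarith
  have := Real.abs_exp_sub_one_le h1
  rw [abs_of_nonneg (a := θ ^ 2 / 2) (by positivity)] at this
  have := le_abs_self (Real.exp (θ ^ 2 / 2) - 1)
  linarith

/-- one-sided exponential moment -/
theorem exp_moment_lam {n R : ℕ} [NeZero n] (hR : 0 < R) (hR2 : Even R) (g : V n → Fin n → Bool)
    (hg : ∀ z m, g (flip z m) m = g z m) (l : Fin n) (p θ : ℝ) (hp0 : 0 ≤ p) (hp : p ≤ 1 / 2)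
    (hθ : θ ^ 2 ≤ 1) :
    ∑ lam : Fin n → Fin (R + 1), (∏ m, mu p R (lam m)) *
        ∑ x : V n, Real.exp (θ * ((mis g (Function.update lam l (Fin.last R)) x l : ℝ) - R / 2))
      ≤ 2 ^ n * Real.exp (2 * p * n * θ ^ 2) := by
  classical
  rw [sum_thin hR]
  set h : V n → ℝ := fun z => if g z l = true then (1 : ℝ) else 0 with hh
  have hhd : ∀ z z', (h z - h z') ^ 2 ≤ 1 := by
    intro z z'
    rw [hh]
    simp only
    split_ifs <;> norm_num
  have hupd : ∀ (tau : Fin n → Fin (R + 1)) (xi : V n),
      Function.update (thin tau xi) l (Fin.last R)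
        = thin (Function.update tau l (Fin.last R)) xi := by
    intro tau xi
    funext m
    by_cases hm : m = l
    · subst hm; simp [thin]
    · simp [thin, Function.update_of_ne hm]
  have hmu : ∀ b : Fin (R + 1), 0 ≤ mu (2 * p) R b := by
    intro b
    unfold mu
    split_ifs
    · linarith
    · positivity
  have hin : ∀ tau : Fin n → Fin (R + 1),
      ∑ xi : V n, ∑ x : V n, Real.exp (θ *
        ((mis g (Function.update (thin tau xi) l (Fin.last R)) x l : ℝ) - R / 2))
      ≤ 2 ^ n * (2 ^ n * ∏ m, (if tau m = Fin.last R then 1 else Real.exp (θ ^ 2 / 2))) := by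
    intro tau
    have h1 := exp_moment hR2 g hg (Function.update tau l (Fin.last R)) h hhd l θ
    have h2 : ∀ xi x, Real.exp (θ *
        ((mis g (Function.update (thin tau xi) l (Fin.last R)) x l : ℝ) - R / 2))
        = ∏ s ∈ range (R * n), obs h l θ s
          (pos g (thin (Function.update tau l (Fin.last R)) xi) x s) := by
      intro xi x
      rw [prod_range_mul_obs, hupd, mis_eq hR2]
    simp only [h2]
    refine h1.trans ?_
    apply mul_le_mul_of_nonneg_left _ (by positivity)
    apply mul_le_mul_of_nonneg_left _ (by positivity)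
    have h3 : ∏ m, (if tau m = Fin.last R then 1 else Real.exp (θ ^ 2 / 2))
        = Real.exp (θ ^ 2 / 2) ^ (univ.filter (fun m => tau m ≠ Fin.last R)).card := by
      rw [Finset.prod_ite, Finset.prod_const_one, one_mul, Finset.prod_const]
    rw [h3, ← Real.exp_nat_mul]
    apply Real.exp_le_exp.mpr
    have h4 : (univ.filter (fun m => Function.update tau l (Fin.last R) m ≠ Fin.last R)).card
        ≤ (univ.filter (fun m => tau m ≠ Fin.last R)).card := by
      apply Finset.card_le_card
      intro m hm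
      simp only [mem_filter, mem_univ, true_and] at hm ⊢
      by_cases hml : m = l
      · subst hml; simp at hm
      · rwa [Function.update_of_ne hml] at hm
    have h5 : ((univ.filter (fun m => Function.update tau l (Fin.last R) m ≠ Fin.last R)).card : ℝ)
        ≤ ((univ.filter (fun m => tau m ≠ Fin.last R)).card : ℝ) := by exact_mod_cast h4
    have := mul_le_mul_of_nonneg_left h5 (sq_nonneg θ)
    linarith
  have hsum : (∑ tau : Fin n → Fin (R + 1), (∏ m, mu (2 * p) R (tau m)) *
          ∑ xi : V n, ∑ x : V n, Real.exp (θ *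
        ((mis g (Function.update (thin tau xi) l (Fin.last R)) x l : ℝ) - R / 2)))
      ≤ ∑ tau : Fin n → Fin (R + 1), (∏ m, mu (2 * p) R (tau m)) *
        (2 ^ n * (2 ^ n * ∏ m, (if tau m = Fin.last R then 1 else Real.exp (θ ^ 2 / 2)))) := by
    apply Finset.sum_le_sum
    intro tau _
    exact mul_le_mul_of_nonneg_left (hin tau) (Finset.prod_nonneg (fun m _ => hmu _))
  have hprod : ∑ tau : Fin n → Fin (R + 1), (∏ m, mu (2 * p) R (tau m)) *
        (2 ^ n * (2 ^ n * ∏ m, (if tau m = Fin.last R then 1 else Real.exp (θ ^ 2 / 2))))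
      = 2 ^ n * (2 ^ n * (1 - 2 * p + 2 * p * Real.exp (θ ^ 2 / 2)) ^ n) := by
    have h1 : ∀ tau : Fin n → Fin (R + 1), (∏ m, mu (2 * p) R (tau m)) *
        (2 ^ n * (2 ^ n * ∏ m, (if tau m = Fin.last R then 1 else Real.exp (θ ^ 2 / 2))))
        = 2 ^ n * (2 ^ n * ∏ m, (mu (2 * p) R (tau m) *
          (if tau m = Fin.last R then 1 else Real.exp (θ ^ 2 / 2)))) := by
      intro tau
      rw [Finset.prod_mul_distrib]; ring
    simp only [h1]
    rw [← Finset.mul_sum, ← Finset.mul_sum]
    congr 2
    have h2 := Finset.prod_univ_sum (fun _ : Fin n => (univ : Finset (Fin (R + 1))))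
      (fun _ b => mu (2 * p) R b * (if b = Fin.last R then 1 else Real.exp (θ ^ 2 / 2)))
    rw [Fintype.piFinset_univ] at h2
    rw [← h2, Finset.prod_const, Finset.card_univ, Fintype.card_fin]
    congr 1
    rw [Fin.sum_univ_castSucc]
    have h3 : ∀ i : Fin R, Fin.castSucc i ≠ Fin.last R := fun i => (Fin.castSucc_lt_last i).ne
    simp only [h3, if_false, if_true, mu]
    rw [Finset.sum_const, Finset.card_univ, Fintype.card_fin, nsmul_eq_mul]
    have hRr : (R : ℝ) ≠ 0 := by positivity
    field_simp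
    ring
  rw [hprod] at hsum
  have hbase0 : 0 ≤ 1 - 2 * p + 2 * p * Real.exp (θ ^ 2 / 2) := by
    have := Real.exp_pos (θ ^ 2 / 2)
    nlinarith
  have hbase : 1 - 2 * p + 2 * p * Real.exp (θ ^ 2 / 2) ≤ Real.exp (2 * p * θ ^ 2) := by
    have h1 := exp_half_sq_bound θ hθ
    have h2 := Real.add_one_le_exp (2 * p * θ ^ 2)
    nlinarith [mul_le_mul_of_nonneg_left h1 (show 0 ≤ 2 * p by linarith)]
  have hpow : (1 - 2 * p + 2 * p * Real.exp (θ ^ 2 / 2)) ^ n ≤ Real.exp (2 * p * n * θ ^ 2) := by
    calc _ ≤ Real.exp (2 * p * θ ^ 2) ^ n := pow_le_pow_left₀ hbase0 hbase n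
      _ = _ := by rw [← Real.exp_nat_mul]; congr 1; ring
  calc _ ≤ (2 ^ n * (2 ^ n * (1 - 2 * p + 2 * p * Real.exp (θ ^ 2 / 2)) ^ n)) / 2 ^ n :=
        div_le_div_of_nonneg_right hsum (by positivity)
    _ = 2 ^ n * (1 - 2 * p + 2 * p * Real.exp (θ ^ 2 / 2)) ^ n := by
        field_simp
    _ ≤ _ := mul_le_mul_of_nonneg_left hpow (by positivity)

theorem conc {n R : ℕ} [NeZero n] (hR : 0 < R) (hR2 : Even R) (g : V n → Fin n → Bool)
    (hg : ∀ z m, g (flip z m) m = g z m) (l : Fin n) (p θ a : ℝ) (hp0 : 0 ≤ p) (hp : p ≤ 1 / 2)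
    (hθ0 : 0 ≤ θ) (hθ1 : θ ≤ 1) :
    ∑ lam : Fin n → Fin (R + 1), (∏ m, mu p R (lam m)) *
        ∑ x : V n, (if a ≤ |(mis g (Function.update lam l (Fin.last R)) x l : ℝ) - R / 2|
          then (1 : ℝ) else 0)
      ≤ 2 ^ n * (2 * Real.exp (2 * p * n * θ ^ 2 - θ * a)) := by
  have hθ : θ ^ 2 ≤ 1 := by nlinarith
  have hmu : ∀ b : Fin (R + 1), 0 ≤ mu p R b := by
    intro b
    unfold mu
    split_ifs
    · linarith
    · positivity
  have h1 := exp_moment_lam hR hR2 g hg l p θ hp0 hp hθ
  have h2 := exp_moment_lam hR hR2 g hg l p (-θ) hp0 hp (by simpa using hθ)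
  have hpt : ∀ X : ℝ, (if a ≤ |X| then (1 : ℝ) else 0) ≤
      Real.exp (-(θ * a)) * (Real.exp (θ * X) + Real.exp (-θ * X)) := by
    intro X
    split_ifs with h
    · have h3 : Real.exp (θ * |X|) ≤ Real.exp (θ * X) + Real.exp (-θ * X) := by
        rcases abs_cases X with ⟨h4, _⟩ | ⟨h4, _⟩
        · rw [h4]; have := Real.exp_pos (-θ * X); linarith
        · rw [h4]
          have := Real.exp_pos (θ * X)
          have h5 : θ * -X = -θ * X := by ring
          rw [h5]; linarith
      have h4 : 1 ≤ Real.exp (-(θ * a)) * Real.exp (θ * |X|) := by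
        rw [← Real.exp_add]
        apply Real.one_le_exp
        nlinarith
      have := mul_le_mul_of_nonneg_left h3 (Real.exp_pos (-(θ * a))).le
      linarith
    · positivity
  have hle : ∑ lam : Fin n → Fin (R + 1), (∏ m, mu p R (lam m)) *
        ∑ x : V n, (if a ≤ |(mis g (Function.update lam l (Fin.last R)) x l : ℝ) - R / 2|
          then (1 : ℝ) else 0)
      ≤ Real.exp (-(θ * a)) * (
        (∑ lam : Fin n → Fin (R + 1), (∏ m, mu p R (lam m)) *
        ∑ x : V n, Real.exp (θ * ((mis g (Function.update lam l (Fin.last R)) x l : ℝ) - R / 2)))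
        + (∑ lam : Fin n → Fin (R + 1), (∏ m, mu p R (lam m)) *
        ∑ x : V n, Real.exp (-θ * ((mis g (Function.update lam l (Fin.last R)) x l : ℝ) - R / 2))))
      := by
    rw [← Finset.sum_add_distrib, Finset.mul_sum]
    apply Finset.sum_le_sum
    intro lam _
    rw [← mul_add, ← Finset.sum_add_distrib, mul_left_comm]
    apply mul_le_mul_of_nonneg_left _ (Finset.prod_nonneg (fun m _ => hmu _))
    rw [Finset.mul_sum]
    apply Finset.sum_le_sum
    intro x _
    exact hpt _
  refine hle.trans ?_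
  have h3 : Real.exp (2 * p * n * θ ^ 2 - θ * a)
      = Real.exp (-(θ * a)) * Real.exp (2 * p * n * θ ^ 2) := by
    rw [← Real.exp_add]; congr 1; ring
  rw [neg_sq] at h2
  have h4 := mul_le_mul_of_nonneg_left (add_le_add h1 h2) (Real.exp_pos (-(θ * a))).le
  refine h4.trans (le_of_eq ?_)
  rw [h3]; ring

end Pool.MP_801c1a_co.Sub
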