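import Mathlib

/-!
Colour changes on antipodal geodesics of the 2-edge-coloured hypercube: definitions.

`g z m` is the colour of the edge of direction `m` at the vertex `z` (so `g (flip z m) m = g z m`).
-/

set_option autoImplicit false

namespace Pool.MP_801c1a_co.Sub

/-- vertices of the cube; also used for sets of directions -/
abbrev V (n : ℕ) := Fin n → Bool

/-- flip the coordinate `m` -/
def flip {n : ℕ} (z : V n) (m : Fin n) : V n := Function.update z m (!z m)

/-- the colours met by the walk that starts at `z` and uses the directions in the list -/
def cols {n : ℕ} (g : V n → Fin n → Bool) : V n → List (Fin n) → List Bool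
  | _, [] => []
  | z, m :: L => g z m :: cols g (flip z m) L

/-- number of changes in a list of colours -/
def chg : List Bool → ℕ
  | [] => 0
  | [_] => 0
  | a :: b :: l => (if a = b then 0 else 1) + chg (b :: l)

/-- the least number of colour changes of a geodesic that starts at `y` and uses exactly the
directions in `W` -/
noncomputable def cost {n : ℕ} (g : V n → Fin n → Bool) (y W : V n) : ℕ :=
  sInf {k | ∃ L : List (Fin n), L.Nodup ∧ (∀ m, m ∈ L ↔ W m = true) ∧ chg (cols g y L) = k}

/-- Bernoulli weights -/
def bern (p : ℝ) : Bool → ℝ
  | true => p
  | false => 1 - p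

/-- the average cost: uniform start, each direction present with probability `p` -/
noncomputable def avg {n : ℕ} (g : V n → Fin n → Bool) (p : ℝ) : ℝ :=
  (∑ x : V n, ∑ S : V n, (∏ m, bern p (S m)) * (cost g x S : ℝ)) / 2 ^ n

/-- the direction processed at time `t` -/
def dir (n : ℕ) [NeZero n] (t : ℕ) : Fin n := Fin.ofNat n t

/-- target colour of phase `i` -/
def col (i : ℕ) : Bool := decide (i % 2 = 1)

/-- one time step of the process; label `R` means never, label `i < R` means in phase `i` -/
def step {n R : ℕ} [NeZero n] (g : V n → Fin n → Bool) (lam : Fin n → Fin (R + 1)) (t : ℕ)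
    (z : V n) : V n :=
  if (lam (dir n t)).val = t / n ∧ g z (dir n t) = col (t / n) then flip z (dir n t) else z

/-- position of the process after `t` time steps -/
def pos {n R : ℕ} [NeZero n] (g : V n → Fin n → Bool) (lam : Fin n → Fin (R + 1)) (x : V n) :
    ℕ → V n
  | 0 => x
  | t + 1 => step g lam t (pos g lam x t)

/-- label weights: never has probability `1 - p`, each phase has probability `p / R` -/
noncomputable def mu (p : ℝ) (R : ℕ) (b : Fin (R + 1)) : ℝ :=
  if b = Fin.last R then 1 - p else p / R

/-- the directions that have a phase -/
def supp {n R : ℕ} (lam : Fin n → Fin (R + 1)) : V n := fun m => decide (lam m ≠ Fin.last R)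

/-- the number of phases in which the edge of direction `l` at the current position (at the time
direction `l` is looked at) does not have the target colour -/
def mis {n R : ℕ} [NeZero n] (g : V n → Fin n → Bool) (lam : Fin n → Fin (R + 1)) (x : V n)
    (l : Fin n) : ℕ :=
  ((Finset.range R).filter (fun i => g (pos g lam x (i * n + l.val)) l ≠ col i)).card

/-- the directions which have a phase but were not used -/
def rest {n R : ℕ} [NeZero n] (g : V n → Fin n → Bool) (lam : Fin n → Fin (R + 1)) (x : V n) :
    V n :=
  fun m => decide (lam m ≠ Fin.last R) && decide (pos g lam x (R * n) m = x m)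

end Pool.MP_801c1a_co.Sub
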