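import Pool.Agent.Lib_MP_801c1a_co.Main

/-!
Antipodal geodesics with few colour changes in the 2-edge-coloured hypercube.

An edge colouring of the cube is given (as in the frozen statement of the problem) by
`c : (Fin n → Bool) → Fin n → Bool`: the edge of direction `d` whose end with `d`-th coordinate
`false` is `z` has colour `c z d`.
-/

set_option autoImplicit false

namespace Pool.Agent.Results.MP_801c1a_co.FewColourChanges

/-- The colour of the `i`-th edge of the geodesic that starts at `v` and uses the directions
`σ 0, σ 1, …, σ (n-1)` in this order (so it ends at the antipode of `v`). -/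
def edgeColour {n : ℕ} (c : (Fin n → Bool) → Fin n → Bool) (v : Fin n → Bool)
    (σ : Equiv.Perm (Fin n)) (i : Fin n) : Bool :=
  c (Function.update (fun x : Fin n => v x != decide ((σ.symm x).val < i.val)) (σ i) false) (σ i)

/-- The number of colour changes along this geodesic: the number of `i` such that the `i`-th and
the `(i+1)`-st edge exist and have different colours. -/
def colourChanges {n : ℕ} (c : (Fin n → Bool) → Fin n → Bool) (v : Fin n → Bool)
    (σ : Equiv.Perm (Fin n)) : ℕ :=
  (Finset.univ.filter (fun i : Fin n => ∃ j : Fin n, j.val = i.val + 1 ∧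
    edgeColour c v σ i ≠ edgeColour c v σ j)).card

/-- In every 2-edge-coloured cube one can choose for each vertex a geodesic to its antipode such
that the average number of colour changes is at most `600 n^(7/8) log n`. -/
theorem result : ∀ n : ℕ, 2 ≤ n → ∀ c : (Fin n → Bool) → Fin n → Bool,
    ∃ σ : (Fin n → Bool) → Equiv.Perm (Fin n),
      (∑ v : Fin n → Bool, (colourChanges c v (σ v) : ℝ)) / 2 ^ n
        ≤ 600 * (n : ℝ) ^ (7 / 8 : ℝ) * Real.log n := by
  intro n hn c
  have h := fun v => Pool.MP_801c1a_co.Sub.exists_perm c v
  choose σ hσ using h
  refine ⟨σ, ?_⟩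
  have h1 := Pool.MP_801c1a_co.Sub.main_bound_600 hn
    (fun z m => c (Function.update z m false) m) (by
      intro z m
      unfold Pool.MP_801c1a_co.Sub.flip
      rw [Function.update_idem])
  have h2 : ∀ v, colourChanges c v (σ v)
      = Pool.MP_801c1a_co.Sub.cost (fun z m => c (Function.update z m false) m) v
        (fun _ => true) := fun v => hσ v
  simp only [h2]
  rw [mul_assoc]
  exact h1

end Pool.Agent.Results.MP_801c1a_co.FewColourChanges
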