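import Pool.Agent.Lib_MP_801c1a_co.Perm

/-!
The uniform flow: the average over the starting vertex of the least number of colour changes of an
antipodal geodesic is at most `(π / 2) n / √(n - 1)` (helper48).

`G g x S b` is the least number of colour changes of a geodesic that starts at `x`, uses exactly
the directions in `S`, where the edge before `x` had colour `b`.  The inequality is
`(1/t) ∑_{i ∉ S} G x S (g x i) ≤ (1/(n-t)) ∑_{j ∈ S} G (flip x j) (S \ j) (g x j) + |p - q|`,
where `t = n - |S|` and `p`, `q` are the densities of the colour `true` at `x` outside and inside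
`S`; averaging over `x` and `S` the sums telescope.
-/

set_option autoImplicit false

namespace Pool.MP_801c1a_co.Sub
open Finset

variable {n : ℕ}

/-- least number of changes of a geodesic from `x` with directions `S`, after an edge of colour
`b` -/
noncomputable def G (g : V n → Fin n → Bool) (x : V n) (S : Finset (Fin n)) (b : Bool) : ℕ :=
  sInf {k | ∃ L : List (Fin n), L.Nodup ∧ L.toFinset = S ∧ chg (b :: cols g x L) = k}

theorem G_nonempty (g : V n → Fin n → Bool) (x : V n) (S : Finset (Fin n)) (b : Bool) :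
    {k | ∃ L : List (Fin n), L.Nodup ∧ L.toFinset = S ∧ chg (b :: cols g x L) = k}.Nonempty :=
  ⟨_, S.toList, S.nodup_toList, S.toList_toFinset, rfl⟩

theorem G_spec (g : V n → Fin n → Bool) (x : V n) (S : Finset (Fin n)) (b : Bool) :
    ∃ L : List (Fin n), L.Nodup ∧ L.toFinset = S ∧ chg (b :: cols g x L) = G g x S b :=
  Nat.sInf_mem (G_nonempty g x S b)

theorem G_le (g : V n → Fin n → Bool) (x : V n) (S : Finset (Fin n)) (b : Bool)
    (L : List (Fin n)) (h1 : L.Nodup) (h2 : L.toFinset = S) :
    G g x S b ≤ chg (b :: cols g x L) :=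
  Nat.sInf_le ⟨L, h1, h2, rfl⟩

theorem G_empty (g : V n → Fin n → Bool) (x : V n) (b : Bool) : G g x ∅ b = 0 := by
  have := G_le g x ∅ b [] List.nodup_nil rfl
  simpa [cols, chg] using this

theorem chg_cons_le (a b : Bool) (l : List Bool) : chg (a :: l) ≤ chg (b :: l) + 1 := by
  cases l with
  | nil => simp [chg]
  | cons c l =>
    simp only [chg]
    split_ifs <;> omega

theorem G_swap (g : V n → Fin n → Bool) (x : V n) (S : Finset (Fin n)) (a b : Bool) :
    G g x S a ≤ G g x S b + 1 := by
  obtain ⟨L, h1, h2, h3⟩ := G_spec g x S b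
  rw [← h3]
  exact (G_le g x S a L h1 h2).trans (chg_cons_le _ _ _)

/-- one step along an edge of the same colour -/
theorem G_step (g : V n → Fin n → Bool) (x : V n) (S : Finset (Fin n)) (j : Fin n)
    (hj : j ∈ S) : G g x S (g x j) ≤ G g (flip x j) (S.erase j) (g x j) := by
  obtain ⟨L, h1, h2, h3⟩ := G_spec g (flip x j) (S.erase j) (g x j)
  rw [← h3]
  have hjL : j ∉ L := by
    intro h
    have : j ∈ L.toFinset := List.mem_toFinset.2 h
    rw [h2] at this
    simp at this
  refine (G_le g x S (g x j) (j :: L) (List.nodup_cons.2 ⟨hjL, h1⟩) ?_).trans ?_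
  · rw [List.toFinset_cons, h2, insert_erase hj]
  · simp [cols, chg]

theorem cost_le_G (g : V n → Fin n → Bool) (x : V n) (j : Fin n) :
    cost g x (fun _ => true) ≤ G g (flip x j) (univ.erase j) (g x j) := by
  obtain ⟨L, h1, h2, h3⟩ := G_spec g (flip x j) (univ.erase j) (g x j)
  rw [← h3]
  have hjL : j ∉ L := by
    intro h
    have : j ∈ L.toFinset := List.mem_toFinset.2 h
    rw [h2] at this
    simp at this
  refine Nat.sInf_le ⟨j :: L, List.nodup_cons.2 ⟨hjL, h1⟩, ?_, ?_⟩
  · intro m
    simp only [List.mem_cons]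
    constructor
    · intro _; trivial
    · intro _
      by_cases hm : m = j
      · exact Or.inl hm
      · right
        have : m ∈ L.toFinset := by rw [h2]; simp [hm]
        exact List.mem_toFinset.1 this
  · simp [cols]

/-- colour `true` at `x` -/
def R (g : V n → Fin n → Bool) (x : V n) : Finset (Fin n) := univ.filter (fun i => g x i = true)

/-- the local inequality -/
theorem local_ineq (g : V n → Fin n → Bool) (x : V n) (S : Finset (Fin n)) (t : ℝ) (s : ℝ)
    (ht : t = (Sᶜ).card) (hs : s = S.card) (ht0 : 0 < t) (hs0 : 0 < s) :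
    (∑ i ∈ Sᶜ, (G g x S (g x i) : ℝ)) / t ≤
      (∑ j ∈ S, (G g (flip x j) (S.erase j) (g x j) : ℝ)) / s +
        |((Sᶜ ∩ R g x).card : ℝ) / t - ((S ∩ R g x).card : ℝ) / s| := by
  set A : ℝ := ((G g x S true : ℕ) : ℝ) with hA
  set B : ℝ := ((G g x S false : ℕ) : ℝ) with hB
  have hAB : |A - B| ≤ 1 := by
    have h1 : A ≤ B + 1 := by
      rw [hA, hB]; exact_mod_cast G_swap g x S true false
    have h2 : B ≤ A + 1 := by
      rw [hA, hB]; exact_mod_cast G_swap g x S false true
    rw [abs_le]; constructor <;> linarith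
  have hsum : ∀ T : Finset (Fin n), ∑ i ∈ T, (G g x S (g x i) : ℝ) =
      ((T ∩ R g x).card : ℝ) * A + ((T.card : ℝ) - (T ∩ R g x).card) * B := by
    intro T
    have h1 : ∀ i ∈ T, (G g x S (g x i) : ℝ) =
        B + (if i ∈ R g x then 1 else 0) * (A - B) := by
      intro i _
      by_cases h : g x i = true
      · have : i ∈ R g x := by simp [R, h]
        rw [if_pos this, h]; ring
      · have h' : g x i = false := by simpa using h
        have : i ∉ R g x := by simp [R, h']
        rw [if_neg this, h']; ring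
    rw [sum_congr rfl h1, sum_add_distrib, sum_const, nsmul_eq_mul, ← sum_mul, sum_ite_mem,
      sum_const, nsmul_eq_mul]
    ring
  have h2 : (∑ j ∈ S, (G g x S (g x j) : ℝ)) ≤
      ∑ j ∈ S, (G g (flip x j) (S.erase j) (g x j) : ℝ) :=
    sum_le_sum fun j hj => by exact_mod_cast G_step g x S j hj
  have h3 : (∑ j ∈ S, (G g x S (g x j) : ℝ)) / s ≤
      (∑ j ∈ S, (G g (flip x j) (S.erase j) (g x j) : ℝ)) / s :=
    div_le_div_of_nonneg_right h2 hs0.le
  refine le_trans ?_ (add_le_add_left h3 _)
  rw [hsum, hsum, ← ht, ← hs]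
  set p : ℝ := ((Sᶜ ∩ R g x).card : ℝ)
  set q : ℝ := ((S ∩ R g x).card : ℝ)
  have e1 : (p * A + (t - p) * B) / t = B + (p / t) * (A - B) := by field_simp; ring
  have e2 : (q * A + (s - q) * B) / s = B + (q / s) * (A - B) := by field_simp; ring
  rw [e1, e2]
  have h4 : (p / t - q / s) * (A - B) ≤ |p / t - q / s| := by
    calc (p / t - q / s) * (A - B) ≤ |(p / t - q / s) * (A - B)| := le_abs_self _
      _ = |p / t - q / s| * |A - B| := abs_mul _ _
      _ ≤ |p / t - q / s| * 1 := mul_le_mul_of_nonneg_left hAB (abs_nonneg _)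
      _ = _ := mul_one _
  nlinarith

end Pool.MP_801c1a_co.Sub
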