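import Pool.Agent.Lib_MP_801c1a_co.Defs

/-!
Piece PathA: lists of directions and numbers of colour changes.
-/

set_option autoImplicit false
set_option linter.unusedVariables false

namespace Pool.MP_801c1a_co.Sub
open Finset

theorem length_cols {n : ℕ} (g : V n → Fin n → Bool) :
    ∀ (L : List (Fin n)) (y : V n), (cols g y L).length = L.length
  | [], y => rfl
  | m :: L, y => by simp [cols, length_cols g L]

theorem chg_le_length : ∀ l : List Bool, chg l ≤ l.length
  | [] => le_refl _
  | [_] => by simp [chg]
  | a :: b :: l => by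
    have h := chg_le_length (b :: l)
    simp only [chg, List.length_cons] at h ⊢
    split_ifs <;> omega

/-- end point of a walk -/
def endpt {n : ℕ} (y : V n) (L : List (Fin n)) : V n := fun m => y m ^^ decide (m ∈ L)

theorem endpt_cons {n : ℕ} (y : V n) (m : Fin n) (L : List (Fin n)) (h : m ∉ L) :
    endpt y (m :: L) = endpt (flip y m) L := by
  funext k
  by_cases hk : k = m
  · subst hk
    simp [endpt, flip, h]
  · simp [endpt, flip, hk]

theorem cols_append {n : ℕ} (g : V n → Fin n → Bool) :
    ∀ (L L' : List (Fin n)) (y : V n), L.Nodup →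
      cols g y (L ++ L') = cols g y L ++ cols g (endpt y L) L'
  | [], L', y, _ => by
    have : endpt y ([] : List (Fin n)) = y := by
      funext k
      simp [endpt]
    simp [cols, this]
  | m :: L, L', y, h => by
    rw [List.nodup_cons] at h
    rw [endpt_cons y m L h.1]
    simp only [List.cons_append, cols]
    rw [cols_append g L L' (flip y m) h.2]

theorem chg_append : ∀ (a b : List Bool), chg (a ++ b) ≤ chg a + 1 + chg b
  | [], b => by simp [chg]
  | [x], [] => by simp [chg]
  | [x], y :: b => by
    simp only [List.cons_append, List.nil_append, chg]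
    split_ifs <;> omega
  | x :: y :: a, b => by
    have h := chg_append (y :: a) b
    simp only [List.cons_append, chg] at h ⊢
    omega

theorem exists_cost {n : ℕ} (g : V n → Fin n → Bool) (y W : V n) :
    ∃ L : List (Fin n), L.Nodup ∧ (∀ m, m ∈ L ↔ W m = true) ∧ chg (cols g y L) = cost g y W := by
  have h : (cost g y W) ∈ {k | ∃ L : List (Fin n), L.Nodup ∧ (∀ m, m ∈ L ↔ W m = true) ∧
      chg (cols g y L) = k} := by
    apply Nat.sInf_mem
    refine ⟨_, (univ.filter (fun m => W m = true)).toList, Finset.nodup_toList _, ?_, rfl⟩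
    intro m
    simp
  exact h

theorem cost_le {n : ℕ} (g : V n → Fin n → Bool) (y W : V n) (L : List (Fin n)) (h1 : L.Nodup)
    (h2 : ∀ m, m ∈ L ↔ W m = true) : cost g y W ≤ chg (cols g y L) :=
  Nat.sInf_le ⟨L, h1, h2, rfl⟩

theorem cost_le_card {n : ℕ} (g : V n → Fin n → Bool) (y W : V n) :
    cost g y W ≤ (univ.filter (fun m => W m = true)).card := by
  have h := cost_le g y W (univ.filter (fun m => W m = true)).toList (Finset.nodup_toList _)
    (fun m => by simp)
  refine h.trans ((chg_le_length _).trans ?_)
  rw [length_cols, Finset.length_toList]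

theorem cost_update {n : ℕ} (g : V n → Fin n → Bool) (y W : V n) (l : Fin n) :
    cost g y (Function.update W l true) ≤ cost g y (Function.update W l false) + 1 := by
  obtain ⟨L, h1, h2, h3⟩ := exists_cost g y (Function.update W l false)
  have hl : l ∉ L := by
    rw [h2]
    simp
  have h4 : (L ++ [l]).Nodup := by
    rw [List.nodup_append]
    refine ⟨h1, List.nodup_singleton _, ?_⟩
    intro a ha b hb
    rw [List.mem_singleton] at hb
    subst hb
    rintro rfl
    exact hl ha
  have h5 : ∀ m, m ∈ L ++ [l] ↔ Function.update W l true m = true := by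
    intro m
    rw [List.mem_append, h2, List.mem_singleton]
    by_cases hm : m = l
    · subst hm
      simp
    · simp [hm]
  refine (cost_le g y _ _ h4 h5).trans ?_
  rw [cols_append g L [l] y h1, ← h3]
  refine (chg_append _ _).trans ?_
  simp [cols, chg]

theorem cost_union {n : ℕ} (g : V n → Fin n → Bool) (x T U : V n)
    (h : ∀ m, ¬ (T m = true ∧ U m = true)) :
    cost g x (fun m => T m || U m) ≤ cost g x T + 1 + cost g (fun m => x m ^^ T m) U := by
  obtain ⟨L, h1, h2, h3⟩ := exists_cost g x T
  obtain ⟨M, k1, k2, k3⟩ := exists_cost g (fun m => x m ^^ T m) U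
  have he : endpt x L = fun m => x m ^^ T m := by
    funext m
    unfold endpt
    congr 1
    have := h2 m
    by_cases hT : T m = true
    · rw [hT]
      simpa using this.2 hT
    · have h7 : m ∉ L := fun hm => hT (this.1 hm)
      rw [Bool.not_eq_true] at hT
      rw [hT]
      simpa using h7
  have h4 : (L ++ M).Nodup := by
    rw [List.nodup_append]
    refine ⟨h1, k1, ?_⟩
    rintro a ha b hb rfl
    exact h a ⟨(h2 a).1 ha, (k2 a).1 hb⟩
  have h5 : ∀ m, m ∈ L ++ M ↔ (fun m => T m || U m) m = true := by
    intro m
    rw [List.mem_append, h2, k2]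
    simp
  refine (cost_le g x _ _ h4 h5).trans ?_
  rw [cols_append g L M x h1, he, ← h3, ← k3]
  exact chg_append _ _

end Pool.MP_801c1a_co.Sub
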