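import Pool.Agent.Lib_MP_801c1a_co.Defs
import Pool.Agent.Lib_MP_801c1a_co.PathA

set_option autoImplicit false
set_option linter.unusedVariables false

namespace Pool.MP_801c1a_co.Sub
open Finset

/-! ### PIECE Rounds (Rounds.lean) -/

/-- local copy of `sum_push` -/
theorem sum_push_rounds {n : ℕ} {A B : Type} [Fintype A] [Fintype B] [DecidableEq A]
    [DecidableEq B] (w : Fin n → A → ℝ) (f : Fin n → A → B) (F : (Fin n → B) → ℝ) :
    ∑ a : Fin n → A, (∏ m, w m (a m)) * F (fun m => f m (a m))
      = ∑ b : Fin n → B, (∏ m, ∑ a ∈ univ.filter (fun a => f m a = b m), w m a) * F b := by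
  rw [← Finset.sum_fiberwise (s := (univ : Finset (Fin n → A)))
    (g := fun a => (fun m => f m (a m) : Fin n → B))]
  refine Finset.sum_congr rfl (fun b _ => ?_)
  rw [Finset.prod_univ_sum, Finset.sum_mul]
  have hset : univ.filter (fun a : Fin n → A => (fun m => f m (a m)) = b)
      = Fintype.piFinset (fun m => univ.filter (fun a => f m a = b m)) := by
    ext a
    simp [Fintype.mem_piFinset, funext_iff]
  rw [← hset]
  refine Finset.sum_congr rfl (fun a ha => ?_)
  rw [Finset.mem_filter] at ha
  rw [ha.2]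



/-- xor with a fixed set of directions is a bijection of the cube -/
def xorEquiv {n : ℕ} (T : V n) : V n ≃ V n where
  toFun x := fun m => x m ^^ T m
  invFun x := fun m => x m ^^ T m
  left_inv x := by
    funext m
    show ((x m ^^ T m) ^^ T m) = x m
    cases x m <;> cases T m <;> rfl
  right_inv x := by
    funext m
    show ((x m ^^ T m) ^^ T m) = x m
    cases x m <;> cases T m <;> rfl

theorem sum_xor {n : ℕ} (T : V n) (F : V n → ℝ) :
    ∑ x : V n, F (fun m => x m ^^ T m) = ∑ x : V n, F x :=
  Equiv.sum_comp (xorEquiv T) F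

theorem cost_rounds_aux {n ρ : ℕ} (g : V n → Fin n → Bool) (a : Fin n → Fin ρ) (x : V n) (j : ℕ) :
    cost g x (fun m => decide ((a m).val < j)) ≤
      ∑ i ∈ range j, (cost g (fun m => x m ^^ decide ((a m).val < i))
        (fun m => decide ((a m).val = i)) + 1) := by
  induction j with
  | zero =>
    have h := cost_le_card g x (fun m => decide ((a m).val < 0))
    simpa using h
  | succ j ih =>
    rw [Finset.sum_range_succ]
    have h1 : (fun m => decide ((a m).val < j + 1))
        = (fun m => decide ((a m).val < j) || decide ((a m).val = j)) := by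
      funext m
      rw [← Bool.decide_or]
      congr 1
      exact propext (by omega)
    rw [h1]
    have h2 := cost_union g x (fun m => decide ((a m).val < j)) (fun m => decide ((a m).val = j))
      (by
        intro m hm
        simp only [decide_eq_true_eq] at hm
        omega)
    omega

theorem sum_uniform {n ρ : ℕ} (hρ : 0 < ρ) (i : ℕ) (hi : i < ρ) (F : V n → ℝ) :
    ∑ a : Fin n → Fin ρ, (∏ _m : Fin n, (1 / (ρ : ℝ))) * F (fun m => decide ((a m).val = i))
      = ∑ S : V n, (∏ m, bern (1 / (ρ : ℝ)) (S m)) * F S := by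
  have hρ' : (ρ : ℝ) ≠ 0 := by
    have : (0 : ℝ) < ρ := by exact_mod_cast hρ
    exact this.ne'
  have h := sum_push_rounds (n := n) (A := Fin ρ) (B := Bool) (fun _ _ => (1 / (ρ : ℝ)))
    (fun _ a => decide (a.val = i)) F
  rw [h]
  refine Finset.sum_congr rfl (fun S _ => ?_)
  congr 1
  refine Finset.prod_congr rfl (fun m _ => ?_)
  have hc : (univ.filter (fun a : Fin ρ => decide (a.val = i) = true)).card = 1 := by
    have : univ.filter (fun a : Fin ρ => decide (a.val = i) = true) = {⟨i, hi⟩} := by
      ext a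
      simp [Fin.ext_iff]
    rw [this]
    simp
  cases hS : S m with
  | true =>
    rw [Finset.sum_const, hc]
    simp [bern]
  | false =>
    have hc2 : (univ.filter (fun a : Fin ρ => decide (a.val = i) = false)).card = ρ - 1 := by
      have h3 := Finset.card_filter_add_card_filter_not (s := (univ : Finset (Fin ρ)))
        (fun a : Fin ρ => decide (a.val = i) = true)
      rw [hc] at h3
      simp only [Finset.card_univ, Fintype.card_fin, Bool.not_eq_true] at h3
      omega
    rw [Finset.sum_const, hc2, nsmul_eq_mul, Nat.cast_sub (by omega : 1 ≤ ρ)]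
    simp only [bern]
    field_simp
    simp

theorem rounds {n ρ : ℕ} (hρ : 0 < ρ) (g : V n → Fin n → Bool) :
    (∑ x : V n, (cost g x (fun _ => true) : ℝ)) / 2 ^ n ≤ ρ * (avg g (1 / ρ) + 1) := by
  have hρ0 : (0 : ℝ) < ρ := by exact_mod_cast hρ
  have h2n : (0 : ℝ) < 2 ^ n := by positivity
  -- pointwise in a
  have key : ∀ a : Fin n → Fin ρ, (∑ x : V n, (cost g x (fun _ => true) : ℝ)) ≤
      ∑ i ∈ range ρ, ((∑ x : V n, (cost g x (fun m => decide ((a m).val = i)) : ℝ)) + 2 ^ n) := by
    intro a
    have h1 : ∀ x : V n, (cost g x (fun _ => true) : ℝ) ≤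
        ∑ i ∈ range ρ, ((cost g (fun m => x m ^^ decide ((a m).val < i))
          (fun m => decide ((a m).val = i)) : ℝ) + 1) := by
      intro x
      have h := cost_rounds_aux g a x ρ
      have h3 : (fun m => decide ((a m).val < ρ)) = (fun _ => true) := by
        funext m
        simp [(a m).isLt]
      rw [h3] at h
      exact_mod_cast h
    refine (Finset.sum_le_sum (fun x _ => h1 x)).trans (le_of_eq ?_)
    rw [Finset.sum_comm]
    refine Finset.sum_congr rfl (fun i _ => ?_)
    rw [Finset.sum_add_distrib]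
    congr 1
    · exact sum_xor (fun m => decide ((a m).val < i))
        (fun y => (cost g y (fun m => decide ((a m).val = i)) : ℝ))
    · simp
  -- average over a
  have hone : ∑ a : Fin n → Fin ρ, (∏ _m : Fin n, (1 / (ρ : ℝ))) = 1 := by
    simp only [Finset.prod_const, Finset.sum_const, Finset.card_univ, Fintype.card_fin,
      Fintype.card_pi, nsmul_eq_mul]
    push_cast
    rw [← mul_pow, mul_one_div, div_self hρ0.ne', one_pow]
  have hmain : (∑ x : V n, (cost g x (fun _ => true) : ℝ)) ≤
      ∑ a : Fin n → Fin ρ, (∏ _m : Fin n, (1 / (ρ : ℝ))) *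
        ∑ i ∈ range ρ, ((∑ x : V n, (cost g x (fun m => decide ((a m).val = i)) : ℝ)) + 2 ^ n) := by
    calc (∑ x : V n, (cost g x (fun _ => true) : ℝ))
        = ∑ a : Fin n → Fin ρ, (∏ _m : Fin n, (1 / (ρ : ℝ))) *
            (∑ x : V n, (cost g x (fun _ => true) : ℝ)) := by
          rw [← Finset.sum_mul, hone, one_mul]
      _ ≤ _ := Finset.sum_le_sum (fun a _ => mul_le_mul_of_nonneg_left (key a)
          (Finset.prod_nonneg (fun _ _ => by positivity)))
  have heq : ∑ a : Fin n → Fin ρ, (∏ _m : Fin n, (1 / (ρ : ℝ))) *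
        ∑ i ∈ range ρ, ((∑ x : V n, (cost g x (fun m => decide ((a m).val = i)) : ℝ)) + 2 ^ n)
      = ρ * (2 ^ n * avg g (1 / ρ) + 2 ^ n) := by
    simp only [Finset.mul_sum]
    rw [Finset.sum_comm]
    have : ∀ i ∈ range ρ, ∑ a : Fin n → Fin ρ, (∏ _m : Fin n, (1 / (ρ : ℝ))) *
        ((∑ x : V n, (cost g x (fun m => decide ((a m).val = i)) : ℝ)) + 2 ^ n)
        = 2 ^ n * avg g (1 / ρ) + 2 ^ n := by
      intro i hi
      rw [Finset.mem_range] at hi
      have h5 := sum_uniform hρ i hi
        (fun S : V n => (∑ x : V n, (cost g x S : ℝ)) + 2 ^ n)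
      rw [h5]
      have hbern : ∑ S : V n, (∏ m, bern (1 / (ρ : ℝ)) (S m)) = 1 := by
        have h6 := sum_uniform (n := n) hρ i hi (fun _ => (1 : ℝ))
        simp only [mul_one] at h6
        rw [← h6, hone]
      simp only [mul_add]
      rw [Finset.sum_add_distrib, ← Finset.sum_mul, hbern, one_mul, avg,
        mul_div_cancel₀ _ h2n.ne', Finset.sum_comm]
      simp only [Finset.mul_sum]
    rw [Finset.sum_congr rfl this, Finset.sum_const, Finset.card_range, nsmul_eq_mul]
  rw [div_le_iff₀ h2n]
  refine hmain.trans (le_of_eq ?_)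
  rw [heq]
  ring

end Pool.MP_801c1a_co.Sub
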