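import Pool.Agent.Lib_MP_801c1a_co.PathA
import Pool.Agent.Lib_MP_801c1a_co.Rounds

set_option autoImplicit false
set_option linter.unusedVariables false

/-!
MP_801c1a_co, PIECE Iter: iteration of `one_step` and elementary asymptotics.
-/

namespace Pool.MP_801c1a_co.Sub
open Finset

theorem sum_prod_bern_mem {n : ℕ} (p : ℝ) (l : Fin n) :
    ∑ S : V n, (∏ m, bern p (S m)) * (if S l = true then (1 : ℝ) else 0) = p := by
  classical
  have h1 : ∀ S : V n, (∏ m, bern p (S m)) * (if S l = true then (1 : ℝ) else 0)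
      = ∏ m, (bern p (S m) * (if m = l then (if S m = true then (1 : ℝ) else 0) else 1)) := by
    intro S
    rw [Finset.prod_mul_distrib]
    congr 1
    rw [Finset.prod_ite_eq' Finset.univ l (fun m => if S m = true then (1 : ℝ) else 0)]
    simp
  simp_rw [h1]
  have h2 := Finset.prod_univ_sum (R := ℝ) (fun _ : Fin n => (Finset.univ : Finset Bool))
    (fun m b => bern p b * (if m = l then (if b = true then (1 : ℝ) else 0) else 1))
  rw [Fintype.piFinset_univ] at h2
  rw [← h2]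
  have h3 : ∀ m : Fin n, (∑ b : Bool, bern p b *
      (if m = l then (if b = true then (1 : ℝ) else 0) else 1)) = if m = l then p else 1 := by
    intro m
    by_cases h : m = l
    · simp [h, bern]
    · simp [h, bern]
  simp_rw [h3]
  rw [Finset.prod_ite_eq' Finset.univ l (fun _ => p)]
  simp

theorem prod_bern_nonneg {n : ℕ} (p : ℝ) (hp0 : 0 ≤ p) (hp : p ≤ 1) (S : V n) :
    0 ≤ ∏ m, bern p (S m) := by
  apply Finset.prod_nonneg
  intro m _
  cases S m
  · simp only [bern]; linarith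
  · simp only [bern]; exact hp0

theorem avg_le {n : ℕ} (g : V n → Fin n → Bool) (p : ℝ) (hp0 : 0 ≤ p) (hp : p ≤ 1) :
    avg g p ≤ n * p := by
  classical
  have h1 : ∀ x : V n, ∑ S : V n, (∏ m, bern p (S m)) * (cost g x S : ℝ) ≤ n * p := by
    intro x
    calc ∑ S : V n, (∏ m, bern p (S m)) * (cost g x S : ℝ)
        ≤ ∑ S : V n, (∏ m, bern p (S m)) * ∑ l : Fin n, (if S l = true then (1 : ℝ) else 0) := by
          apply Finset.sum_le_sum
          intro S _
          apply mul_le_mul_of_nonneg_left _ (prod_bern_nonneg p hp0 hp S)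
          rw [Finset.sum_boole]
          exact_mod_cast cost_le_card g x S
      _ = ∑ l : Fin n, ∑ S : V n, (∏ m, bern p (S m)) * (if S l = true then (1 : ℝ) else 0) := by
          simp_rw [Finset.mul_sum]
          rw [Finset.sum_comm]
      _ = n * p := by
          simp_rw [sum_prod_bern_mem]
          simp
  unfold avg
  rw [div_le_iff₀ (by positivity)]
  calc ∑ x : V n, ∑ S : V n, (∏ m, bern p (S m)) * (cost g x S : ℝ)
      ≤ ∑ x : V n, (n * p : ℝ) := Finset.sum_le_sum (fun x _ => h1 x)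
    _ = n * p * 2 ^ n := by
        rw [Finset.sum_const, Finset.card_univ]
        simp [mul_comm]

/-- iteration of a one step inequality -/
theorem iterate_bound (a : ℕ → ℝ) (ha : ∀ k, 0 ≤ a k) (A D : ℝ) (hA : 0 ≤ A) (hD : 0 ≤ D)
    (h : ∀ k, a k ≤ A + Real.exp ((1 / 4 : ℝ) ^ k) * (a (k + 1) + D * (1 / 2) ^ k)) (K : ℕ) :
    a 0 ≤ 4 * (K * A + 2 * D + a K) := by
  have hsum4 : ∀ k : ℕ, ∑ i ∈ range k, (1 / 4 : ℝ) ^ i ≤ 4 / 3 := by
    intro k
    rw [geom_sum_eq (by norm_num)]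
    have : (0 : ℝ) ≤ (1 / 4) ^ k := by positivity
    linarith [this, show ((1 / 4 : ℝ) ^ k - 1) / (1 / 4 - 1) = (1 - (1 / 4) ^ k) * (4 / 3) by ring]
  have hE : ∀ k : ℕ, Real.exp (∑ i ∈ range k, (1 / 4 : ℝ) ^ i) ≤ 4 := by
    intro k
    calc Real.exp (∑ i ∈ range k, (1 / 4 : ℝ) ^ i) ≤ Real.exp (4 / 3) :=
          Real.exp_le_exp.mpr (hsum4 k)
      _ ≤ 4 := by
          have h1 : Real.exp 1 < 2.7182818286 := Real.exp_one_lt_d9
          have h2 : Real.exp (4 / 3) ^ 3 = Real.exp 1 ^ 4 := by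
            rw [← Real.exp_nat_mul, ← Real.exp_nat_mul]
            norm_num
          have h3 : Real.exp 1 ^ 4 ≤ 4 ^ 3 := by
            have h0 : 0 ≤ Real.exp 1 := (Real.exp_pos 1).le
            calc Real.exp 1 ^ 4 ≤ 2.7182818286 ^ 4 := by gcongr
              _ ≤ 4 ^ 3 := by norm_num
          rw [← h2] at h3
          exact le_of_pow_le_pow_left₀ (by norm_num) (by norm_num) h3
  -- claim
  have key : ∀ k : ℕ, a 0 ≤ Real.exp (∑ i ∈ range k, (1 / 4 : ℝ) ^ i) * a k
      + 4 * (k * A + D * ∑ i ∈ range k, (1 / 2 : ℝ) ^ i) := by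
    intro k
    induction k with
    | zero => simp
    | succ k ih =>
      have e1 : Real.exp (∑ i ∈ range (k + 1), (1 / 4 : ℝ) ^ i)
          = Real.exp (∑ i ∈ range k, (1 / 4 : ℝ) ^ i) * Real.exp ((1 / 4 : ℝ) ^ k) := by
        rw [Finset.sum_range_succ, Real.exp_add]
      have hpos : 0 ≤ Real.exp (∑ i ∈ range k, (1 / 4 : ℝ) ^ i) := (Real.exp_pos _).le
      have h2 := mul_le_mul_of_nonneg_left (h k) hpos
      have h3 : Real.exp (∑ i ∈ range k, (1 / 4 : ℝ) ^ i) *
          (A + Real.exp ((1 / 4 : ℝ) ^ k) * (a (k + 1) + D * (1 / 2) ^ k))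
          = Real.exp (∑ i ∈ range k, (1 / 4 : ℝ) ^ i) * A
            + Real.exp (∑ i ∈ range (k + 1), (1 / 4 : ℝ) ^ i) * a (k + 1)
            + Real.exp (∑ i ∈ range (k + 1), (1 / 4 : ℝ) ^ i) * (D * (1 / 2) ^ k) := by
        rw [e1]; ring
      have h4 : Real.exp (∑ i ∈ range k, (1 / 4 : ℝ) ^ i) * A ≤ 4 * A :=
        mul_le_mul_of_nonneg_right (hE k) hA
      have h5 : Real.exp (∑ i ∈ range (k + 1), (1 / 4 : ℝ) ^ i) * (D * (1 / 2) ^ k)
          ≤ 4 * (D * (1 / 2) ^ k) :=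
        mul_le_mul_of_nonneg_right (hE (k + 1)) (by positivity)
      rw [Finset.sum_range_succ (fun i => (1 / 2 : ℝ) ^ i) k]
      push_cast
      nlinarith [ih, h2, h3, h4, h5]
  have h6 := key K
  have h7 : Real.exp (∑ i ∈ range K, (1 / 4 : ℝ) ^ i) * a K ≤ 4 * a K :=
    mul_le_mul_of_nonneg_right (hE K) (ha K)
  have h8 : ∑ i ∈ range K, (1 / 2 : ℝ) ^ i ≤ 2 := by
    rw [geom_sum_eq (by norm_num)]
    have : (0 : ℝ) ≤ (1 / 2) ^ K := by positivity
    linarith [this, show ((1 / 2 : ℝ) ^ K - 1) / (1 / 2 - 1) = (1 - (1 / 2) ^ K) * 2 by ring]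
  have h9 : D * ∑ i ∈ range K, (1 / 2 : ℝ) ^ i ≤ D * 2 := mul_le_mul_of_nonneg_left h8 hD
  linarith

theorem avg_nonneg {n : ℕ} (g : V n → Fin n → Bool) (p : ℝ) (hp0 : 0 ≤ p) (hp : p ≤ 1) :
    0 ≤ avg g p := by
  unfold avg
  apply div_nonneg _ (by positivity)
  apply Finset.sum_nonneg; intro x _
  apply Finset.sum_nonneg; intro S _
  exact mul_nonneg (prod_bern_nonneg p hp0 hp S) (Nat.cast_nonneg _)

/-- the case of small `n` -/
theorem trivial_bound {n : ℕ} (g : V n → Fin n → Bool) :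
    (∑ x : V n, (cost g x (fun _ => true) : ℝ)) / 2 ^ n ≤ n := by
  rw [div_le_iff₀ (by positivity)]
  calc (∑ x : V n, (cost g x (fun _ => true) : ℝ)) ≤ ∑ x : V n, (n : ℝ) := by
        apply Finset.sum_le_sum
        intro x _
        have := cost_le_card g x (fun _ => true)
        simp only [Finset.filter_true, Finset.card_univ, Fintype.card_fin] at this
        exact_mod_cast this
    _ = n * 2 ^ n := by
        rw [Finset.sum_const, Finset.card_univ]
        simp [mul_comm]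

/-- the statement of `one_step` (piece Step) -/
def OneStepStatement : Prop := ∀ {n R : ℕ} [NeZero n] (hR : 0 < R) (hR2 : Even R)
    (g : V n → Fin n → Bool)
    (hg : ∀ z m, g (flip z m) m = g z m) (p η θ : ℝ) (hp0 : 0 ≤ p) (hp : p ≤ 1 / 2)
    (hη0 : 0 ≤ η) (hη1 : η ≤ 1) (hθ0 : 0 ≤ θ) (hθ1 : θ ≤ 1),
    avg g p ≤ R + Real.exp (n * p ^ 2) * (avg g (p * (1 - η) / 2) + n * (p * η + 2 * p ^ 2))
      + n * (n * (2 * Real.exp (2 * p * n * θ ^ 2 - θ * (η * R / 2))))

/-- the main estimate in terms of the eighth root `x` of `n` -/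
theorem main_bound_aux (one_step : OneStepStatement) {n : ℕ} (hn : 2 ≤ n) (g : V n → Fin n → Bool)
    (hg : ∀ z m, g (flip z m) m = g z m) (x : ℝ) (hx1 : 1 ≤ x) (hx : x ^ 8 = n)
    (hη : 2 * Real.log n ≤ x) :
    (∑ v : V n, (cost g v (fun _ => true) : ℝ)) / 2 ^ n ≤ 600 * (x ^ 7 * Real.log n) := by
  have hne : NeZero n := ⟨by omega⟩
  have hx0 : 0 < x := by linarith
  have hn' : (2 : ℝ) ≤ n := by exact_mod_cast hn
  have hlog : (0.69 : ℝ) ≤ Real.log n := by
    calc (0.69 : ℝ) ≤ Real.log 2 := by linarith [Real.log_two_gt_d9]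
      _ ≤ Real.log n := Real.log_le_log (by norm_num) hn'
  set L := Real.log n with hL
  have hL0 : 0 ≤ L := by linarith
  -- parameters
  set ρ : ℕ := ⌈x ^ 4⌉₊ with hρ
  set R : ℕ := 2 * ⌈x ^ 3⌉₊ with hR
  set η : ℝ := 2 * L / x with hηdef
  set θ : ℝ := 1 / x ^ 2 with hθdef
  have hρge : x ^ 4 ≤ ρ := Nat.le_ceil _
  have hρle : (ρ : ℝ) ≤ 2 * x ^ 4 := by
    have h1 : (ρ : ℝ) < x ^ 4 + 1 := Nat.ceil_lt_add_one (by positivity)
    have h2 : 1 ≤ x ^ 4 := one_le_pow₀ hx1
    linarith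
  have hx4 : 1 < x ^ 4 := by
    by_contra hcon
    have h1 : x ^ 4 ≤ 1 := not_lt.mp hcon
    have h2 : x ^ 8 ≤ 1 := by
      calc x ^ 8 = x ^ 4 * x ^ 4 := by ring
        _ ≤ 1 * 1 := by
          apply mul_le_mul h1 h1 (by positivity) (by norm_num)
        _ = 1 := by norm_num
    rw [hx] at h2
    linarith
  have hρ2 : 2 ≤ ρ := by
    have h1 : (1 : ℝ) < ρ := lt_of_lt_of_le hx4 hρge
    have h2 : 1 < ρ := by exact_mod_cast h1
    omega
  have hρ2' : (2 : ℝ) ≤ ρ := by exact_mod_cast hρ2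
  have hRpos : 0 < R := by
    have : 0 < ⌈x ^ 3⌉₊ := Nat.ceil_pos.mpr (by positivity)
    omega
  have hReven : Even R := ⟨⌈x ^ 3⌉₊, by omega⟩
  have hRge : 2 * x ^ 3 ≤ R := by
    have := Nat.le_ceil (x ^ 3)
    rw [hR]; push_cast; linarith
  have hRle : (R : ℝ) ≤ 4 * x ^ 3 := by
    have h1 : (⌈x ^ 3⌉₊ : ℝ) < x ^ 3 + 1 := Nat.ceil_lt_add_one (by positivity)
    have h2 : 1 ≤ x ^ 3 := one_le_pow₀ hx1
    rw [hR]; push_cast; linarith
  have hη0 : 0 ≤ η := by positivity
  have hη1 : η ≤ 1 := by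
    rw [hηdef, div_le_one hx0]; exact hη
  have hθ0 : 0 ≤ θ := by positivity
  have hθ1 : θ ≤ 1 := by
    rw [hθdef, div_le_one (by positivity)]
    exact one_le_pow₀ hx1
  -- the sequence of probabilities
  set p : ℕ → ℝ := fun k => (1 / ρ : ℝ) * ((1 - η) / 2) ^ k with hp
  have hp0 : ∀ k, 0 ≤ p k := by
    intro k
    have : 0 ≤ (1 - η) / 2 := by linarith
    positivity
  have hple : ∀ k, p k ≤ (1 / x ^ 4) * (1 / 2) ^ k := by
    intro k
    have h0 : 0 ≤ (1 - η) / 2 := by linarith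
    apply mul_le_mul
    · exact one_div_le_one_div_of_le (by positivity) hρge
    · apply pow_le_pow_left₀ h0
      linarith
    · positivity
    · positivity
  have hphalf : ∀ k, p k ≤ 1 / 2 := by
    intro k
    have h0 : 0 ≤ (1 - η) / 2 := by linarith
    have h1 : (1 / ρ : ℝ) ≤ 1 / 2 := one_div_le_one_div_of_le (by norm_num) hρ2'
    have h2 : ((1 - η) / 2) ^ k ≤ 1 := pow_le_one₀ h0 (by linarith)
    calc p k = (1 / ρ : ℝ) * ((1 - η) / 2) ^ k := rfl
      _ ≤ (1 / 2) * 1 := mul_le_mul h1 h2 (by positivity) (by norm_num)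
      _ = 1 / 2 := by norm_num
  have hpsucc : ∀ k, p k * (1 - η) / 2 = p (k + 1) := by
    intro k
    simp only [hp]
    rw [pow_succ]; ring
  set a : ℕ → ℝ := fun k => avg g (p k) with ha
  have ha0 : ∀ k, 0 ≤ a k := fun k => avg_nonneg g (p k) (hp0 k) (by linarith [hphalf k])
  have hxn : (n : ℝ) = x ^ 8 := hx.symm
  -- the one step inequality
  have hstep : ∀ k, a k ≤ (R + 16) + Real.exp ((1 / 4 : ℝ) ^ k) *
      (a (k + 1) + (2 * x ^ 3 * L + 2) * (1 / 2) ^ k) := by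
    intro k
    have h1 := one_step hRpos hReven g hg (p k) η θ (hp0 k) (hphalf k) hη0 hη1 hθ0 hθ1
    rw [hpsucc k] at h1
    have hpk := hple k
    have hpk0 := hp0 k
    -- n p^2
    have h2 : (n : ℝ) * p k ^ 2 ≤ (1 / 4) ^ k := by
      calc (n : ℝ) * p k ^ 2 ≤ x ^ 8 * ((1 / x ^ 4) * (1 / 2) ^ k) ^ 2 := by
            rw [hxn]
            gcongr
        _ = (1 / 4) ^ k := by
            have : ((1 / 4 : ℝ)) ^ k = ((1 / 2) ^ k) ^ 2 := by
              rw [← pow_mul, mul_comm k 2, pow_mul]; norm_num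
            rw [this]
            field_simp
    have h3 : (n : ℝ) * (p k * η + 2 * p k ^ 2) ≤ (2 * x ^ 3 * L + 2) * (1 / 2) ^ k := by
      have e1 : (n : ℝ) * (p k * η) ≤ 2 * x ^ 3 * L * (1 / 2) ^ k := by
        calc (n : ℝ) * (p k * η) ≤ x ^ 8 * (((1 / x ^ 4) * (1 / 2) ^ k) * η) := by
              rw [hxn]
              gcongr
          _ = 2 * x ^ 3 * L * (1 / 2) ^ k := by
              rw [hηdef]
              field_simp
      have e2 : (n : ℝ) * p k ^ 2 ≤ (1 / 2) ^ k := by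
        refine h2.trans ?_
        exact pow_le_pow_left₀ (by norm_num) (by norm_num) k
      calc (n : ℝ) * (p k * η + 2 * p k ^ 2) = (n : ℝ) * (p k * η) + 2 * ((n : ℝ) * p k ^ 2) := by
            ring
        _ ≤ 2 * x ^ 3 * L * (1 / 2) ^ k + 2 * (1 / 2) ^ k := by linarith
        _ = (2 * x ^ 3 * L + 2) * (1 / 2) ^ k := by ring
    -- the error term
    have h4 : (n : ℝ) * (n * (2 * Real.exp (2 * p k * n * θ ^ 2 - θ * (η * R / 2)))) ≤ 16 := by
      have e1 : 2 * p k * n * θ ^ 2 ≤ 2 := by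
        have hk : p k ≤ 1 / x ^ 4 := by
          refine hpk.trans ?_
          have : ((1 / 2 : ℝ)) ^ k ≤ 1 := pow_le_one₀ (by norm_num) (by norm_num)
          calc (1 / x ^ 4) * (1 / 2 : ℝ) ^ k ≤ (1 / x ^ 4) * 1 := by gcongr
            _ = 1 / x ^ 4 := by ring
        calc 2 * p k * n * θ ^ 2 ≤ 2 * (1 / x ^ 4) * x ^ 8 * (1 / x ^ 2) ^ 2 := by
              rw [hxn, hθdef]
              gcongr
          _ = 2 := by field_simp
      have e2 : 2 * L ≤ θ * (η * R / 2) := by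
        calc 2 * L = (1 / x ^ 2) * ((2 * L / x) * (2 * x ^ 3) / 2) := by field_simp
          _ ≤ θ * (η * R / 2) := by
              rw [hθdef, hηdef]
              gcongr
      have e3 : Real.exp (2 * p k * n * θ ^ 2 - θ * (η * R / 2)) ≤ Real.exp 2 / (n : ℝ) ^ 2 := by
        calc Real.exp (2 * p k * n * θ ^ 2 - θ * (η * R / 2)) ≤ Real.exp (2 - 2 * L) :=
              Real.exp_le_exp.mpr (by linarith)
          _ = Real.exp 2 / (n : ℝ) ^ 2 := by
              rw [Real.exp_sub]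
              congr 1
              rw [hL, mul_comm, Real.exp_mul, Real.exp_log (by linarith)]
              norm_num
      have e4 : Real.exp 2 ≤ 8 := by
        have h1 : Real.exp 1 < 2.7182818286 := Real.exp_one_lt_d9
        have h2 : Real.exp 2 = Real.exp 1 ^ 2 := by
          rw [← Real.exp_nat_mul]; norm_num
        rw [h2]
        have h0 : 0 ≤ Real.exp 1 := (Real.exp_pos 1).le
        calc Real.exp 1 ^ 2 ≤ 2.7182818286 ^ 2 := by gcongr
          _ ≤ 8 := by norm_num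
      have hn0 : (0 : ℝ) < n := by linarith
      calc (n : ℝ) * (n * (2 * Real.exp (2 * p k * n * θ ^ 2 - θ * (η * R / 2))))
          ≤ (n : ℝ) * (n * (2 * (Real.exp 2 / (n : ℝ) ^ 2))) := by gcongr
        _ = 2 * Real.exp 2 := by field_simp
        _ ≤ 16 := by linarith
    have h5 : Real.exp (n * p k ^ 2) * (avg g (p (k + 1)) + n * (p k * η + 2 * p k ^ 2))
        ≤ Real.exp ((1 / 4 : ℝ) ^ k) * (a (k + 1) + (2 * x ^ 3 * L + 2) * (1 / 2) ^ k) := by
      have h6 : 0 ≤ avg g (p (k + 1)) := ha0 (k + 1)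
      apply mul_le_mul (Real.exp_le_exp.mpr h2)
      · simp only [ha]; linarith
      · positivity
      · positivity
    simp only [ha] at *
    linarith
  have hiter := iterate_bound a ha0 (R + 16) (2 * x ^ 3 * L + 2) (by positivity) (by positivity)
    hstep (Nat.log 2 n + 1)
  -- the last term
  set K : ℕ := Nat.log 2 n + 1 with hK
  have hKpow : n < 2 ^ K := Nat.lt_pow_succ_log_self (by norm_num) n
  have haK : a K ≤ 1 := by
    have h1 : a K ≤ n * p K := avg_le g (p K) (hp0 K) (by linarith [hphalf K])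
    have h2 : (n : ℝ) * p K ≤ x ^ 8 * ((1 / x ^ 4) * (1 / 2) ^ K) := by
      rw [hxn]
      have := hple K
      gcongr
    have h3 : ((1 / 2 : ℝ)) ^ K ≤ 1 / x ^ 8 := by
      rw [one_div_pow]
      apply one_div_le_one_div_of_le (by positivity)
      rw [hx]
      exact_mod_cast hKpow.le
    have h4 : x ^ 8 * ((1 / x ^ 4) * (1 / 2) ^ K) ≤ x ^ 8 * ((1 / x ^ 4) * (1 / x ^ 8)) := by
      gcongr
    have h5 : x ^ 8 * ((1 / x ^ 4) * (1 / x ^ 8)) = 1 / x ^ 4 := by field_simp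
    have h6 : 1 / x ^ 4 ≤ 1 := by
      rw [div_le_one (by positivity)]; exact hx4.le
    linarith
  have hKle : (K : ℝ) ≤ 3 * L := by
    have h1 : (2 : ℝ) ^ (Nat.log 2 n) ≤ n := by
      exact_mod_cast Nat.pow_log_le_self 2 (by omega)
    have h2 : (Nat.log 2 n : ℝ) * Real.log 2 ≤ L := by
      rw [← Real.log_pow]
      exact Real.log_le_log (by positivity) h1
    have h3 : Real.log 2 ≤ L := Real.log_le_log (by norm_num) hn'
    have h4 := Real.log_two_gt_d9
    have h5 : (K : ℝ) * Real.log 2 ≤ 2 * L := by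
      rw [hK]; push_cast; linarith
    have hK0 : (0 : ℝ) ≤ K := Nat.cast_nonneg _
    nlinarith [h5, h4, hK0]
  have hrounds := rounds (n := n) (ρ := ρ) (by omega) g
  have ha00 : avg g (1 / ρ) = a 0 := by
    simp [ha, hp]
  rw [ha00] at hrounds
  -- final computation
  have hx3 : 1 ≤ x ^ 3 := one_le_pow₀ hx1
  have hxL : 0.69 ≤ x ^ 3 * L := by nlinarith
  have hb : a 0 + 1 ≤ 300 * (x ^ 3 * L) := by
    have h1 : (K : ℝ) * (R + 16) ≤ 3 * L * (20 * x ^ 3) := by
      apply mul_le_mul hKle _ (by positivity) (by positivity)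
      linarith
    nlinarith [hiter, h1, haK, hxL]
  calc (∑ v : V n, (cost g v (fun _ => true) : ℝ)) / 2 ^ n ≤ ρ * (a 0 + 1) := hrounds
    _ ≤ (2 * x ^ 4) * (300 * (x ^ 3 * L)) := by
        apply mul_le_mul hρle hb _ (by positivity)
        have := ha0 0
        linarith
    _ = 600 * (x ^ 7 * L) := by ring

/-- `main_bound` from `one_step` -/
theorem main_bound_of (one_step : OneStepStatement) : ∃ C : ℝ, ∀ n : ℕ, 2 ≤ n → ∀ g : V n → Fin n → Bool,
    (∀ z m, g (flip z m) m = g z m) →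
    (∑ x : V n, (cost g x (fun _ => true) : ℝ)) / 2 ^ n
      ≤ C * ((n : ℝ) ^ (7 / 8 : ℝ) * Real.log n) := by
  refine ⟨600, ?_⟩
  intro n hn g hg
  have hn' : (2 : ℝ) ≤ n := by exact_mod_cast hn
  have hn0 : (0 : ℝ) ≤ n := by linarith
  set x : ℝ := (n : ℝ) ^ (1 / 8 : ℝ) with hxdef
  have hx8 : x ^ 8 = n := by
    rw [hxdef, ← Real.rpow_natCast, ← Real.rpow_mul hn0]
    norm_num
  have hx7 : x ^ 7 = (n : ℝ) ^ (7 / 8 : ℝ) := by
    rw [hxdef, ← Real.rpow_natCast, ← Real.rpow_mul hn0]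
    norm_num
  have hx1 : 1 ≤ x := Real.one_le_rpow (by linarith) (by norm_num)
  rw [← hx7]
  by_cases hη : 2 * Real.log n ≤ x
  · exact main_bound_aux one_step hn g hg x hx1 hx8 hη
  · have h1 := trivial_bound g
    have h2 : (n : ℝ) ≤ 600 * (x ^ 7 * Real.log n) := by
      have h3 : x ≤ 2 * Real.log n := le_of_lt (not_le.mp hη)
      calc (n : ℝ) = x ^ 7 * x := by rw [← hx8]; ring
        _ ≤ x ^ 7 * (2 * Real.log n) := by gcongr
        _ ≤ 600 * (x ^ 7 * Real.log n) := by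
            have h4 : 0 ≤ x ^ 7 * Real.log n := by
              have : 0 ≤ Real.log n := Real.log_nonneg (by linarith)
              positivity
            nlinarith
    linarith

end Pool.MP_801c1a_co.Sub
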