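import Mathlib

/-!
The level colouring: every geodesic from `v` to its antipode has at least `|n - 2|v|| - 1` colour
changes, so the average over `v` is at least `(4/9) √n - 1` (helper48).
-/

set_option autoImplicit false

namespace Pool.MP_801c1a_co.Sub
open Finset

variable {n : ℕ}

/-- sign: `+1` for a step up, `-1` for a step down -/
def sg (b : Bool) : ℤ := if b then -1 else 1

/-- number of `true` coordinates -/
def N (z : Fin n → Bool) : ℕ := (univ.filter (fun i => z i = true)).card

theorem N_update (z : Fin n → Bool) (d : Fin n) :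
    N z = N (Function.update z d false) + (if z d then 1 else 0) := by
  unfold N
  by_cases h : z d = true
  · rw [h, if_pos rfl]
    have : (univ.filter (fun i => z i = true)) =
        insert d (univ.filter (fun i => Function.update z d false i = true)) := by
      ext i
      by_cases hi : i = d
      · subst hi; simp [h]
      · simp [hi]
    rw [this, card_insert_of_notMem]
    simp
  · have h' : z d = false := by simpa using h
    rw [h']
    have : Function.update z d false = z := by
      conv_lhs => rw [← h']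
      exact Function.update_eq_self d z
    rw [this]; simp

/-- the combinatorial inequality on sign sequences -/
theorem sign_ineq (b : ℕ → Bool) (m : ℕ) :
    (∑ i ∈ range (m + 1), sg (b i)) * sg (b m) ≤
        1 + ∑ i ∈ range m, (if b i = b (i + 1) then 1 else 0 : ℤ) ∧
      -((∑ i ∈ range (m + 1), sg (b i)) * sg (b m)) ≤
        ∑ i ∈ range m, (if b i = b (i + 1) then 1 else 0 : ℤ) := by
  induction m with
  | zero => cases h : b 0 <;> simp [sg, h]
  | succ m ih =>
    rw [sum_range_succ (fun i => sg (b i)) (m + 1),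
      sum_range_succ (fun i => (if b i = b (i + 1) then 1 else 0 : ℤ)) m]
    obtain ⟨h1, h2⟩ := ih
    generalize ∑ i ∈ range (m + 1), sg (b i) = A at *
    generalize ∑ i ∈ range m, (if b i = b (i + 1) then 1 else 0 : ℤ) = B at *
    cases hb : b m <;> cases hc : b (m + 1) <;> rw [hb] at h1 h2 <;>
      simp [sg] at h1 h2 ⊢ <;> constructor <;> linarith

theorem sign_ineq' (b : ℕ → Bool) (m : ℕ) :
    |∑ i ∈ range (m + 1), sg (b i)| ≤
        1 + ∑ i ∈ range m, (if b i = b (i + 1) then 1 else 0 : ℤ) := by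
  obtain ⟨h1, h2⟩ := sign_ineq b m
  have h3 : |∑ i ∈ range (m + 1), sg (b i)| =
      |(∑ i ∈ range (m + 1), sg (b i)) * sg (b m)| := by
    rw [abs_mul]
    cases b m <;> simp [sg]
  rw [h3, abs_le]
  constructor <;> linarith

/-- the level colouring: parity of the number of `true` coordinates of the lower end -/
def lev (z : Fin n → Bool) (_ : Fin n) : Bool := decide (N z % 2 = 1)

theorem lev_changes (v : Fin n → Bool) (σ : Equiv.Perm (Fin n)) (i j : Fin n)
    (hij : j.val = i.val + 1) :
    (lev (Function.update (fun x : Fin n => v x != decide ((σ.symm x).val < i.val)) (σ i) false)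
        (σ i) ≠
      lev (Function.update (fun x : Fin n => v x != decide ((σ.symm x).val < j.val)) (σ j) false)
        (σ j)) ↔ v (σ i) = v (σ j) := by
  set y : Fin n → Bool := fun x => v x != decide ((σ.symm x).val < i.val) with hy
  set y' : Fin n → Bool := fun x => v x != decide ((σ.symm x).val < j.val) with hy'
  have e1 : y (σ i) = v (σ i) := by simp [hy]
  have e2 : y' (σ j) = v (σ j) := by simp [hy']
  have e3 : y' (σ i) = !v (σ i) := by
    have : i < j := Fin.lt_def.2 (by omega)
    simp [hy', this]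
  have e4 : Function.update y' (σ i) false = Function.update y (σ i) false := by
    funext x
    by_cases hx : x = σ i
    · subst hx; simp
    · have hne : σ.symm x ≠ i := fun h => hx (by rw [← h]; simp)
      have hne' : (σ.symm x).val ≠ i.val := fun h => hne (Fin.ext h)
      simp only [Function.update_of_ne hx, hy, hy']
      congr 2
      rw [hij]
      apply propext
      omega
  have h1 := N_update y' (σ i)
  have h2 := N_update y' (σ j)
  rw [e3, e4] at h1
  rw [e2] at h2
  unfold lev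
  generalize N (Function.update y (σ i) false) = a at *
  generalize N (Function.update y' (σ j) false) = a' at *
  cases hvi : v (σ i) <;> cases hvj : v (σ j) <;> simp [hvi, hvj] at h1 h2 ⊢ <;> omega

/-- `∑ ±1` over the coordinates -/
def Sg (v : Fin n → Bool) : ℤ := ∑ d, sg (v d)

theorem changes_lower (v : Fin n → Bool) (σ : Equiv.Perm (Fin n)) (hn : 1 ≤ n) :
    |(Sg v : ℝ)| - 1 ≤ ((univ.filter (fun i : Fin n => ∃ j : Fin n, j.val = i.val + 1 ∧
        lev (Function.update (fun x : Fin n => v x != decide ((σ.symm x).val < i.val)) (σ i) false)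
            (σ i)
          ≠ lev (Function.update (fun x : Fin n => v x != decide ((σ.symm x).val < j.val)) (σ j)
              false) (σ j))).card : ℝ) := by
  classical
  set b : ℕ → Bool := fun i => if h : i < n then v (σ ⟨i, h⟩) else false with hb
  have hSg : Sg v = ∑ i ∈ range n, sg (b i) := by
    unfold Sg
    rw [← Equiv.sum_comp σ (fun d => sg (v d)), ← Fin.sum_univ_eq_sum_range (fun i => sg (b i)) n]
    refine sum_congr rfl fun i _ => ?_
    simp [hb]
  obtain ⟨m, rfl⟩ : ∃ m, n = m + 1 := ⟨n - 1, by omega⟩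
  have h1 := sign_ineq' b m
  rw [← hSg] at h1
  have h2 : (∑ i ∈ range m, (if b i = b (i + 1) then 1 else 0 : ℤ)) =
      (((range m).filter (fun i => b i = b (i + 1))).card : ℤ) := by
    rw [card_filter]; push_cast; rfl
  have h3 : ((range m).filter (fun i => b i = b (i + 1))).card ≤
      (univ.filter (fun i : Fin (m + 1) => ∃ j : Fin (m + 1), j.val = i.val + 1 ∧
        lev (Function.update (fun x : Fin (m + 1) => v x != decide ((σ.symm x).val < i.val))
            (σ i) false) (σ i)
          ≠ lev (Function.update (fun x : Fin (m + 1) => v x != decide ((σ.symm x).val < j.val))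
              (σ j) false) (σ j))).card := by
    refine card_le_card_of_injOn (fun i => if h : i < m + 1 then (⟨i, h⟩ : Fin (m + 1)) else 0)
      ?_ ?_
    · intro i hi
      simp only [coe_filter, mem_range, Set.mem_ofPred_eq] at hi
      have hi1 : i < m + 1 := by omega
      have hi2 : i + 1 < m + 1 := by omega
      simp only [dif_pos hi1]
      simp only [coe_filter, mem_univ, true_and, Set.mem_ofPred_eq]
      refine ⟨⟨i + 1, hi2⟩, rfl, ?_⟩
      rw [lev_changes v σ ⟨i, hi1⟩ ⟨i + 1, hi2⟩ rfl]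
      have e1 : b i = v (σ ⟨i, hi1⟩) := by simp only [hb]; rw [dif_pos hi1]
      have e2 : b (i + 1) = v (σ ⟨i + 1, hi2⟩) := by simp only [hb]; rw [dif_pos hi2]
      rw [← e1, ← e2]
      exact hi.2
    · intro i hi k hk hik
      simp only [coe_filter, mem_range, Set.mem_ofPred_eq] at hi hk
      have hi1 : i < m + 1 := by omega
      have hk1 : k < m + 1 := by omega
      simp only [dif_pos hi1, dif_pos hk1] at hik
      simpa using hik
  have h4 : (|(Sg v : ℝ)|) ≤ 1 + (((range m).filter (fun i => b i = b (i + 1))).card : ℝ) := by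
    rw [h2] at h1
    exact_mod_cast h1
  have h5 : (((range m).filter (fun i => b i = b (i + 1))).card : ℝ) ≤ _ :=
    Nat.cast_le.2 h3
  linarith

/-! ### moments -/

theorem sum_succ (f : ℤ → ℝ) (n : ℕ) :
    ∑ v : Fin (n + 1) → Bool, f (Sg v) = ∑ v : Fin n → Bool, (f (Sg v + 1) + f (Sg v - 1)) := by
  rw [← Equiv.sum_comp (Fin.consEquiv (fun _ : Fin (n + 1) => Bool)), Fintype.sum_prod_type,
    Fintype.sum_bool, ← sum_add_distrib]
  refine sum_congr rfl fun v _ => ?_
  have h : ∀ b : Bool, Sg ((Fin.consEquiv (fun _ : Fin (n + 1) => Bool)) (b, v)) =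
      Sg v + sg b := by
    intro b
    unfold Sg
    rw [Fin.sum_univ_succ]
    simp [Fin.consEquiv, add_comm]
  rw [h, h]
  simp only [sg]
  norm_num
  rw [add_comm]
  rfl

theorem moment0 (n : ℕ) : ∑ _v : Fin n → Bool, (1 : ℝ) = 2 ^ n := by
  rw [sum_const, card_univ, nsmul_eq_mul, mul_one]; simp

theorem moment2 (n : ℕ) : ∑ v : Fin n → Bool, ((Sg v : ℤ) : ℝ) ^ 2 = n * 2 ^ n := by
  induction n with
  | zero => simp [Sg]
  | succ n ih =>
    rw [sum_succ (fun z : ℤ => ((z : ℤ) : ℝ) ^ 2) n]
    have h : ∀ v : Fin n → Bool, (((Sg v + 1 : ℤ) : ℝ) ^ 2 + ((Sg v - 1 : ℤ) : ℝ) ^ 2) =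
        2 * ((Sg v : ℤ) : ℝ) ^ 2 + 2 * 1 := by
      intro v; push_cast; ring
    rw [sum_congr rfl (fun v _ => h v), sum_add_distrib, ← mul_sum, ← mul_sum, ih, moment0]
    push_cast; ring

theorem moment4 (n : ℕ) : ∑ v : Fin n → Bool, ((Sg v : ℤ) : ℝ) ^ 4 = (3 * n ^ 2 - 2 * n) * 2 ^ n := by
  induction n with
  | zero => simp [Sg]
  | succ n ih =>
    rw [sum_succ (fun z : ℤ => ((z : ℤ) : ℝ) ^ 4) n]
    have h : ∀ v : Fin n → Bool, (((Sg v + 1 : ℤ) : ℝ) ^ 4 + ((Sg v - 1 : ℤ) : ℝ) ^ 4) =
        2 * ((Sg v : ℤ) : ℝ) ^ 4 + 12 * ((Sg v : ℤ) : ℝ) ^ 2 + 2 * 1 := by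
      intro v; push_cast; ring
    rw [sum_congr rfl (fun v _ => h v), sum_add_distrib, sum_add_distrib, ← mul_sum, ← mul_sum,
      ← mul_sum, ih, moment2, moment0]
    push_cast; ring

theorem abs_lower (y : ℝ) (a : ℝ) (ha : 0 < a) : 2 * (y ^ 2 / a - y ^ 4 / a ^ 3) ≤ |y| := by
  set z := |y| / a with hz
  have hz0 : 0 ≤ z := by positivity
  have h1 : y ^ 2 / a = a * z ^ 2 := by
    rw [hz, div_pow, sq_abs]; field_simp
  have h2 : y ^ 4 / a ^ 3 = a * z ^ 4 := by
    rw [hz, div_pow]
    have : |y| ^ 4 = y ^ 4 := by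
      rw [show (4 : ℕ) = 2 * 2 by norm_num, pow_mul, pow_mul, sq_abs]
    rw [this]; field_simp
  have h3 : |y| = a * z := by rw [hz]; field_simp
  rw [h1, h2, h3]
  have h4 : 2 * (z ^ 2 - z ^ 4) ≤ z := by
    nlinarith [sq_nonneg (z - 1 / 2), mul_nonneg hz0 (sq_nonneg (z - 1 / 2)),
      mul_nonneg hz0 (mul_nonneg hz0 hz0), sq_nonneg (z - 3 / 5),
      mul_nonneg hz0 (sq_nonneg (z - 3 / 5)), mul_nonneg hz0 (mul_nonneg hz0 (sq_nonneg (z - 3 / 5)))]
  nlinarith

theorem abs_avg (n : ℕ) (hn : 1 ≤ n) :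
    4 / 9 * Real.sqrt n * 2 ^ n ≤ ∑ v : Fin n → Bool, |((Sg v : ℤ) : ℝ)| := by
  have hn0 : (0 : ℝ) < n := by exact_mod_cast hn
  set r := Real.sqrt n with hr
  have hr0 : 0 < r := Real.sqrt_pos.2 hn0
  have hr2 : r ^ 2 = n := Real.sq_sqrt hn0.le
  have h1 : ∑ v : Fin n → Bool, 2 * (((Sg v : ℤ) : ℝ) ^ 2 / (3 * r) -
      ((Sg v : ℤ) : ℝ) ^ 4 / (3 * r) ^ 3) ≤ ∑ v : Fin n → Bool, |((Sg v : ℤ) : ℝ)| :=
    sum_le_sum fun v _ => abs_lower _ _ (by positivity)
  rw [← mul_sum, sum_sub_distrib, ← sum_div, ← sum_div, moment2, moment4] at h1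
  refine le_trans ?_ h1
  have hp : (0 : ℝ) < 2 ^ n := by positivity
  have e1 : (n : ℝ) * 2 ^ n / (3 * r) = r / 3 * 2 ^ n := by
    rw [← hr2]; field_simp
  have e2 : (3 * (n : ℝ) ^ 2 - 2 * n) * 2 ^ n / (3 * r) ^ 3 =
      (r / 9 - 2 / (27 * r)) * 2 ^ n := by
    rw [← hr2]; field_simp; ring
  rw [e1, e2]
  have h3 : 0 < 2 / (27 * r) := by positivity
  nlinarith

end Pool.MP_801c1a_co.Sub
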