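import Pool.Agent.Lib_MP_801c1a_co.Defs

/-!
Piece Perm for MP_801c1a_co (helper30): the optimal list of all directions as a permutation.
-/

set_option autoImplicit false
set_option linter.unusedVariables false

namespace Pool.MP_801c1a_co.Sub
open Finset

theorem cols_length {n : ℕ} (g : V n → Fin n → Bool) (L : List (Fin n)) :
    ∀ z : V n, (cols g z L).length = L.length := by
  induction L with
  | nil => intro z; rfl
  | cons m L ih => intro z; simp [cols, ih]

theorem cols_getD {n : ℕ} (g : V n → Fin n → Bool) (m0 : Fin n) (L : List (Fin n)) :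
    ∀ (z : V n) (i : ℕ), L.Nodup → i < L.length → (cols g z L).getD i false =
      g (fun x => z x != decide (x ∈ L.take i)) (L.getD i m0) := by
  induction L with
  | nil => intro z i _ hi; simp at hi
  | cons m L ih =>
    intro z i hL hi
    rw [List.nodup_cons] at hL
    cases i with
    | zero => simp [cols]
    | succ k =>
      have hk : k < L.length := by simpa using hi
      have h1 := ih (flip z m) k hL.2 hk
      simp only [cols, List.getD_cons_succ]
      rw [h1]
      congr 1
      funext x
      by_cases hx : x = m
      · subst hx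
        have : x ∉ L.take k := fun h => hL.1 (List.mem_of_mem_take h)
        simp [flip, this]
      · simp [flip, hx]

theorem chg_eq_sum (l : List Bool) : chg l =
    ∑ i ∈ range (l.length - 1), if l.getD i false = l.getD (i + 1) false then 0 else 1 := by
  induction l with
  | nil => rfl
  | cons a l ih =>
    cases l with
    | nil => rfl
    | cons b l =>
      have h1 : chg (a :: b :: l) = (if a = b then 0 else 1) + chg (b :: l) := rfl
      rw [h1, ih]
      simp only [List.length_cons, Nat.add_sub_cancel]
      rw [sum_range_succ', add_comm]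
      simp

theorem card_eq_sum {n : ℕ} (C : ℕ → Bool) :
    (univ.filter (fun i : Fin n => ∃ j : Fin n, j.val = i.val + 1 ∧ C i.val ≠ C j.val)).card =
      ∑ i ∈ range (n - 1), if C i = C (i + 1) then 0 else 1 := by
  rw [card_filter]
  have h1 : ∀ i : Fin n, (if ∃ j : Fin n, j.val = i.val + 1 ∧ C i.val ≠ C j.val then 1 else 0) =
      (fun i : ℕ => if i + 1 < n ∧ C i ≠ C (i + 1) then 1 else 0) i.val := by
    intro i
    simp only
    congr 1
    apply propext
    constructor
    · rintro ⟨j, hj, hC⟩
      rw [hj] at hC
      exact ⟨hj ▸ j.2, hC⟩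
    · rintro ⟨h, hC⟩
      exact ⟨⟨i.val + 1, h⟩, rfl, hC⟩
  rw [sum_congr rfl (fun i _ => h1 i), Fin.sum_univ_eq_sum_range
    (fun i : ℕ => if i + 1 < n ∧ C i ≠ C (i + 1) then 1 else 0) n]
  cases n with
  | zero => rfl
  | succ k =>
    rw [sum_range_succ, Nat.add_sub_cancel]
    simp only [lt_irrefl, false_and, if_false, add_zero]
    refine sum_congr rfl fun i hi => ?_
    have hi' : i + 1 < k + 1 := by simpa using hi
    by_cases h : C i = C (i + 1)
    · simp [h]
    · simp [h, hi']

/-- translation to permutations (statement used in the final theorem) -/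
theorem exists_perm {n : ℕ} (c : V n → Fin n → Bool) (v : V n) :
    ∃ σ : Equiv.Perm (Fin n),
      (univ.filter (fun i : Fin n => ∃ j : Fin n, j.val = i.val + 1 ∧
        c (Function.update (fun x : Fin n => v x != decide ((σ.symm x).val < i.val)) (σ i) false) (σ i)
          ≠ c (Function.update (fun x : Fin n => v x != decide ((σ.symm x).val < j.val)) (σ j) false)
              (σ j))).card
        = cost (fun z m => c (Function.update z m false) m) v (fun _ => true) := by
  set g : V n → Fin n → Bool := fun z m => c (Function.update z m false) m with hg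
  have hne : {k | ∃ L : List (Fin n), L.Nodup ∧ (∀ m, m ∈ L ↔ (fun _ : Fin n => true) m = true) ∧
      chg (cols g v L) = k}.Nonempty :=
    ⟨_, List.finRange n, List.nodup_finRange n, fun m => by simp, rfl⟩
  obtain ⟨L, hL1, hL2, hL3⟩ := Nat.sInf_mem hne
  have hL2' : ∀ m, m ∈ L := fun m => (hL2 m).2 rfl
  have hlen : L.length = n := by
    have h1 := List.toFinset_card_of_nodup hL1
    have h2 : L.toFinset = univ := by
      ext m; simp [hL2' m]
    rw [h2, card_univ, Fintype.card_fin] at h1
    exact h1.symm
  set e : Fin L.length ≃ Fin n := hL1.getEquivOfForallMemList L hL2' with he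
  set σ : Equiv.Perm (Fin n) := (finCongr hlen.symm).trans e with hσ
  refine ⟨σ, ?_⟩
  have hσi : ∀ i : Fin n, σ i = L[i.val]'(by rw [hlen]; exact i.2) := by
    intro i
    rfl
  have hmem : ∀ (i : Fin n) (x : Fin n), x ∈ L.take i.val ↔ (σ.symm x).val < i.val := by
    intro i x
    obtain ⟨y, rfl⟩ := σ.surjective x
    rw [Equiv.symm_apply_apply, hσi y]
    constructor
    · intro h
      rw [List.mem_take_iff_getElem] at h
      obtain ⟨j, hj, hj2⟩ := h
      have h3 := (List.Nodup.getElem_inj_iff hL1).1 hj2
      rw [← h3]
      exact (lt_min_iff.1 hj).1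
    · intro h
      rw [List.mem_take_iff_getElem]
      exact ⟨y.val, lt_min h (by rw [hlen]; exact y.2), rfl⟩
  have hC : ∀ i : Fin n, (cols g v L).getD i.val false =
      c (Function.update (fun x : Fin n => v x != decide ((σ.symm x).val < i.val)) (σ i) false)
        (σ i) := by
    intro i
    have hi : i.val < L.length := by rw [hlen]; exact i.2
    rw [cols_getD g i L v i.val hL1 hi, List.getD_eq_getElem _ _ hi, hσi i, hg]
    simp only
    congr 2
    funext x
    congr 2
    exact propext (hmem i x)
  have hcost : cost g v (fun _ => true) = chg (cols g v L) := hL3.symm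
  rw [hcost, chg_eq_sum, cols_length, hlen, ← card_eq_sum]
  congr 1
  refine filter_congr fun i _ => ?_
  refine exists_congr fun j => and_congr_right fun hj => ?_
  rw [hC i, hC j]

end Pool.MP_801c1a_co.Sub
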