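import Pool.Agent.Lib_MP_801c1a_co.Step
import Pool.Agent.Lib_MP_801c1a_co.Iter
import Pool.Agent.Lib_MP_801c1a_co.Perm

set_option autoImplicit false

namespace Pool.MP_801c1a_co.Sub
open Finset

theorem main_bound_600 {n : ℕ} (hn : 2 ≤ n) (g : V n → Fin n → Bool)
    (hg : ∀ z m, g (flip z m) m = g z m) :
    (∑ x : V n, (cost g x (fun _ => true) : ℝ)) / 2 ^ n
      ≤ 600 * ((n : ℝ) ^ (7 / 8 : ℝ) * Real.log n) := by
  have one_step' : OneStepStatement := by
    intro n R _ hR hR2 g hg p η θ hp0 hp hη0 hη1 hθ0 hθ1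
    exact one_step hR hR2 g hg p η θ hp0 hp hη0 hη1 hθ0 hθ1
  have hn' : (2 : ℝ) ≤ n := by exact_mod_cast hn
  have hn0 : (0 : ℝ) ≤ n := by linarith
  set x : ℝ := (n : ℝ) ^ (1 / 8 : ℝ) with hxdef
  have hx8 : x ^ 8 = n := by
    rw [hxdef, ← Real.rpow_natCast, ← Real.rpow_mul hn0]
    norm_num
  have hx7 : x ^ 7 = (n : ℝ) ^ (7 / 8 : ℝ) := by
    rw [hxdef, ← Real.rpow_natCast, ← Real.rpow_mul hn0]
    norm_num
  have hx1 : 1 ≤ x := Real.one_le_rpow (by linarith) (by norm_num)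
  rw [← hx7]
  by_cases hη : 2 * Real.log n ≤ x
  · exact main_bound_aux one_step' hn g hg x hx1 hx8 hη
  · have h1 := trivial_bound g
    have h2 : (n : ℝ) ≤ 600 * (x ^ 7 * Real.log n) := by
      have h3 : x ≤ 2 * Real.log n := le_of_lt (not_le.mp hη)
      calc (n : ℝ) = x ^ 7 * x := by rw [← hx8]; ring
        _ ≤ x ^ 7 * (2 * Real.log n) := by gcongr
        _ ≤ 600 * (x ^ 7 * Real.log n) := by
            have h4 : 0 ≤ x ^ 7 * Real.log n := by
              have : 0 ≤ Real.log n := Real.log_nonneg (by linarith)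
              positivity
            nlinarith
    linarith

end Pool.MP_801c1a_co.Sub
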