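import Pool.Agent.Lib_MP_801c1a_co.Defs

/-!
The walk of the process is a geodesic with few colour changes.
-/

set_option autoImplicit false

namespace Pool.MP_801c1a_co.Sub
open Finset

theorem exists_cost_aux {n : ℕ} (g : V n → Fin n → Bool) (y W : V n) :
    ∃ L : List (Fin n), L.Nodup ∧ (∀ m, m ∈ L ↔ W m = true) ∧ chg (cols g y L) = cost g y W := by
  have h : {k | ∃ L : List (Fin n), L.Nodup ∧ (∀ m, m ∈ L ↔ W m = true) ∧
      chg (cols g y L) = k}.Nonempty := by
    refine ⟨_, (univ.filter (fun m => W m = true)).toList, Finset.nodup_toList _, ?_, rfl⟩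
    intro m
    simp
  exact Nat.sInf_mem h

theorem cost_le_aux {n : ℕ} (g : V n → Fin n → Bool) (y W : V n) (L : List (Fin n)) (h1 : L.Nodup)
    (h2 : ∀ m, m ∈ L ↔ W m = true) : cost g y W ≤ chg (cols g y L) :=
  Nat.sInf_le ⟨L, h1, h2, rfl⟩

/-- the end point of the walk -/
def endp {n : ℕ} (z : V n) (L : List (Fin n)) : V n := L.foldl flip z

theorem cols_append_aux {n : ℕ} (g : V n → Fin n → Bool) (L L' : List (Fin n)) (z : V n) :
    cols g z (L ++ L') = cols g z L ++ cols g (endp z L) L' := by
  induction L generalizing z with
  | nil => rfl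
  | cons m L ih =>
    change g z m :: cols g (flip z m) (L ++ L') = g z m :: (cols g (flip z m) L ++ _)
    rw [ih]
    rfl

theorem chg_append_aux (a b : List Bool) : chg (a ++ b) ≤ chg a + 1 + chg b := by
  induction a with
  | nil => simp [chg]
  | cons x a ih =>
    cases a with
    | nil =>
      cases b with
      | nil => simp [chg]
      | cons y b =>
        simp only [List.cons_append, List.nil_append, chg]
        split_ifs <;> omega
    | cons x' a =>
      simp only [List.cons_append, chg] at ih ⊢
      omega

theorem chg_concat_aux (a : List Bool) (c d : Bool) (h : a.getLast? = some c) :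
    chg (a ++ [d]) = chg a + (if c = d then 0 else 1) := by
  induction a with
  | nil => simp at h
  | cons x a ih =>
    cases a with
    | nil =>
      simp only [List.getLast?_singleton, Option.some.injEq] at h
      subst h
      simp [chg]
    | cons x' a =>
      rw [List.getLast?_cons_cons] at h
      have := ih h
      simp only [List.cons_append, chg] at this ⊢
      omega

/-- the list of the directions used before time `t` -/
theorem process_list {n R : ℕ} [NeZero n] (g : V n → Fin n → Bool)
    (lam : Fin n → Fin (R + 1)) (x : V n) (t : ℕ) :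
    ∃ L : List (Fin n), L.Nodup ∧ (∀ m, m ∈ L ↔ pos g lam x t m ≠ x m) ∧
      (∀ m ∈ L, (lam m).val * n + m.val < t) ∧ endp x L = pos g lam x t ∧
      (L = [] ∨ ∃ j, j * n < t ∧ (cols g x L).getLast? = some (col j) ∧ chg (cols g x L) ≤ j) := by
  have hn : 0 < n := Nat.pos_of_ne_zero (NeZero.ne n)
  induction t with
  | zero =>
    exact ⟨[], List.nodup_nil, by simp [pos], by simp, rfl, Or.inl rfl⟩
  | succ t ih =>
    obtain ⟨L, h1, h2, h3, h4, h5⟩ := ih
    by_cases hc : (lam (dir n t)).val = t / n ∧ g (pos g lam x t) (dir n t) = col (t / n)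
    · have hpos : pos g lam x (t + 1) = flip (pos g lam x t) (dir n t) := by
        rw [pos, step, if_pos hc]
      set m := dir n t with hm
      have hmval : m.val = t % n := rfl
      have hmt : (lam m).val * n + m.val = t := by
        rw [hc.1, hmval, mul_comm]
        exact Nat.div_add_mod t n
      have hmL : m ∉ L := by
        intro h
        have := h3 m h
        omega
      have hxm : pos g lam x t m = x m := by
        by_contra h
        exact hmL ((h2 m).2 h)
      refine ⟨L ++ [m], ?_, ?_, ?_, ?_, Or.inr ⟨t / n, ?_, ?_, ?_⟩⟩
      · rw [List.nodup_append]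
        refine ⟨h1, List.nodup_singleton _, ?_⟩
        intro a ha b hb hab
        rw [List.mem_singleton] at hb
        rw [hab, hb] at ha
        exact hmL ha
      · intro m'
        rw [hpos, List.mem_append, List.mem_singleton]
        by_cases hmm : m' = m
        · rw [hmm]
          simp [flip, hxm]
        · rw [h2 m']
          simp [flip, hmm, Function.update_of_ne]
      · intro m' hm'
        rw [List.mem_append, List.mem_singleton] at hm'
        rcases hm' with h | h
        · exact Nat.lt_succ_of_lt (h3 m' h)
        · rw [h, hmt]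
          exact Nat.lt_succ_self t
      · unfold endp at h4 ⊢
        rw [List.foldl_append, h4, hpos]
        rfl
      · have := Nat.div_mul_le_self t n
        omega
      · rw [cols_append_aux, h4]
        have : cols g (pos g lam x t) [m] = [col (t / n)] := by
          simp [cols, hc.2]
        rw [this]
        simp
      · rw [cols_append_aux, h4]
        have hcl : cols g (pos g lam x t) [m] = [col (t / n)] := by
          simp [cols, hc.2]
        rw [hcl]
        rcases h5 with h5 | ⟨j, hj1, hj2, hj3⟩
        · rw [h5]
          simp [cols, chg]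
        · rw [chg_concat_aux _ _ _ hj2]
          have hjt : j ≤ t / n := (Nat.le_div_iff_mul_le hn).2 hj1.le
          rcases hjt.eq_or_lt with h6 | h6
          · rw [h6, if_pos rfl]
            omega
          · split_ifs <;> omega
    · have hpos : pos g lam x (t + 1) = pos g lam x t := by
        rw [pos, step, if_neg hc]
      rw [hpos]
      refine ⟨L, h1, h2, fun m hm => Nat.lt_succ_of_lt (h3 m hm), h4, ?_⟩
      rcases h5 with h5 | ⟨j, hj1, hj2, hj3⟩
      · exact Or.inl h5
      · exact Or.inr ⟨j, Nat.lt_succ_of_lt hj1, hj2, hj3⟩

/-- the walk of the process is a geodesic with at most `R - 1` colour changes; then the rest -/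
theorem cost_process {n R : ℕ} [NeZero n] (hR : 0 < R) (g : V n → Fin n → Bool)
    (lam : Fin n → Fin (R + 1)) (x : V n) :
    cost g x (supp lam) ≤ R + cost g (pos g lam x (R * n)) (rest g lam x) := by
  obtain ⟨L, h1, h2, h3, h4, h5⟩ := process_list g lam x (R * n)
  obtain ⟨L', l1, l2, l3⟩ := exists_cost_aux g (pos g lam x (R * n)) (rest g lam x)
  have hchg : chg (cols g x L) + 1 ≤ R := by
    rcases h5 with h5 | ⟨j, hj1, hj2, hj3⟩
    · rw [h5]
      simp only [cols, chg]
      omega
    · have : j < R := lt_of_mul_lt_mul_right hj1 (Nat.zero_le n)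
      omega
  have hrest : ∀ m, rest g lam x m = true ↔
      (lam m ≠ Fin.last R ∧ pos g lam x (R * n) m = x m) := by
    intro m
    unfold rest
    rw [Bool.and_eq_true, decide_eq_true_eq, decide_eq_true_eq]
  have hlast : ∀ m ∈ L, lam m ≠ Fin.last R := by
    intro m hm h
    have h6 := h3 m hm
    rw [h, Fin.val_last] at h6
    omega
  have hle := cost_le_aux g x (supp lam) (L ++ L') (by
    rw [List.nodup_append]
    refine ⟨h1, l1, ?_⟩
    intro a ha b hb hab
    rw [← hab, l2, hrest] at hb
    exact (h2 a).1 ha hb.2) (by
    intro m
    rw [List.mem_append, l2, hrest]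
    unfold supp
    rw [decide_eq_true_eq]
    constructor
    · rintro (h | h)
      · exact hlast m h
      · exact h.1
    · intro h
      by_cases h6 : pos g lam x (R * n) m = x m
      · exact Or.inr ⟨h, h6⟩
      · exact Or.inl ((h2 m).2 h6))
  refine hle.trans ?_
  rw [cols_append_aux, h4]
  refine (chg_append_aux _ _).trans ?_
  rw [l3]
  omega

end Pool.MP_801c1a_co.Sub
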