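import Pool.Agent.Lib_MP_801c1a_co.Conc
import Pool.Agent.Lib_MP_801c1a_co.PathA
import Pool.Agent.Lib_MP_801c1a_co.PathB

set_option autoImplicit false

namespace Pool.MP_801c1a_co.Sub
open Finset

/-- the time at which direction `m` arrives -/
def arrTime {n R : ℕ} (lam : Fin n → Fin (R + 1)) (m : Fin n) : ℕ := (lam m).val * n + m.val

theorem step_ne {n R : ℕ} [NeZero n] (g : V n → Fin n → Bool) (lam : Fin n → Fin (R + 1))
    (z : V n) (m : Fin n) (r : ℕ) (hr : r ≠ arrTime lam m) : step g lam r z m = z m := by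
  unfold step
  split_ifs with h
  · unfold flip
    by_cases hm : m = dir n r
    · exfalso
      apply hr
      unfold arrTime
      have h1 := h.1
      rw [← hm] at h1
      have h2 : m.val = r % n := by rw [hm, dir_val]
      rw [h1, h2, mul_comm, Nat.div_add_mod]
    · rw [Function.update_of_ne hm]
  · rfl

theorem pos_before {n R : ℕ} [NeZero n] (g : V n → Fin n → Bool) (lam : Fin n → Fin (R + 1))
    (x : V n) (m : Fin n) (s : ℕ) (hs : s ≤ arrTime lam m) : pos g lam x s m = x m := by
  induction s with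
  | zero => rfl
  | succ s ih =>
    simp only [pos]
    rw [step_ne g lam _ m s (by omega), ih (by omega)]

theorem pos_after {n R : ℕ} [NeZero n] (g : V n → Fin n → Bool) (lam : Fin n → Fin (R + 1))
    (x : V n) (m : Fin n) (s : ℕ) :
    pos g lam x (arrTime lam m + 1 + s) m = pos g lam x (arrTime lam m + 1) m := by
  induction s with
  | zero => rfl
  | succ s ih =>
    rw [← Nat.add_assoc]
    change step g lam (arrTime lam m + 1 + s) (pos g lam x (arrTime lam m + 1 + s)) m = _
    rw [step_ne g lam _ m _ (by omega), ih]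

/-- a direction that is not flipped in the end is never flipped -/
theorem no_flip {n R : ℕ} [NeZero n] (g : V n → Fin n → Bool) (lam : Fin n → Fin (R + 1))
    (x : V n) (m : Fin n) (h : pos g lam x (R * n) m = x m) (t : ℕ) (ht : t < R * n)
    (hd : dir n t = m) : ¬ ((lam m).val = t / n ∧ g (pos g lam x t) m = col (t / n)) := by
  intro hc
  have hT : arrTime lam m = t := by
    unfold arrTime
    have h2 : m.val = t % n := by rw [← hd, dir_val]
    rw [hc.1, h2, mul_comm, Nat.div_add_mod]
  have h1 : pos g lam x t m = x m := pos_before g lam x m t hT.ge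
  have h2 : pos g lam x (t + 1) m = !(x m) := by
    simp only [pos, step, hd]
    rw [if_pos hc]
    simp [flip, h1]
  have h3 := pos_after g lam x m (R * n - (t + 1))
  rw [hT] at h3
  have h4 : t + 1 + (R * n - (t + 1)) = R * n := by omega
  rw [h4, h2, h] at h3
  cases hx : x m <;> simp [hx] at h3

/-- removing the label of an unflipped direction does not change the walk -/
theorem pos_remove {n R : ℕ} [NeZero n] (g : V n → Fin n → Bool) (lam : Fin n → Fin (R + 1))
    (x : V n) (m : Fin n) (h : pos g lam x (R * n) m = x m) (t : ℕ) (ht : t ≤ R * n) :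
    pos g (Function.update lam m (Fin.last R)) x t = pos g lam x t := by
  induction t with
  | zero => rfl
  | succ t ih =>
    simp only [pos]
    rw [ih (by omega)]
    by_cases hd : dir n t = m
    · have h1 := no_flip g lam x m h t (by omega) hd
      have h2 : t / n < R := phase_lt (by omega)
      unfold step
      rw [hd, if_neg h1, if_neg]
      intro hc
      have := hc.1
      rw [Function.update_self, Fin.val_last] at this
      omega
    · unfold step
      rw [Function.update_of_ne hd]

theorem mis_remove {n R : ℕ} [NeZero n] (g : V n → Fin n → Bool) (lam : Fin n → Fin (R + 1))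
    (x : V n) (m : Fin n) (h : pos g lam x (R * n) m = x m) :
    mis g (Function.update lam m (Fin.last R)) x m = mis g lam x m := by
  unfold mis
  congr 1
  apply Finset.filter_congr
  intro i hi
  have hi := Finset.mem_range.mp hi
  rw [pos_remove g lam x m h]
  have hm := m.isLt
  calc i * n + m.val ≤ i * n + n := by omega
    _ = (i + 1) * n := by ring
    _ ≤ R * n := Nat.mul_le_mul_right _ hi

/-! ### The fibre of a path -/

/-- labels `b` of `m` that are compatible with the path `q` -/
def cons {n R : ℕ} [NeZero n] (g : V n → Fin n → Bool) (q : ℕ → V n) (m : Fin n)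
    (b : Fin (R + 1)) : Prop :=
  ∀ t < R * n, dir n t = m →
    q (t + 1) = if b.val = t / n ∧ g (q t) m = col (t / n) then flip (q t) m else q t

theorem fiber_iff {n R : ℕ} [NeZero n] (g : V n → Fin n → Bool) (lam : Fin n → Fin (R + 1))
    (x : V n) (q : ℕ → V n) (hq : q 0 = x) :
    (∀ t ≤ R * n, pos g lam x t = q t) ↔ ∀ m, cons g q m (lam m) := by
  constructor
  · intro h m t ht hd
    rw [← h t ht.le, ← h (t + 1) ht]
    subst hd
    rfl
  · intro h t ht
    induction t with
    | zero => exact hq.symm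
    | succ t ih =>
      have h1 := h (dir n t) t (by omega) rfl
      rw [h1, ← ih (by omega)]
      rfl

/-- the final set as a function of the labels, for a fixed path -/
def rbit {n R : ℕ} (x y : V n) (m : Fin n) (b : Fin (R + 1)) : Bool :=
  decide (b ≠ Fin.last R) && decide (y m = x m)

theorem flip_ne {n : ℕ} (z : V n) (m : Fin n) : flip z m ≠ z := by
  intro h
  have := congrFun h m
  simp [flip] at this

open Classical in
theorem u_unflipped {n R : ℕ} [NeZero n] (g : V n → Fin n → Bool)
    (lam : Fin n → Fin (R + 1)) (x : V n) (m : Fin n) (p : ℝ)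
    (h : pos g lam x (R * n) m = x m) :
    (∑ b ∈ univ.filter (fun b : Fin (R + 1) => rbit x (pos g lam x (R * n)) m b = false),
        (if cons g (pos g lam x) m b then mu p R b else 0)) = 1 - p ∧
    (∑ b ∈ univ.filter (fun b : Fin (R + 1) => rbit x (pos g lam x (R * n)) m b = true),
        (if cons g (pos g lam x) m b then mu p R b else 0)) = p / R * mis g lam x m := by
  have hn : 0 < n := npos
  have hstep : ∀ t < R * n, dir n t = m → pos g lam x (t + 1) = pos g lam x t := by
    intro t ht hd
    have h1 := no_flip g lam x m h t ht hd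
    simp only [pos, step, hd]
    rw [if_neg h1]
  have hlast : cons g (pos g lam x) m (Fin.last R) := by
    intro t ht hd
    rw [hstep t ht hd, if_neg]
    intro hc
    have h2 : t / n < R := phase_lt ht
    have := hc.1
    rw [Fin.val_last] at this
    omega
  have hcs : ∀ i : Fin R, cons g (pos g lam x) m (Fin.castSucc i) ↔
      g (pos g lam x (i.val * n + m.val)) m ≠ col i.val := by
    intro i
    have hlt : i.val * n + m.val < R * n := by
      have hm := m.isLt
      calc i.val * n + m.val < i.val * n + n := by omega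
        _ = (i.val + 1) * n := by ring
        _ ≤ R * n := Nat.mul_le_mul_right _ i.isLt
    have hd : dir n (i.val * n + m.val) = m := by
      rw [dir_eq_iff, mul_comm, Nat.mul_add_mod, Nat.mod_eq_of_lt m.isLt]
    have hdv : (i.val * n + m.val) / n = i.val := by
      rw [mul_comm, Nat.mul_add_div hn, Nat.div_eq_of_lt m.isLt]; simp
    constructor
    · intro hc hm
      have h1 := hc _ hlt hd
      rw [hstep _ hlt hd, hdv, if_pos ⟨by simp, hm⟩] at h1
      exact flip_ne _ _ h1.symm
    · intro hm t ht hdt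
      rw [hstep t ht hdt, if_neg]
      rintro ⟨h1, h2⟩
      apply hm
      have ht2 : t = i.val * n + m.val := by
        have h3 : m.val = t % n := by rw [← hdt, dir_val]
        have h4 : i.val = t / n := by simpa using h1
        rw [h3, h4, mul_comm, Nat.div_add_mod]
      rw [← ht2, h2]
      have h4 : i.val = t / n := by simpa using h1
      rw [h4]
  constructor
  · rw [Finset.sum_filter, Fin.sum_univ_castSucc]
    have h3 : ∀ i : Fin R, Fin.castSucc i ≠ Fin.last R := fun i => (Fin.castSucc_lt_last i).ne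
    simp only [rbit, h, h3, ne_eq, not_false_eq_true, decide_true, Bool.true_and,
      Bool.true_eq_false, if_false, not_true, decide_false, Bool.false_and, if_true,
      Finset.sum_const_zero, zero_add, hlast]
    simp [mu]
  · rw [Finset.sum_filter, Fin.sum_univ_castSucc]
    have h3 : ∀ i : Fin R, Fin.castSucc i ≠ Fin.last R := fun i => (Fin.castSucc_lt_last i).ne
    simp only [rbit, h, h3, ne_eq, not_false_eq_true, decide_true, Bool.true_and,
      if_true, not_true, decide_false, Bool.false_and, Bool.false_eq_true, if_false, add_zero, hcs,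
      mu]
    rw [← Finset.sum_filter, Finset.sum_const, nsmul_eq_mul, mul_comm]
    congr 1
    unfold mis
    rw [Finset.card_filter, Finset.card_filter, Finset.sum_range]

theorem mu_nonneg {R : ℕ} {p : ℝ} (hp0 : 0 ≤ p) (hp1 : p ≤ 1) (b : Fin (R + 1)) : 0 ≤ mu p R b := by
  unfold mu
  split_ifs
  · linarith
  · positivity

/-- the average cost at a fixed vertex -/
noncomputable def Gq {n : ℕ} (g : V n → Fin n → Bool) (q : ℝ) (y : V n) : ℝ :=
  ∑ W : V n, (∏ m, bern q (W m)) * (cost g y W : ℝ)

theorem Gq_nonneg {n : ℕ} (g : V n → Fin n → Bool) (q : ℝ) (hq0 : 0 ≤ q) (hq1 : q ≤ 1) (y : V n) :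
    0 ≤ Gq g q y := by
  unfold Gq
  apply Finset.sum_nonneg
  intro W _
  apply mul_nonneg
  · apply Finset.prod_nonneg
    intro m _
    unfold bern
    split <;> linarith
  · positivity

theorem fiber_bound {n R : ℕ} [NeZero n] (hR : 0 < R) (g : V n → Fin n → Bool)
    (lam0 : Fin n → Fin (R + 1)) (x : V n) (p η : ℝ) (hp0 : 0 ≤ p) (hp : p ≤ 1 / 2)
    (hη0 : 0 ≤ η) (hη1 : η ≤ 1)
    (hgood : ∀ m, pos g lam0 x (R * n) m = x m →
      |(mis g lam0 x m : ℝ) - R / 2| < η * R / 2) :
    ∑ lam ∈ univ.filter (fun lam : Fin n → Fin (R + 1) =>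
        ∀ t ≤ R * n, pos g lam x t = pos g lam0 x t),
      (∏ m, mu p R (lam m)) * (cost g (pos g lam x (R * n)) (rest g lam x) : ℝ)
    ≤ ∑ lam ∈ univ.filter (fun lam : Fin n → Fin (R + 1) =>
        ∀ t ≤ R * n, pos g lam x t = pos g lam0 x t),
      (∏ m, mu p R (lam m)) *
        (((1 - p * (1 - η) / 2)⁻¹) ^ (univ.filter (fun m => supp lam m = true)).card *
          (Gq g (p * (1 - η) / 2) (pos g lam x (R * n)) + n * (p * η + 2 * p ^ 2))) := by
  classical
  have hRr : (0 : ℝ) < R := by exact_mod_cast hR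
  set y := pos g lam0 x (R * n) with hy
  set q0 := p * (1 - η) / 2 with hq0
  set δ := p * η + 2 * p ^ 2 with hδ
  have hq0n : 0 ≤ q0 := by
    rw [hq0]
    have : 0 ≤ p * (1 - η) := mul_nonneg hp0 (by linarith)
    linarith
  have hq0p : q0 ≤ p / 2 := by
    rw [hq0]
    have : p * (1 - η) ≤ p * 1 := mul_le_mul_of_nonneg_left (by linarith) hp0
    linarith
  have hδ0 : 0 ≤ δ := by positivity
  have hinv : 1 ≤ (1 - q0)⁻¹ := by
    rw [one_le_inv₀ (by linarith)]
    linarith
  have hmu : ∀ b : Fin (R + 1), 0 ≤ mu p R b := mu_nonneg hp0 (by linarith)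
  -- weights
  let w : Fin n → Fin (R + 1) → ℝ := fun m b => if cons g (pos g lam0 x) m b then mu p R b else 0
  have hw0 : ∀ m b, 0 ≤ w m b := by
    intro m b
    simp only [w]
    split_ifs
    · exact hmu b
    · exact le_rfl
  let u : Fin n → Bool → ℝ := fun m c =>
    ∑ b ∈ univ.filter (fun b : Fin (R + 1) => rbit x y m b = c), w m b
  have hu0 : ∀ m c, 0 ≤ u m c := fun m c => Finset.sum_nonneg (fun b _ => hw0 m b)
  -- fibre sums as product sums
  have hfib : ∀ H : (Fin n → Fin (R + 1)) → ℝ,
      ∑ lam ∈ univ.filter (fun lam : Fin n → Fin (R + 1) =>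
        ∀ t ≤ R * n, pos g lam x t = pos g lam0 x t), (∏ m, mu p R (lam m)) * H lam
      = ∑ lam : Fin n → Fin (R + 1), (∏ m, w m (lam m)) * H lam := by
    intro H
    rw [Finset.sum_filter]
    apply Finset.sum_congr rfl
    intro lam _
    by_cases hc : ∀ t ≤ R * n, pos g lam x t = pos g lam0 x t
    · rw [if_pos hc]
      congr 1
      apply Finset.prod_congr rfl
      intro m _
      have := (fiber_iff g lam x (pos g lam0 x) rfl).mp hc m
      simp only [w]
      rw [if_pos this]
    · rw [if_neg hc]
      have h1 : ¬ ∀ m, cons g (pos g lam0 x) m (lam m) := fun h =>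
        hc ((fiber_iff g lam x (pos g lam0 x) rfl).mpr h)
      push Not at h1
      obtain ⟨m, hm⟩ := h1
      rw [Finset.prod_eq_zero (Finset.mem_univ m) (by simp only [w]; rw [if_neg hm]), zero_mul]
  -- left side
  have hL : ∑ lam ∈ univ.filter (fun lam : Fin n → Fin (R + 1) =>
        ∀ t ≤ R * n, pos g lam x t = pos g lam0 x t),
      (∏ m, mu p R (lam m)) * (cost g (pos g lam x (R * n)) (rest g lam x) : ℝ)
      = ∑ W : V n, (∏ m, u m (W m)) * (cost g y W : ℝ) := by
    have h1 := sum_push w (fun m b => rbit x y m b) (fun W => (cost g y W : ℝ))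
    rw [← h1, ← hfib (fun lam => (cost g y (fun m => rbit x y m (lam m)) : ℝ))]
    apply Finset.sum_congr rfl
    intro lam hlam
    have hlam := (Finset.mem_filter.mp hlam).2
    have h2 : pos g lam x (R * n) = y := hlam _ le_rfl
    have h3 : rest g lam x = fun m => rbit x y m (lam m) := by
      funext m
      unfold rest rbit
      rw [h2]
    rw [h2, h3]
  -- total mass
  have htot : ∏ m, (u m true + u m false) = ∑ lam ∈ univ.filter
      (fun lam : Fin n → Fin (R + 1) => ∀ t ≤ R * n, pos g lam x t = pos g lam0 x t),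
      (∏ m, mu p R (lam m)) := by
    have h1 := hfib (fun _ => 1)
    simp only [mul_one] at h1
    rw [h1, sum_prod_eq w]
    apply Finset.prod_congr rfl
    intro m _
    simp only [u]
    have h2 := Finset.sum_fiberwise (s := (univ : Finset (Fin (R + 1))))
      (g := fun b => rbit x y m b) (f := w m)
    rw [← h2]
    simp
  let K : Fin n → ℝ := fun m => if y m = x m then 1 else (1 - q0)⁻¹
  have hK1 : ∀ m, 1 ≤ K m := by
    intro m
    simp only [K]
    split_ifs
    · exact le_rfl
    · exact hinv
  have hkey : ∀ m, ∀ H0 H1 : ℝ, 0 ≤ H0 → 0 ≤ H1 → H1 ≤ H0 + 1 →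
      u m true * H1 + u m false * H0
        ≤ (u m true + u m false) * K m * (q0 * H1 + (1 - q0) * H0 + δ) := by
    intro m H0 H1 hH0 hH1 hH
    by_cases hm : y m = x m
    · -- unflipped
      obtain ⟨e0, e1⟩ := u_unflipped g lam0 x m p hm
      have e0' : u m false = 1 - p := e0
      have e1' : u m true = p / R * mis g lam0 x m := e1
      have hg1 := abs_lt.mp (hgood m hm)
      simp only [K, if_pos hm, mul_one]
      set M : ℝ := (mis g lam0 x m : ℝ) with hM
      -- w := M / R in ((1-η)/2, (1+η)/2)
      set r : ℝ := M / R with hr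
      have hMr : p / R * M = p * r := by rw [hr]; ring
      have hr1 : (1 - η) / 2 ≤ r := by
        rw [hr, le_div_iff₀ hRr]; linarith [hg1.1]
      have hr2 : r ≤ (1 + η) / 2 := by
        rw [hr, div_le_iff₀ hRr]; linarith [hg1.2]
      rw [e0', e1', hMr]
      have hpr : 0 ≤ p * r := mul_nonneg hp0 (by linarith)
      have hpr1 : q0 ≤ p * r := by
        rw [hq0]
        have := mul_le_mul_of_nonneg_left hr1 hp0
        linarith
      have hpr2 : p * r ≤ p * (1 + η) / 2 := by
        have := mul_le_mul_of_nonneg_left hr2 hp0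
        linarith
      have htot1 : p * r + (1 - p) ≤ 1 := by
        have : p * r ≤ p * 1 := mul_le_mul_of_nonneg_left (by linarith) hp0
        linarith
      -- (q0 + δ) (p r + 1 - p) ≥ p r
      have hlow : q0 * (p * r + (1 - p)) ≤ p * r := by
        have := mul_le_mul_of_nonneg_left htot1 hq0n
        linarith
      have hup : p * r ≤ (q0 + δ) * (p * r + (1 - p)) := by
        have h1 : (q0 + δ) * (1 - p) ≤ (q0 + δ) * (p * r + (1 - p)) :=
          mul_le_mul_of_nonneg_left (by linarith) (by linarith)
        have h2 : p * (1 + η) / 2 ≤ (q0 + δ) * (1 - p) := by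
          rw [hq0, hδ]
          have h3 : (p * (1 - η) / 2 + (p * η + 2 * p ^ 2)) * (1 - p) - p * (1 + η) / 2
            = p ^ 2 * (3 / 2 - η / 2 - 2 * p) := by ring
          have h4 : 0 ≤ p ^ 2 * (3 / 2 - η / 2 - 2 * p) :=
            mul_nonneg (sq_nonneg p) (by linarith)
          linarith
        linarith
      -- conclusion
      set T := p * r + (1 - p) with hT
      have hT0 : 0 ≤ T := by linarith
      have hdiff : T * (q0 * H1 + (1 - q0) * H0 + δ) - (p * r * H1 + (1 - p) * H0)
        = T * δ - (p * r - q0 * T) * (H1 - H0) := by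
        rw [hT]; ring
      have h5 : (p * r - q0 * T) * (H1 - H0) ≤ (p * r - q0 * T) * 1 :=
        mul_le_mul_of_nonneg_left (by linarith) (by linarith)
      have h6 : (q0 + δ) * T = q0 * T + T * δ := by ring
      linarith
    · -- flipped
      have e1 : u m true = 0 := by
        simp only [u]
        apply Finset.sum_eq_zero
        intro b hb
        exfalso
        have := (Finset.mem_filter.mp hb).2
        simp [rbit, hm] at this
      simp only [K, if_neg hm, e1, zero_mul, zero_add]
      have h1 : (1 - q0)⁻¹ * (q0 * H1 + (1 - q0) * H0 + δ) =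
          H0 + (1 - q0)⁻¹ * (q0 * H1 + δ) := by
        have : (1 - q0)⁻¹ * (1 - q0) = 1 := inv_mul_cancel₀ (by linarith)
        calc (1 - q0)⁻¹ * (q0 * H1 + (1 - q0) * H0 + δ)
            = ((1 - q0)⁻¹ * (1 - q0)) * H0 + (1 - q0)⁻¹ * (q0 * H1 + δ) := by ring
          _ = _ := by rw [this, one_mul]
      rw [mul_assoc, h1]
      apply mul_le_mul_of_nonneg_left _ (hu0 m false)
      have : 0 ≤ (1 - q0)⁻¹ * (q0 * H1 + δ) :=
        mul_nonneg (by linarith) (by positivity)
      linarith
  have hrep := replacement n u K q0 δ hu0 hK1 hq0n (by linarith) hδ0 hkey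
    (fun W => (cost g y W : ℝ)) (fun W => by positivity)
    (fun W l => by exact_mod_cast cost_update g y W l)
  rw [hL]
  refine hrep.trans ?_
  rw [htot, mul_assoc, Finset.sum_mul]
  apply Finset.sum_le_sum
  intro lam hlam
  have hlam := (Finset.mem_filter.mp hlam).2
  have h2 : pos g lam x (R * n) = y := hlam _ le_rfl
  apply mul_le_mul_of_nonneg_left _ (Finset.prod_nonneg (fun m _ => hmu _))
  rw [h2]
  apply mul_le_mul_of_nonneg_right _ (by
    have h4 := Gq_nonneg g q0 hq0n (by linarith) y
    have h3 : (0 : ℝ) ≤ n * δ := by positivity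
    change 0 ≤ Gq g q0 y + n * δ
    linarith)
  simp only [K]
  rw [Finset.prod_ite, Finset.prod_const_one, one_mul, Finset.prod_const]
  apply pow_le_pow_right₀ hinv
  apply Finset.card_le_card
  intro m hm
  simp only [mem_filter, mem_univ, true_and] at hm ⊢
  unfold supp
  rw [decide_eq_true_eq]
  intro hl
  apply hm
  rw [← h2]
  apply pos_before g lam x m
  unfold arrTime
  rw [hl, Fin.val_last]
  omega

open Classical in
/-- the bad event -/
noncomputable def badI {n R : ℕ} [NeZero n] (g : V n → Fin n → Bool) (a : ℝ)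
    (lam : Fin n → Fin (R + 1)) (x : V n) : ℝ :=
  ∑ m : Fin n, (if a ≤ |(mis g (Function.update lam m (Fin.last R)) x m : ℝ) - R / 2|
          then (1 : ℝ) else 0)

theorem badI_nonneg {n R : ℕ} [NeZero n] (g : V n → Fin n → Bool) (a : ℝ)
    (lam : Fin n → Fin (R + 1)) (x : V n) : 0 ≤ badI g a lam x := by
  unfold badI
  apply Finset.sum_nonneg
  intro m _
  split_ifs <;> norm_num

theorem cost_le_n {n : ℕ} (g : V n → Fin n → Bool) (y W : V n) : (cost g y W : ℝ) ≤ n := by
  have h1 := cost_le_card g y W
  have h2 : (univ.filter (fun m => W m = true)).card ≤ n := by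
    calc _ ≤ (univ : Finset (Fin n)).card := Finset.card_filter_le _ _
      _ = n := by simp
  exact_mod_cast h1.trans h2

theorem fixed_start {n R : ℕ} [NeZero n] (hR : 0 < R) (g : V n → Fin n → Bool)
    (x : V n) (p η : ℝ) (hp0 : 0 ≤ p) (hp : p ≤ 1 / 2) (hη0 : 0 ≤ η) (hη1 : η ≤ 1) :
    ∑ lam : Fin n → Fin (R + 1),
      (∏ m, mu p R (lam m)) * (cost g (pos g lam x (R * n)) (rest g lam x) : ℝ)
    ≤ ∑ lam : Fin n → Fin (R + 1),
      (∏ m, mu p R (lam m)) *
        (((1 - p * (1 - η) / 2)⁻¹) ^ (univ.filter (fun m => supp lam m = true)).card *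
          (Gq g (p * (1 - η) / 2) (pos g lam x (R * n)) + n * (p * η + 2 * p ^ 2))
          + n * badI g (η * R / 2) lam x) := by
  classical
  have hmu : ∀ b : Fin (R + 1), 0 ≤ mu p R b := mu_nonneg hp0 (by linarith)
  have hq0n : 0 ≤ p * (1 - η) / 2 := by
    have : 0 ≤ p * (1 - η) := mul_nonneg hp0 (by linarith)
    linarith
  have hq0p : p * (1 - η) / 2 ≤ p / 2 := by
    have : p * (1 - η) ≤ p * 1 := mul_le_mul_of_nonneg_left (by linarith) hp0
    linarith
  have hinv0 : 0 ≤ (1 - p * (1 - η) / 2)⁻¹ := inv_nonneg.mpr (by linarith)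
  have hδ0 : 0 ≤ (n : ℝ) * (p * η + 2 * p ^ 2) := by positivity
  rw [← Finset.sum_fiberwise (s := (univ : Finset (Fin n → Fin (R + 1))))
      (g := fun lam => (fun t : Fin (R * n + 1) => pos g lam x t.val))
      (f := fun lam => (∏ m, mu p R (lam m)) *
        (cost g (pos g lam x (R * n)) (rest g lam x) : ℝ)),
    ← Finset.sum_fiberwise (s := (univ : Finset (Fin n → Fin (R + 1))))
      (g := fun lam => (fun t : Fin (R * n + 1) => pos g lam x t.val))
      (f := fun lam => (∏ m, mu p R (lam m)) *
        (((1 - p * (1 - η) / 2)⁻¹) ^ (univ.filter (fun m => supp lam m = true)).card *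
          (Gq g (p * (1 - η) / 2) (pos g lam x (R * n)) + n * (p * η + 2 * p ^ 2))
          + n * badI g (η * R / 2) lam x))]
  apply Finset.sum_le_sum
  intro α _
  rcases Finset.eq_empty_or_nonempty (univ.filter
    (fun lam : Fin n → Fin (R + 1) => (fun t : Fin (R * n + 1) => pos g lam x t.val) = α)) with
    he | ⟨lam0, hlam0⟩
  · rw [he]; simp
  · have h0 := (Finset.mem_filter.mp hlam0).2
    have hset : univ.filter
      (fun lam : Fin n → Fin (R + 1) => (fun t : Fin (R * n + 1) => pos g lam x t.val) = α)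
      = univ.filter (fun lam : Fin n → Fin (R + 1) =>
        ∀ t ≤ R * n, pos g lam x t = pos g lam0 x t) := by
      apply Finset.filter_congr
      intro lam _
      rw [← h0]
      constructor
      · intro h t ht
        exact congrFun h ⟨t, by omega⟩
      · intro h
        funext t
        exact h t.val (by have := t.isLt; omega)
    rw [hset]
    by_cases hgood : ∀ m, pos g lam0 x (R * n) m = x m →
      |(mis g lam0 x m : ℝ) - R / 2| < η * R / 2
    · refine (fiber_bound hR g lam0 x p η hp0 hp hη0 hη1 hgood).trans ?_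
      apply Finset.sum_le_sum
      intro lam _
      apply mul_le_mul_of_nonneg_left _ (Finset.prod_nonneg (fun m _ => hmu _))
      have := mul_nonneg (Nat.cast_nonneg n : (0 : ℝ) ≤ n) (badI_nonneg g (η * R / 2) lam x)
      linarith
    · push Not at hgood
      obtain ⟨m, hm1, hm2⟩ := hgood
      apply Finset.sum_le_sum
      intro lam hlam
      have hlam := (Finset.mem_filter.mp hlam).2
      apply mul_le_mul_of_nonneg_left _ (Finset.prod_nonneg (fun m _ => hmu _))
      have hbad : 1 ≤ badI g (η * R / 2) lam x := by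
        unfold badI
        have hend : pos g lam x (R * n) m = x m := by rw [hlam _ le_rfl]; exact hm1
        have hmis : mis g lam x m = mis g lam0 x m := by
          unfold mis
          congr 1
          apply Finset.filter_congr
          intro i hi
          have hi := Finset.mem_range.mp hi
          rw [hlam]
          have hm := m.isLt
          calc i * n + m.val ≤ i * n + n := by omega
            _ = (i + 1) * n := by ring
            _ ≤ R * n := Nat.mul_le_mul_right _ hi
        have h1 : (if η * R / 2 ≤ |(mis g (Function.update lam m (Fin.last R)) x m : ℝ) - R / 2|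
          then (1 : ℝ) else 0) = 1 := by
          rw [if_pos]
          rw [mis_remove g lam x m hend, hmis]
          exact hm2
        have h1' := Finset.single_le_sum (f := fun m : Fin n =>
          (if η * R / 2 ≤ |(mis g (Function.update lam m (Fin.last R)) x m : ℝ) - R / 2|
          then (1 : ℝ) else 0)) (fun m _ => by split_ifs <;> norm_num) (Finset.mem_univ m)
        simp only [h1] at h1'
        exact h1'
      have h2 := cost_le_n g (pos g lam x (R * n)) (rest g lam x)
      have h3 : 0 ≤ ((1 - p * (1 - η) / 2)⁻¹) ^ (univ.filter (fun m => supp lam m = true)).card *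
          (Gq g (p * (1 - η) / 2) (pos g lam x (R * n)) + n * (p * η + 2 * p ^ 2)) := by
        apply mul_nonneg (pow_nonneg hinv0 _)
        have := Gq_nonneg g (p * (1 - η) / 2) hq0n (by linarith) (pos g lam x (R * n))
        linarith
      have h4 : (n : ℝ) * 1 ≤ n * badI g (η * R / 2) lam x :=
        mul_le_mul_of_nonneg_left hbad (Nat.cast_nonneg n)
      linarith

/-- for fixed labels the end point is uniformly distributed -/
theorem sum_pos {n R : ℕ} [NeZero n] (g : V n → Fin n → Bool)
    (hg : ∀ z m, g (flip z m) m = g z m) (lam : Fin n → Fin (R + 1)) (t : ℕ) (F : V n → ℝ) :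
    ∑ x, F (pos g lam x t) = ∑ y, F y := by
  induction t generalizing F with
  | zero => rfl
  | succ t ih =>
    have h1 : ∀ z, step g lam t (step g lam t z) = z := by
      intro z
      unfold step
      by_cases h : (lam (dir n t)).val = t / n ∧ g z (dir n t) = col (t / n)
      · rw [if_pos h, if_pos ⟨h.1, by rw [hg]; exact h.2⟩, flip_flip]
      · rw [if_neg h, if_neg h]
    have h2 := Equiv.sum_comp (⟨step g lam t, step g lam t, h1, h1⟩ : Equiv.Perm (V n)) F
    rw [← h2]
    exact ih (fun z => F (step g lam t z))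

theorem one_step {n R : ℕ} [NeZero n] (hR : 0 < R) (hR2 : Even R) (g : V n → Fin n → Bool)
    (hg : ∀ z m, g (flip z m) m = g z m) (p η θ : ℝ) (hp0 : 0 ≤ p) (hp : p ≤ 1 / 2)
    (hη0 : 0 ≤ η) (hη1 : η ≤ 1) (hθ0 : 0 ≤ θ) (hθ1 : θ ≤ 1) :
    avg g p ≤ R + Real.exp (n * p ^ 2) * (avg g (p * (1 - η) / 2) + n * (p * η + 2 * p ^ 2))
      + n * (n * (2 * Real.exp (2 * p * n * θ ^ 2 - θ * (η * R / 2)))) := by
  classical
  set q0 := p * (1 - η) / 2 with hq0
  set δ := p * η + 2 * p ^ 2 with hδ
  set E := Real.exp (2 * p * n * θ ^ 2 - θ * (η * R / 2)) with hE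
  have hmu : ∀ b : Fin (R + 1), 0 ≤ mu p R b := mu_nonneg hp0 (by linarith)
  have hmuprod : ∀ lam : Fin n → Fin (R + 1), 0 ≤ ∏ m, mu p R (lam m) :=
    fun lam => Finset.prod_nonneg (fun m _ => hmu _)
  have hq0n : 0 ≤ q0 := by
    rw [hq0]
    have : 0 ≤ p * (1 - η) := mul_nonneg hp0 (by linarith)
    linarith
  have hq0p : q0 ≤ p / 2 := by
    rw [hq0]
    have : p * (1 - η) ≤ p * 1 := mul_le_mul_of_nonneg_left (by linarith) hp0
    linarith
  have h2n : (0 : ℝ) < 2 ^ n := by positivity
  have hδ0 : 0 ≤ (n : ℝ) * δ := by positivity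
  have hinv0 : 0 ≤ (1 - q0)⁻¹ := inv_nonneg.mpr (by linarith)
  have hsum1 := sum_prod_mu (n := n) hR p
  -- numerator of `avg`
  have hnum : ∑ x : V n, ∑ S : V n, (∏ m, bern p (S m)) * (cost g x S : ℝ)
      = ∑ x : V n, ∑ lam : Fin n → Fin (R + 1),
        (∏ m, mu p R (lam m)) * (cost g x (supp lam) : ℝ) := by
    apply Finset.sum_congr rfl
    intro x _
    exact (sum_supp hR p (fun S => (cost g x S : ℝ))).symm
  have hA : ∀ x : V n, ∑ lam : Fin n → Fin (R + 1),
        (∏ m, mu p R (lam m)) * (cost g x (supp lam) : ℝ)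
      ≤ R + ∑ lam : Fin n → Fin (R + 1),
      (∏ m, mu p R (lam m)) *
        (((1 - q0)⁻¹) ^ (univ.filter (fun m => supp lam m = true)).card *
          (Gq g q0 (pos g lam x (R * n)) + n * δ)
          + n * badI g (η * R / 2) lam x) := by
    intro x
    have h1 := fixed_start hR g x p η hp0 hp hη0 hη1
    calc ∑ lam : Fin n → Fin (R + 1), (∏ m, mu p R (lam m)) * (cost g x (supp lam) : ℝ)
        ≤ ∑ lam : Fin n → Fin (R + 1), (∏ m, mu p R (lam m)) *
          (R + (cost g (pos g lam x (R * n)) (rest g lam x) : ℝ)) := by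
          apply Finset.sum_le_sum
          intro lam _
          apply mul_le_mul_of_nonneg_left _ (hmuprod lam)
          exact_mod_cast cost_process hR g lam x
      _ = R + ∑ lam : Fin n → Fin (R + 1), (∏ m, mu p R (lam m)) *
          (cost g (pos g lam x (R * n)) (rest g lam x) : ℝ) := by
          simp only [mul_add]
          rw [Finset.sum_add_distrib, ← Finset.sum_mul, hsum1, one_mul]
      _ ≤ _ := by linarith
  have hB : ∑ x : V n, ∑ S : V n, (∏ m, bern p (S m)) * (cost g x S : ℝ)
      ≤ 2 ^ n * R + ∑ lam : Fin n → Fin (R + 1), (∏ m, mu p R (lam m)) *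
        (((1 - q0)⁻¹) ^ (univ.filter (fun m => supp lam m = true)).card *
          (∑ x : V n, Gq g q0 (pos g lam x (R * n)) + 2 ^ n * (n * δ))
          + n * ∑ x : V n, badI g (η * R / 2) lam x) := by
    rw [hnum]
    refine (Finset.sum_le_sum (fun x _ => hA x)).trans (le_of_eq ?_)
    rw [Finset.sum_add_distrib, Finset.sum_comm]
    congr 1
    · simp [Finset.card_univ]
    · apply Finset.sum_congr rfl
      intro lam _
      rw [← Finset.mul_sum]
      congr 1
      rw [Finset.sum_add_distrib, ← Finset.mul_sum, ← Finset.mul_sum, Finset.sum_add_distrib,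
        Finset.sum_const, Finset.card_univ, Fintype.card_fun, Fintype.card_bool, Fintype.card_fin,
        nsmul_eq_mul]
      push_cast
      rfl
  -- uniform end point
  have hG : ∀ lam : Fin n → Fin (R + 1), ∑ x : V n, Gq g q0 (pos g lam x (R * n))
      = 2 ^ n * avg g q0 := by
    intro lam
    rw [sum_pos g hg lam (R * n) (Gq g q0)]
    unfold avg Gq
    field_simp
  -- bad part
  have hbad : ∑ lam : Fin n → Fin (R + 1), (∏ m, mu p R (lam m)) *
      (n * ∑ x : V n, badI g (η * R / 2) lam x) ≤ 2 ^ n * (n * (n * (2 * E))) := by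
    have h1 : ∀ m : Fin n, ∑ lam : Fin n → Fin (R + 1), (∏ m, mu p R (lam m)) *
        ∑ x : V n, (if η * R / 2 ≤ |(mis g (Function.update lam m (Fin.last R)) x m : ℝ) - R / 2|
          then (1 : ℝ) else 0) ≤ 2 ^ n * (2 * E) := by
      intro m
      exact conc hR hR2 g hg m p θ (η * R / 2) hp0 hp hθ0 hθ1
    have h2 := Finset.sum_le_sum (fun m (_ : m ∈ (univ : Finset (Fin n))) => h1 m)
    rw [Finset.sum_comm] at h2
    simp only [Finset.sum_const, Finset.card_univ, Fintype.card_fin, nsmul_eq_mul] at h2
    have h3 : ∑ lam : Fin n → Fin (R + 1), (∏ m, mu p R (lam m)) *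
      (n * ∑ x : V n, badI g (η * R / 2) lam x) =
      n * ∑ lam : Fin n → Fin (R + 1), ∑ m' : Fin n, (∏ m, mu p R (lam m)) *
        ∑ x : V n, (if η * R / 2 ≤ |(mis g (Function.update lam m' (Fin.last R)) x m' : ℝ) - R / 2|
          then (1 : ℝ) else 0) := by
      rw [Finset.mul_sum]
      apply Finset.sum_congr rfl
      intro lam _
      rw [← Finset.mul_sum]
      rw [mul_left_comm]
      congr 2
      unfold badI
      rw [Finset.sum_comm]
    rw [h3]
    have h4 := mul_le_mul_of_nonneg_left h2 (Nat.cast_nonneg n : (0 : ℝ) ≤ n)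
    refine h4.trans (le_of_eq ?_)
    ring
  -- main part
  have hpow := sum_pow_supp (n := n) hR p q0 (by linarith)
  have hbase : (1 - p + p * (1 - q0)⁻¹) ^ n ≤ Real.exp (n * p ^ 2) := by
    have h1 : 1 - p + p * (1 - q0)⁻¹ ≤ 1 + p ^ 2 := by
      have h2 : (1 - q0)⁻¹ ≤ 1 + p := by
        rw [inv_le_comm₀ (by linarith) (by linarith), inv_le_iff_one_le_mul₀ (by linarith)]
        nlinarith
      have h3 := mul_le_mul_of_nonneg_left h2 hp0
      nlinarith
    have h4 : 0 ≤ 1 - p + p * (1 - q0)⁻¹ := by
      have := mul_nonneg hp0 hinv0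
      linarith
    calc (1 - p + p * (1 - q0)⁻¹) ^ n ≤ (1 + p ^ 2) ^ n := pow_le_pow_left₀ h4 h1 n
      _ ≤ Real.exp (p ^ 2) ^ n := by
          apply pow_le_pow_left₀ (by positivity)
          have := Real.add_one_le_exp (p ^ 2)
          linarith
      _ = Real.exp (n * p ^ 2) := by rw [← Real.exp_nat_mul]
  have havg0 : 0 ≤ avg g q0 := by
    unfold avg
    apply div_nonneg _ h2n.le
    apply Finset.sum_nonneg
    intro x _
    exact Gq_nonneg g q0 hq0n (by linarith) x
  have hC : ∑ x : V n, ∑ S : V n, (∏ m, bern p (S m)) * (cost g x S : ℝ)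
      ≤ 2 ^ n * (R + Real.exp (n * p ^ 2) * (avg g q0 + n * δ) + n * (n * (2 * E))) := by
    refine hB.trans ?_
    simp only [hG]
    have h1 : ∑ lam : Fin n → Fin (R + 1), (∏ m, mu p R (lam m)) *
        (((1 - q0)⁻¹) ^ (univ.filter (fun m => supp lam m = true)).card *
          (2 ^ n * avg g q0 + 2 ^ n * (n * δ))
          + n * ∑ x : V n, badI g (η * R / 2) lam x)
        = (∑ lam : Fin n → Fin (R + 1), (∏ m, mu p R (lam m)) *
        ((1 - q0)⁻¹) ^ (univ.filter (fun m => supp lam m = true)).card) *
          (2 ^ n * avg g q0 + 2 ^ n * (n * δ))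
          + ∑ lam : Fin n → Fin (R + 1), (∏ m, mu p R (lam m)) *
            (n * ∑ x : V n, badI g (η * R / 2) lam x) := by
      rw [Finset.sum_mul, ← Finset.sum_add_distrib]
      apply Finset.sum_congr rfl
      intro lam _
      ring
    rw [h1, hpow]
    have h2 : (1 - p + p * (1 - q0)⁻¹) ^ n * (2 ^ n * avg g q0 + 2 ^ n * (n * δ))
        ≤ Real.exp (n * p ^ 2) * (2 ^ n * avg g q0 + 2 ^ n * (n * δ)) :=
      mul_le_mul_of_nonneg_right hbase (by positivity)
    calc _ ≤ 2 ^ n * R + (Real.exp (n * p ^ 2) * (2 ^ n * avg g q0 + 2 ^ n * (n * δ))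
          + 2 ^ n * (n * (n * (2 * E)))) := by
          apply add_le_add le_rfl
          exact add_le_add h2 hbad
      _ = _ := by ring
  unfold avg at hC ⊢
  rw [div_le_iff₀ h2n]
  refine hC.trans (le_of_eq ?_)
  ring

end Pool.MP_801c1a_co.Sub
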